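import Pool.Agent.H97.MM.Cls
import Pool.Agent.H92.GN.FreeX

/-!
# The first digits of the velocity are free at almost every window

`fre_num`: in a subclass the digits `2 ^ (-k) J` of the velocities given the record of every rational
window `w + s` and the time have numbers `θ`, which decrease with the window. `fre_ae`: at almost
every `g` for every `e > 0` there is ONE number of digits `P J` such that for all small `r` the first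
`P J` digits of the velocity are free (`FrD`), up to `e r J`, between all rational windows of
`[g - r, g + r]`; the same in every subclass.
-/

set_option autoImplicit false

namespace Pool.ONE91

open Finset Real MeasureTheory
open Pool.Agent.H49.Ent Pool.Agent.H32.Dense Pool.STK Pool.KA Pool.KSAT Pool.K2S Pool.PB Pool.S6C
open Pool.GEN Pool.RCD Pool.LA91
open Pool.MM97 (FrD)

variable {m : ℕ}

/-- The windows. -/
theorem vg_anti {w w' : ℝ} (h : w ≤ w') (J : ℕ) (F : Fam m J) :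
    ∃ φ : LnT F → LnT F, ∀ ω, vg w J F ω = φ (vg w' J F ω) := by
  have h1 : ⌊w * (J : ℝ)⌋₊ ≤ ⌊w' * (J : ℝ)⌋₊ :=
    Nat.floor_le_floor (mul_le_mul_of_nonneg_right h (Nat.cast_nonneg (α := ℝ) J))
  refine ⟨fun s => (s.1, s.2.1, s.2.2 / 2 ^ ((J - ⌊w * (J : ℝ)⌋₊) - (J - ⌊w' * (J : ℝ)⌋₊))),
    fun ω => ?_⟩
  show (F.l ω, F.Z ω, F.T ω / 2 ^ (J - ⌊w * (J : ℝ)⌋₊)) = (F.l ω, F.Z ω,
    F.T ω / 2 ^ (J - ⌊w' * (J : ℝ)⌋₊) / 2 ^ ((J - ⌊w * (J : ℝ)⌋₊) - (J - ⌊w' * (J : ℝ)⌋₊)))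
  rw [Nat.div_div_eq_div_mul, ← pow_add]
  congr 4
  omega

/-- The digits of a velocity are few. -/
theorem cnt_vel {J : ℕ} (F : Fam m J) (y : Fin m) (n : ℕ) (A : F.Ω → Prop) :
    (Pool.S6C.cnt F.p (fun ω => F.D n ω y) A : ℝ) ≤ 5 * 2 ^ n := by
  have p1 : (1 : ℝ) ≤ 2 ^ n := one_le_pow₀ (by norm_num)
  have h1 := cnt_le_of_abs (p := F.p) (u := fun ω => F.D n ω y) (A := A) (B := 2 ^ n + 1)
    (by positivity) (fun ω _ => by
      have f1 := Int.floor_le ((2 : ℝ) ^ n * F.d ω y)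
      have f2 := Int.lt_floor_add_one ((2 : ℝ) ^ n * F.d ω y)
      have f3 := abs_le.1 (F.dir ω y)
      have f4 : (2 : ℝ) ^ n * F.d ω y ≤ 2 ^ n * 1 :=
        mul_le_mul_of_nonneg_left f3.2 (by positivity)
      have f5 : (2 : ℝ) ^ n * (-1) ≤ 2 ^ n * F.d ω y :=
        mul_le_mul_of_nonneg_left f3.1 (by positivity)
      show |((⌊(2 : ℝ) ^ n * F.d ω y⌋ : ℤ) : ℝ)| ≤ 2 ^ n + 1
      rw [abs_le]
      constructor <;> linarith)
  linarith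

/-- The digits of a velocity are few: in a class. -/
theorem cnt_vel_bas (S : PCl m) (y : Fin m) {P : ℝ} (hP : 0 < P) :
    Bas S (fun J F A => (Pool.S6C.cnt F.p (fun ω => F.D ⌊P * J⌋₊ ω y) A : ℝ) ≤
      Real.exp (2 * P * J)) := by
  obtain ⟨J₁, hJ₁⟩ := exists_nat_ge (2 / P)
  refine ⟨1, one_pos, J₁, fun J hJ F A' _ => ?_⟩
  refine (cnt_vel F y _ A').trans ?_
  have hJr : (J₁ : ℝ) ≤ J := by exact_mod_cast hJ
  have l1 := hJ₁.trans hJr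
  rw [div_le_iff₀ hP] at l1
  obtain ⟨l, hl⟩ : ∃ l : ℝ, l = P * J := ⟨_, rfl⟩
  have hl2 : 2 ≤ l := by rw [hl]; linarith
  rw [← hl]
  have n1 : (⌊l⌋₊ : ℝ) ≤ l := Nat.floor_le (by linarith)
  have e1 : (2 : ℝ) ^ ⌊l⌋₊ ≤ Real.exp l := by
    have h3 : (2 : ℝ) ≤ Real.exp 1 := by
      have := Real.add_one_le_exp (1 : ℝ)
      linarith
    calc (2 : ℝ) ^ ⌊l⌋₊ ≤ Real.exp 1 ^ ⌊l⌋₊ := pow_le_pow_left₀ (by norm_num) h3 _
      _ = Real.exp ⌊l⌋₊ := by rw [← Real.exp_nat_mul, mul_one]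
      _ ≤ Real.exp l := Real.exp_le_exp.2 n1
  have e2 : (5 : ℝ) ≤ Real.exp l := by
    have h4 : Real.exp (2 : ℝ) ≤ Real.exp l := Real.exp_le_exp.2 hl2
    have h5 : (5 : ℝ) ≤ Real.exp 2 := by
      have h6 : (2.7 : ℝ) ≤ Real.exp 1 := by
        have := Real.exp_one_gt_d9
        linarith
      have h7 : Real.exp 2 = Real.exp 1 * Real.exp 1 := by
        rw [← Real.exp_add]
        norm_num
      rw [h7]
      nlinarith [mul_le_mul h6 h6 (by norm_num) (by linarith)]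
    linarith
  have e3 : Real.exp (2 * P * (J : ℝ)) = Real.exp l * Real.exp l := by
    rw [← Real.exp_add, hl]
    congr 1
    ring
  rw [e3]
  exact mul_le_mul e2 e1 (by positivity) (Real.exp_pos _).le

/-- `FrD` in a subclass. -/
theorem FrD.sub {S S' : PCl m} (hs : ∀ (τ : ℝ) (J : ℕ) (F : Fam m J) (A : F.Ω → Prop),
    S'.St τ J F A → S.St τ J F A) {y : Fin m} {N w l κ : ℝ} (h : FrD S y N w l κ) :
    FrD S' y N w l κ := by
  obtain ⟨k, hk, H⟩ := h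
  exact ⟨k, hk, H.sub hs⟩

/-- `FrD` with a larger error. -/
theorem FrD.mono {S : PCl m} {y : Fin m} {N w l κ κ' : ℝ} (h : FrD S y N w l κ) (hκ : κ ≤ κ') :
    FrD S y N w l κ' := by
  obtain ⟨k, hk, H⟩ := h
  refine ⟨k, hk, Bas.mono 0 H ?_⟩
  intro J _ F A H V z V' z' h1 h2
  refine (H V z V' z' h1 h2).trans ?_
  have := mul_le_mul_of_nonneg_right hκ (Nat.cast_nonneg (α := ℝ) J)
  linarith

section num

variable {S : PCl m} {α β β' υ γ : ∀ J : ℕ, Fam m J → Type}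
  {f : ∀ (J : ℕ) (F : Fam m J), F.Ω → α J F} {g : ∀ (J : ℕ) (F : Fam m J), F.Ω → β J F}
  {g' : ∀ (J : ℕ) (F : Fam m J), F.Ω → β' J F}
  {u : ∀ (J : ℕ) (F : Fam m J), F.Ω → υ J F} {y : ∀ (J : ℕ) (F : Fam m J), F.Ω → γ J F}
  {θ θ' : ℝ}

/-- The number is at least the entropy given a best closed function. -/
theorem cnum_mx (hpos : ∀ (τ : ℝ) (J : ℕ) (F : Fam m J) (A : F.Ω → Prop),
      S.St τ J F A → 0 < Pe F.p A) (hθ : CNum S f g u y θ) (h : ℝ) (hh : 0 < h) :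
    Bas S (fun J F A => ∀ (k : ℝ) (V : Type) (z : F.Ω → V), Mx f g k F A z →
      CH (Pool.Agent.H49.Ent.cond F.p A True) (u J F) (fun ω => (z ω, y J F ω)) ≤
        (θ + h + k) * J) := by
  obtain ⟨κ, hκ, hl⟩ := hθ.lrg hpos h hh
  refine Bas.mono 0 hl ?_
  rintro J - F A ⟨V₁, z₁, hz₁, H⟩ k V z hz
  obtain ⟨hA, h1, -⟩ := H A (Lg.refl F hκ.le A)
  have hcl := isLaw_cond F.isLaw hA
  have h2 := hz.2 V₁ z₁ hz₁
  have h7 := CH_le_add hcl.nonneg (u J F) z₁ (fun ω => (z ω, y J F ω))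
  have h8 : CH (Pool.Agent.H49.Ent.cond F.p A True) z₁ (fun ω => (z ω, y J F ω)) ≤
      CH (Pool.Agent.H49.Ent.cond F.p A True) z₁ z :=
    CH_mono_cond hcl.nonneg fun _ _ _ _ hh => (Prod.ext_iff.mp hh).1
  have h9 : CH (Pool.Agent.H49.Ent.cond F.p A True) (u J F)
      (fun ω => (z₁ ω, (z ω, y J F ω))) ≤
      CH (Pool.Agent.H49.Ent.cond F.p A True) (u J F) (fun ω => (z₁ ω, y J F ω)) := by
    refine CH_mono_cond hcl.nonneg fun ω ω' _ _ hh => ?_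
    simp only [Prod.mk.injEq] at hh ⊢
    exact ⟨hh.1, hh.2.2⟩
  linarith

/-- The numbers decrease with the closed functions. -/
theorem cnum_anti (hS : S.Ne) (hpos : ∀ (τ : ℝ) (J : ℕ) (F : Fam m J) (A : F.Ω → Prop),
      S.St τ J F A → 0 < Pe F.p A)
    (hg : ∀ (J : ℕ) (F : Fam m J), ∃ φ : β' J F → β J F, ∀ ω, g J F ω = φ (g' J F ω))
    (hθ : CNum S f g u y θ) (hθ' : CNum S f g' u y θ') : θ' ≤ θ := by
  refine le_of_bas hS fun ε hε => ?_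
  obtain ⟨κ, hκ, hl⟩ := hθ.lrg hpos (ε / 2) (half_pos hε)
  refine Bas.mono 0 (hl.and (hθ'.low hpos (ε / 2) (half_pos hε))) ?_
  rintro J - F A ⟨⟨V₁, z₁, hz₁, H⟩, h2⟩
  obtain ⟨hA, h1, -⟩ := H A (Lg.refl F hκ.le A)
  obtain ⟨φ, hφ⟩ := hg J F
  have h3 := h2 V₁ z₁ (hz₁.mono ⟨fun x => x, fun _ _ => rfl⟩ ⟨φ, fun ω _ => hφ ω⟩)
  linarith

/-- The number is nonnegative. -/
theorem cnum_nonneg (hS : S.Ne) (hpos : ∀ (τ : ℝ) (J : ℕ) (F : Fam m J) (A : F.Ω → Prop),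
      S.St τ J F A → 0 < Pe F.p A) (hθ : CNum S f g u y θ) : 0 ≤ θ := by
  refine le_of_bas hS fun ε hε => ?_
  obtain ⟨κ, hκ, hl⟩ := hθ.lrg hpos ε hε
  refine Bas.mono 0 hl ?_
  rintro J - F A ⟨V₁, z₁, hz₁, H⟩
  obtain ⟨hA, h1, -⟩ := H A (Lg.refl F hκ.le A)
  have h2 := CH_nonneg (isLaw_cond F.isLaw hA).nonneg (u J F) (fun ω => (z₁ ω, y J F ω))
  linarith

/-- The number is at most the count. -/
theorem cnum_le (hS : S.Ne) (hpos : ∀ (τ : ℝ) (J : ℕ) (F : Fam m J) (A : F.Ω → Prop),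
      S.St τ J F A → 0 < Pe F.p A) (hθ : CNum S f g u y θ) {M : ℝ}
    (hM : Bas S (fun J F A => (Pool.S6C.cnt F.p (u J F) A : ℝ) ≤ Real.exp (M * J))) :
    θ ≤ M := by
  refine le_of_bas hS fun ε hε => ?_
  have hpc : Bas S (fun _ F A => 0 < Pe F.p A) := ⟨1, one_pos, 0, fun J _ F A hA =>
    hpos 1 J F A hA⟩
  refine Bas.mono 0 (((hθ.low hpos ε hε).and hM).and hpc) ?_
  rintro J - F A ⟨⟨h1, h2⟩, hA⟩
  have h3 := h1 Unit (fun _ => ()) ⟨⟨fun _ => (), fun _ _ => rfl⟩, fun _ => (), fun _ _ => rfl⟩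
  have h4 := CH_le_cells F.isLaw (u J F) (fun ω => (((), y J F ω) : Unit × _)) hA
    (M := Real.exp (M * J)) (by
      intro v
      refine le_trans ?_ h2
      have h3 : Sub (fun ω => A ω ∧ (((), y J F ω) : Unit × _) = v) A := fun ω hω => hω.1
      exact_mod_cast cnt_mono F.p (u J F) h3)
  rw [Real.log_exp] at h4
  linarith

/-- **Free** from the numbers. -/
theorem cnum_free (hpos : ∀ (τ : ℝ) (J : ℕ) (F : Fam m J) (A : F.Ω → Prop),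
      S.St τ J F A → 0 < Pe F.p A)
    (hθ : CNum S f g u y θ) (hθ' : CNum S f g' u y θ') {κ : ℝ} (hκ : θ - θ' < κ) :
    ∃ k₂ : ℝ, 0 < k₂ ∧ Bas S (fun J F A => ∀ (V : Type) (z : F.Ω → V) (V' : Type)
      (z' : F.Ω → V'), Mx f g k₂ F A z → Mx f g' k₂ F A z' →
      CH (Pool.Agent.H49.Ent.cond F.p A True) (u J F) (fun ω => (z ω, y J F ω)) ≤
        CH (Pool.Agent.H49.Ent.cond F.p A True) (u J F) (fun ω => (z' ω, y J F ω)) + κ * J) := by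
  obtain ⟨h, hh⟩ : ∃ h, h = (κ - (θ - θ')) / 3 := ⟨_, rfl⟩
  have h0 : 0 < h := by rw [hh]; linarith
  refine ⟨h, h0, Bas.mono 0 ((cnum_mx hpos hθ h h0).and (hθ'.low hpos h h0)) ?_⟩
  rintro J - F A ⟨h1, h2⟩ V z V' z' hz hz'
  have a1 := h1 h V z hz
  have a2 := h2 V' z' hz'.1
  have hJ : (0 : ℝ) ≤ J := Nat.cast_nonneg J
  have e1 : κ = θ - θ' + 3 * h := by rw [hh]; ring
  have e2 : (θ + h + h) * J = (θ' - h) * J + κ * J := by rw [e1]; ring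
  linarith

end num

/-- **The numbers of the first digits of the velocities.** -/
theorem fre_num {S : PCl m} (hS : S.Ne)
    (hpos : ∀ (τ : ℝ) (J : ℕ) (F : Fam m J) (A : F.Ω → Prop), S.St τ J F A → 0 < Pe F.p A)
    (s : ℝ) : ∃ S' : PCl m, S'.Ne ∧
      (∀ (τ : ℝ) (J : ℕ) (F : Fam m J) (A : F.Ω → Prop), S'.St τ J F A → S.St τ J F A) ∧
      ∃ θ : Fin m → ℕ → ℚ → ℝ, ∀ (y : Fin m) (k : ℕ) (w : ℚ), CNum S' (fun J F => ptr F J)
        (vg ((w : ℝ) + s)) (fun J F ω => F.D ⌊(1 / 2 : ℝ) ^ k * J⌋₊ ω y) (fun _ F => F.W)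
        (θ y k w) := by
  classical
  rcases isEmpty_or_nonempty (Fin m) with hE | hN
  · exact ⟨S, hS, fun _ _ _ _ h => h, fun y => (hE.false y).elim, fun y => (hE.false y).elim⟩
  obtain ⟨c, hc⟩ := exists_surjective_nat (Fin m × ℕ × ℚ)
  obtain ⟨S', h1, h2, h3⟩ := ext_cnd hS hpos (fun _ _ F => PtT F) (fun _ _ F => LnT F)
    (fun _ _ _ => ℤ) (fun _ _ F => ℕ × F.ζ) (fun _ J F => ptr F J)
    (fun i => vg (((c i).2.2 : ℝ) + s))
    (fun i J F ω => F.D ⌊(1 / 2 : ℝ) ^ (c i).2.1 * J⌋₊ ω (c i).1) (fun _ _ F => F.W)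
    (fun i => 2 * (1 / 2 : ℝ) ^ (c i).2.1)
    (fun i => cnt_vel_bas S (c i).1 (by positivity))
  choose θ hθ using h3
  choose d hd using fun x : Fin m × ℕ × ℚ => hc x
  refine ⟨S', h1, h2, fun y k w => θ (d (y, k, w)), fun y k w => ?_⟩
  have h4 := hθ (d (y, k, w))
  rw [hd (y, k, w)] at h4
  exact h4

/-- **The first digits of the velocity are free at almost every window.** -/
theorem fre_ae {S : PCl m} (hS : S.Ne)
    (hpos : ∀ (τ : ℝ) (J : ℕ) (F : Fam m J) (A : F.Ω → Prop), S.St τ J F A → 0 < Pe F.p A)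
    (s : ℝ) : ∃ S' : PCl m, S'.Ne ∧
      (∀ (τ : ℝ) (J : ℕ) (F : Fam m J) (A : F.Ω → Prop), S'.St τ J F A → S.St τ J F A) ∧
      ∀ᵐ g : ℝ, ∀ e : ℝ, 0 < e → ∃ P : ℚ, 0 < P ∧ ∃ r₀ : ℝ, 0 < r₀ ∧ ∀ r : ℝ, 0 < r → r < r₀ →
        ∀ w l : ℚ, g - r ≤ w → w ≤ l → (l : ℝ) ≤ g + r → ∀ (y : Fin m) (S'' : PCl m),
          (∀ (τ : ℝ) (J : ℕ) (F : Fam m J) (A : F.Ω → Prop), S''.St τ J F A → S'.St τ J F A) →
          FrD S'' y P ((w : ℝ) + s) ((l : ℝ) + s) (e * r) := by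
  obtain ⟨S', h1, h2, θ, hθ⟩ := fre_num hS hpos s
  have hpos' : ∀ (τ : ℝ) (J : ℕ) (F : Fam m J) (A : F.Ω → Prop), S'.St τ J F A → 0 < Pe F.p A :=
    fun τ J F A h => hpos τ J F A (h2 τ J F A h)
  refine ⟨S', h1, h2, ?_⟩
  have hmono : ∀ (y : Fin m) (k : ℕ) (w w' : ℚ), w ≤ w' → θ y k w' ≤ θ y k w := by
    intro y k w w' h
    refine cnum_anti h1 hpos' (fun J F => vg_anti ?_ J F) (hθ y k w) (hθ y k w')
    have : (w : ℝ) ≤ w' := by exact_mod_cast h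
    linarith
  have hle : ∀ (y : Fin m) (k : ℕ) (w : ℚ), θ y k w ≤ 2 * (1 / 2) ^ k := fun y k w =>
    cnum_le h1 hpos' (hθ y k w) (cnt_vel_bas S' y (by positivity))
  have hnn : ∀ (y : Fin m) (k : ℕ) (w : ℚ), 0 ≤ θ y k w := fun y k w =>
    cnum_nonneg h1 hpos' (hθ y k w)
  have key : ∀ (y : Fin m) (n : ℕ), ∀ᵐ g : ℝ, g ∈ Set.Ioo (-(n : ℝ)) n → ∃ r₀ : ℝ, 0 < r₀ ∧
      ∀ ε : ℝ, 0 < ε → ∃ k₀ : ℕ, ∀ k ≥ k₀, ∀ r : ℝ, 0 < r → r < r₀ →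
      ∀ w w' : ℚ, g - r ≤ w → w ≤ w' → (w' : ℝ) ≤ g + r → θ y k w - θ y k w' ≤ ε * r := by
    intro y n
    filter_upwards [unif_rat (fun k w => θ y k w) (A := -(n : ℝ)) (B := n) (c := 2) (by norm_num)
      (fun k w w' _ h _ => ⟨by linarith [hmono y k w w' h], by
        linarith [hle y k w, hnn y k w']⟩)] with g hg hg'
    exact fix_of_unif (hg hg')
  have key2 : ∀ᵐ g : ℝ, ∀ (y : Fin m) (n : ℕ), g ∈ Set.Ioo (-(n : ℝ)) n → ∃ r₀ : ℝ, 0 < r₀ ∧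
      ∀ ε : ℝ, 0 < ε → ∃ k₀ : ℕ, ∀ k ≥ k₀, ∀ r : ℝ, 0 < r → r < r₀ →
      ∀ w w' : ℚ, g - r ≤ w → w ≤ w' → (w' : ℝ) ≤ g + r → θ y k w - θ y k w' ≤ ε * r :=
    ae_all_iff.2 fun y => ae_all_iff.2 fun n => key y n
  filter_upwards [key2] with g hg e he
  obtain ⟨n, hn⟩ := exists_nat_gt |g|
  have hg2 : g ∈ Set.Ioo (-(n : ℝ)) n := ⟨(abs_lt.1 hn).1, (abs_lt.1 hn).2⟩
  choose r₀ hr₀ H using fun y => hg y n hg2
  choose k₀ hk₀ using fun y => H y (e / 2) (half_pos he)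
  obtain ⟨K, hK⟩ : ∃ K : ℕ, ∀ y, k₀ y ≤ K := ⟨Finset.univ.sup k₀, fun y =>
    Finset.le_sup (f := k₀) (mem_univ y)⟩
  obtain ⟨ρ, hρ, hρy⟩ : ∃ ρ : ℝ, 0 < ρ ∧ ∀ y, ρ ≤ r₀ y := by
    rcases isEmpty_or_nonempty (Fin m) with hE | hN
    · exact ⟨1, one_pos, fun y => (hE.false y).elim⟩
    · refine ⟨Finset.univ.inf' Finset.univ_nonempty r₀, ?_, fun i => Finset.inf'_le _ (mem_univ i)⟩
      rw [Finset.lt_inf'_iff]
      exact fun i _ => hr₀ i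
  refine ⟨(1 / 2 : ℚ) ^ K, by positivity, ρ, hρ, fun r hr hrρ w l hw hwl hl y S'' hs => ?_⟩
  refine FrD.sub hs ?_
  have h5 := hk₀ y K (hK y) r hr (hrρ.trans_le (hρy y)) w l hw hwl hl
  obtain ⟨k₂, hk₂, H⟩ := cnum_free hpos' (hθ y K w) (hθ y K l) (κ := e * r) (by
    have : 0 < e * r := mul_pos he hr
    linarith)
  refine ⟨k₂, hk₂, ?_⟩
  have e1 : (((1 / 2 : ℚ) ^ K : ℚ) : ℝ) = (1 / 2 : ℝ) ^ K := by push_cast; rfl
  rw [e1]
  exact H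

end Pool.ONE91
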