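import Pool.Agent.H72.KE.Acf

/-!
# The rate of activity near zero

`act_rate`: an active coordinate (the numbers of activity of a class: `ActM`, `ActB`) has at least
`c x J` bits in its first `x J` digits given the exact point and the time, for all small `x`, for
every `c < al log 2`.
-/

set_option autoImplicit false

namespace Pool.ONE91

open Finset Real MeasureTheory
open Pool.Agent.H49.Ent Pool.Agent.H32.Dense Pool.STK Pool.KA Pool.KSAT Pool.K2S Pool.PB Pool.S6C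
open Pool.GEN Pool.REX Pool.REX83

variable {m : ℕ}

/-- The first digits have the number of activity. -/
theorem actm_first {Na : ℚ → ℚ → ℝ} {al : ℝ} {g₀ : ℝ → ℝ} (hM : ActM Na al g₀) {e : ℝ}
    (he : 0 < e) (he1 : e < 1) {q : ℚ} (hq : 0 < q) (hq1 : (q : ℝ) ≤ g₀ e) :
    (al - e) * (q : ℝ) ≤ Na 0 q := by
  by_contra hcon
  push Not at hcon
  have h1 := hM e he q hq hq1 1
  have h2 : ((range 1).filter fun i : ℕ => Na (i * (q / (1 : ℕ))) ((i + 1) * (q / (1 : ℕ))) <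
      (al - e) * ((q : ℝ) / (1 : ℕ))) = range 1 := by
    refine Finset.filter_true_of_mem fun i hi => ?_
    have h3 : i = 0 := by simpa using hi
    subst h3
    simpa using hcon
  rw [h2] at h1
  simp at h1
  linarith

/-- **The rate of activity near zero.** -/
theorem act_rate {S : PCl m} (hpos : Bas S (fun _ F A => 0 < Pe F.p A)) {y : Fin m}
    {Na : ℚ → ℚ → ℝ} {al : ℝ} {g₀ : ℝ → ℝ} (hg₀ : ∀ e, 0 < e → 0 < g₀ e)
    (hM : ActM Na al g₀) (hB : ActB Na S y) {c : ℝ} (hc0 : 0 < c) (hc : c < al * Real.log 2) :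
    ∃ x₀ : ℝ, 0 < x₀ ∧ ∀ x : ℝ, 0 < x → x ≤ x₀ → Bas S (fun J F A => c * x * J ≤
      CH (Pool.Agent.H49.Ent.cond F.p A True) (fun ω => F.D ⌊x * J⌋₊ ω y) (ptr F J)) := by
  have hl2 : 0 < Real.log 2 := Real.log_pos one_lt_two
  obtain ⟨b, hb⟩ : ∃ b : ℝ, b = c / Real.log 2 := ⟨_, rfl⟩
  have hb0 : 0 < b := by rw [hb]; positivity
  have hbc : b * Real.log 2 = c := by rw [hb]; field_simp
  have hba : b < al := by rw [hb, div_lt_iff₀ hl2]; exact hc
  obtain ⟨e, he⟩ : ∃ e : ℝ, e = min ((al - b) / 4) (1 / 2) := ⟨_, rfl⟩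
  have he0 : 0 < e := by rw [he]; exact lt_min (by linarith) (by norm_num)
  have he1 : e ≤ (al - b) / 4 := by rw [he]; exact min_le_left _ _
  have he2 : e ≤ 1 / 2 := by rw [he]; exact min_le_right _ _
  have h2e : b < al - 2 * e := by linarith
  refine ⟨min (g₀ e) 1, lt_min (hg₀ e he0) one_pos, fun x hx hx1 => ?_⟩
  -- the rational number
  have hlt : b / (al - 2 * e) * x < x := by
    have h1 : b / (al - 2 * e) < 1 := by
      rw [div_lt_one (hb0.trans h2e)]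
      exact h2e
    nlinarith
  obtain ⟨q, hq1, hq2⟩ := exists_rat_btwn hlt
  have hq0 : (0 : ℝ) < q := lt_of_le_of_lt (by
    have h1 : 0 < al - 2 * e := hb0.trans h2e
    positivity) hq1
  have hq0' : (0 : ℚ) < q := by exact_mod_cast hq0
  have hqx : b * x ≤ (al - 2 * e) * q := by
    have h1 : 0 < al - 2 * e := hb0.trans h2e
    rw [div_mul_eq_mul_div, div_lt_iff₀ h1] at hq1
    linarith
  have hN := actm_first hM he0 (by linarith) hq0' (hq2.le.trans (hx1.trans (min_le_left _ _)))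
  have hq3 : q ≤ 1 := by
    have : (q : ℝ) ≤ 1 := hq2.le.trans (hx1.trans (min_le_right _ _))
    exact_mod_cast this
  refine Bas.mono 0 ((hB 0 q le_rfl hq0'.le hq3 (e * q) (by positivity)).and hpos) ?_
  rintro J - F A ⟨h1, h2⟩
  have hJ0 : (0 : ℝ) ≤ J := Nat.cast_nonneg J
  have hnn := (isLaw_cond F.isLaw h2).nonneg
  have h3 : CH (Pool.Agent.H49.Ent.cond F.p A True) (fun ω => F.D ⌊((q : ℚ) : ℝ) * J⌋₊ ω y)
      (fun ω => (F.D ⌊((0 : ℚ) : ℝ) * J⌋₊ ω, (F.X J ω, F.W ω))) ≤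
      CH (Pool.Agent.H49.Ent.cond F.p A True) (fun ω => F.D ⌊((q : ℚ) : ℝ) * J⌋₊ ω y)
        (ptr F J) :=
    CH_mono_cond hnn fun ω ω' _ _ e => (Prod.ext_iff.1 e).2
  have h4 : CH (Pool.Agent.H49.Ent.cond F.p A True) (fun ω => F.D ⌊((q : ℚ) : ℝ) * J⌋₊ ω y)
        (ptr F J) ≤ CH (Pool.Agent.H49.Ent.cond F.p A True) (fun ω => F.D ⌊x * J⌋₊ ω y)
        (ptr F J) := by
    refine CH_mono_left hnn fun ω ω' _ _ e => ?_
    have e1 : F.D ⌊x * J⌋₊ ω y = F.D ⌊x * J⌋₊ ω' y := (Prod.ext_iff.1 e).1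
    have hk : ⌊((q : ℚ) : ℝ) * J⌋₊ ≤ ⌊x * J⌋₊ :=
      Nat.floor_le_floor (mul_le_mul_of_nonneg_right hq2.le (Nat.cast_nonneg J))
    have h5 := Pool.STK.B58.fl_fine (m := 1) (x := fun _ => F.d ω y) (y := fun _ => F.d ω' y) hk
      (by funext i; exact e1)
    exact congrFun h5 0
  refine le_trans ?_ (h1.trans (h3.trans h4))
  have e2 : c * x * J = b * x * (Real.log 2 * J) := by rw [← hbc]; ring
  have e3 : (Na 0 q - e * q) * Real.log 2 * J = (Na 0 q - e * q) * (Real.log 2 * J) := by ring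
  rw [e2, e3]
  exact mul_le_mul_of_nonneg_right (by linarith) (by positivity)

/-- **The rate of activity near zero**, some constant. -/
theorem act_rate' {S : PCl m} (hpos : Bas S (fun _ F A => 0 < Pe F.p A)) {y : Fin m}
    {Na : ℚ → ℚ → ℝ} {al : ℝ} {g₀ : ℝ → ℝ} (hal : 0 < al) (hg₀ : ∀ e, 0 < e → 0 < g₀ e)
    (hM : ActM Na al g₀) (hB : ActB Na S y) :
    ∃ c₀ : ℝ, 0 < c₀ ∧ ∃ x₀ : ℝ, 0 < x₀ ∧ ∀ x : ℝ, 0 < x → x ≤ x₀ →
      Bas S (fun J F A => c₀ * x * J ≤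
        CH (Pool.Agent.H49.Ent.cond F.p A True) (fun ω => F.D ⌊x * J⌋₊ ω y) (ptr F J)) := by
  have hl2 : 0 < Real.log 2 := Real.log_pos one_lt_two
  have h0 : 0 < al * Real.log 2 := by positivity
  exact ⟨al * Real.log 2 / 2, by positivity,
    act_rate hpos hg₀ hM hB (by positivity) (by linarith)⟩

end Pool.ONE91
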