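import Pool.Agent.H91.ONE.Lbs1
import Pool.Agent.H72.KE.Spe

/-!
# The labels of the base and of the target near a window, also for equal slopes

`tgt_exa`: the number of the additional coordinate, from the labels of the target, exact at the
windows where the threshold of the target is continuous. `lab1`: all labels with their exact
precisions. The other proofs are those of helper72 (H72/KE/Lbt, Spe).
-/

set_option autoImplicit false

namespace Pool.ONE91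

open Finset
open Pool.Agent.H49.Ent Pool.Agent.H32.Dense Pool.STK Pool.KA Pool.KSAT Pool.K2S Pool.PB Pool.GEN
open Pool.S6C Pool.GRW Pool.PKG Pool.OWN72
open Pool.TOP (TopS)
open Pool.CHT
open Pool.MIC6 (ActF)
open Pool.LA91 (Ful FulC)
open Pool.EXTC (upI exC)
open Pool.PRV (hasA_dns dsH_zero lc_of)
open Pool.JTN (TgP)

variable {n : ℕ} {hn : 2 ≤ n} {S : PCl n} {P : ℝ → ℝ → ℝ} {rr : ℝ → ℝ}
  {P' : ℕ → List (Fin n) × Fin n → ℝ → ℝ → ℝ} {Λ : Finset (Fin n) → Fin n → ℝ → ℝ → ℝ}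

section law

variable {o : Od n} {c g ρ d : ℝ}

theorem wfa1_of (H : Pk hn S P rr P' Λ) (hTop : TopS n) (hF : FZX (n - 1)) (hn4 : n ≤ 4)
    (h : Nea1 hn P P' (Gs P rr P' Λ o) o c g ρ d) {w : ℝ} (hG : w ∈ Gs P rr P' Λ o)
    (hC : w ∈ Ctw Λ) (hw : |w - g| + 8 / c ^ 2 * d ≤ ρ) : Wfa S Λ (cc hn o.1.1) w := by
  have hd := h.d0
  have hc := h.c0
  obtain ⟨t1, t2, t3, t4, t5, t6⟩ := h.two
  have hκ0 : 0 < 2 / c * d * 3 / c := by positivity
  have e8 : 4 / c * d = 2 * (2 / c * d) := by ring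
  have hκ1 : 0 < 2 / c * d := by positivity
  refine ⟨hG.1.1.1, hG.1.1.2.1, hC, fun h2 => ?_, fun h2 => ?_, fun h2 => ?_, fun h2 => ?_,
    fun h2 => ?_, fun t ht _ => gs_ful H hF hG ht.le⟩
  · have hlo := nea1_lo1 H hTop hF h h2 (w := w) (by linarith)
    have k1 := h.tl_lo (l := 1) le_rfl h2.le (w := w) (by linarith)
    linarith
  · have hup := nea1_up H hTop hF h (l := 1) le_rfl h2 (w := w) (by linarith)
    rw [img_one] at hup
    have k2 := h.tl_hi (l := 1) le_rfl h2.le (w := w) (by linarith)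
    linarith
  · obtain ⟨a₀, a₁, c1, c2, c3, c4⟩ := nea1_gro H hTop hF h (W := w) h2 (by linarith)
    exact ⟨a₀, c1, by linarith, by linarith⟩
  · have e1 := gs_eq H hTop hF hn4 h hG hC hw (l := 1) le_rfl (by omega)
    have e2 := gs_eq H hTop hF hn4 h hG hC hw (l := 2) (by omega) h2
    rw [img_one] at e1
    rw [img_two] at e2
    rw [e1, e2]
    exact gs_srt H hTop hF hG (l := 1) (by omega)
  · have hup := (abs_le.1 (nea1_law H hTop hF hn4 h (l := 2) (by omega) h2 hw)).2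
    rw [img_two] at hup
    have k1 := h.tl_hi (l := 2) (by omega) h2.le (w := w) (by linarith)
    linarith

/-- **All labels near a window**, in a subclass. -/
theorem lab1_ex (H : Pk hn S P rr P' Λ) (hTop : TopS n) (hF : FZX (n - 1)) (hn4 : n ≤ 4)
    {S' : PCl n} (hne : S'.Ne)
    (hsub : ∀ (τ : ℝ) (J : ℕ) (F : Fam n J) (A : F.Ω → Prop), S'.St τ J F A → S.St τ J F A)
    (h : Nea1 hn P P' (Gs P rr P' Λ o) o c g ρ d) {Wd : Set ℝ}
    (hWd : Wd ⊆ Gs P rr P' Λ o ∩ Ctw Λ) (hcn : Wd.Countable)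
    (hball : ∀ w ∈ Wd, |w - g| + 8 / c ^ 2 * d ≤ ρ) {v₀ R : ℝ}
    (hv : |v₀ - g| + 8 / c ^ 2 * d ≤ ρ) (hvR : |v₀ + R - g| + 8 / c ^ 2 * d ≤ ρ)
    (hden : ∀ x y : ℝ, v₀ ≤ x → x + d ≤ y → y ≤ v₀ + R → ∃ a ∈ Wd, x < a ∧ a < y)
    {s : ℝ} (hs : 0 ≤ s) {N : ℝ → ℝ} {LE : Finset (Fin (n + 1)) → Fin (n + 1) → ℝ → ℝ → ℝ}
    (hLE : LamW (exC S' (cc hn o.1.1 (n - 1)) s) LE)
    (hN : ∀ w ∈ Wd, ∀ ε : ℝ, 0 < ε → ∃ W' r' : ℝ, W' < w ∧ r' < 1 ∧
      N w + s ≤ LE (upI (img (cc hn o.1.1) (n - 1))) (Fin.last n) W' r' + ε)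
    {Δ : ℝ} (hΔ : d + 17 / c ^ 2 * d ≤ c * (Δ - d)) :
    ∃ S₁ : PCl n, S₁.Ne ∧
      (∀ (τ : ℝ) (J : ℕ) (F : Fam n J) (A : F.Ω → Prop), S₁.St τ J F A → S'.St τ J F A) ∧
      AfE S₁ Λ (cc hn o.1.1) (n - 1) Wd ∧
      (3 ≤ n - 1 → ∀ w ∈ Wd, HasA S₁ {cc hn o.1.1 0} (cc hn o.1.1 2) w
        (Λ {cc hn o.1.1 0} (cc hn o.1.1 2) w 0)) ∧
      ∀ w ∈ Wd, v₀ ≤ w → w + 2 * Δ ≤ v₀ + R →
        HasB S₁ (img (cc hn o.1.1) (n - 1)) (cc hn o.1.1 (n - 1)) w (N w) s := by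
  have hL' : LamW S' Λ := H.lam.sub hsub
  have htm' : TmC S' 6 := fun τ J F A hτ hA => H.tmc τ J F A hτ (hsub τ J F A hA)
  have hact' : ActF S' (cc hn o.1.1 0) := ActF.subc hsub (gs_act H o)
  have hG : Wd ⊆ Gs P rr P' Λ o := fun w hw => (hWd hw).1
  have hfa : ∀ w ∈ Wd, Wfa S Λ (cc hn o.1.1) w := fun w hw =>
    wfa1_of H hTop hF hn4 h (hWd hw).1 (hWd hw).2 (hball w hw)
  have hne01 : 1 < n - 1 → cc hn o.1.1 0 ≠ cc hn o.1.1 1 := fun h2 h => by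
    have := cc_inj' hn o.1.1 (i := 0) (j := 1) (by omega) (by omega) h
    omega
  have hds : ∀ w ∈ Wd, ∀ v : Fin n, Pool.PRV.DsH Λ (cc hn o.1.1 0) v w
      (Λ {cc hn o.1.1 0} v w 0) := fun w hw v =>
    dsH_zero hL' (hfa w hw).w1.le (lc_of (hfa w hw).w0 ((hfa w hw).ct _ _))
  -- the labels of the base
  obtain ⟨Sa, a1, a2, -, a4, a5, -, -, a8, a9, -⟩ := hasA_dns hne (C₀ := 6) (by norm_num) htm' hL'
    hcn (fun _ : Unit => cc hn o.1.1 (n - 1)) (fun _ => s) (fun _ => hs) (fun _ => LE)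
    (fun _ => hLE)
  have hsuba : ∀ (τ : ℝ) (J : ℕ) (F : Fam n J) (A : F.Ω → Prop), Sa.St τ J F A → S.St τ J F A :=
    fun τ J F A hA => hsub τ J F A (a2 τ J F A hA)
  have hlab : ∀ w ∈ Wd, ∀ l, 1 ≤ l → l < n - 1 → HasA Sa (img (cc hn o.1.1) l)
      (cc hn o.1.1 l) w (Λ (img (cc hn o.1.1) l) (cc hn o.1.1 l) w 0) := by
    intro w hw l h1 h2
    have hf := hfa w hw
    have h3 : l = 1 ∨ l = 2 := by omega
    rcases h3 with rfl | rfl
    · rw [img_one]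
      exact a4 _ _ _ _ hw hact' hf.w0 hf.w1 (hds w hw _)
    · rw [img_two]
      refine a5 _ _ _ _ _ hw hact' (hne01 (by omega)) hf.w0 (hf.ct _ _) (hf.lo (by omega))
        (hf.hi (by omega)) (hf.gr (by omega)) fun ε hε => ?_
      obtain ⟨W', b1, b2, b3⟩ := lc_of hf.w0 (hf.ct {cc hn o.1.1 0, cc hn o.1.1 1}
        (cc hn o.1.1 2)) ε hε
      exact ⟨W', 0, b2, b3⟩
  have haf := afe1_of H hTop hF hn4 h hsuba hWd hball hlab
  have haf2 : 3 ≤ n - 1 → ∀ w ∈ Wd, HasA Sa {cc hn o.1.1 0} (cc hn o.1.1 2) w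
      (Λ {cc hn o.1.1 0} (cc hn o.1.1 2) w 0) := fun _ w hw =>
    a4 _ _ _ _ hw hact' (hfa w hw).w0 (hfa w hw).w1 (hds w hw _)
  have hn3 : n = 2 ∨ n = 3 ∨ n = 4 := by omega
  rcases hn3 with h2 | h2 | h2
  · refine ⟨Sa, a1, a2, haf, haf2, fun w hw _ _ => ?_⟩
    have hf := hfa w hw
    have e1 : img (cc hn o.1.1) (n - 1) = {cc hn o.1.1 0} := by
      exact img_e1 _ (by omega)
    rw [e1] at hN ⊢
    have h3 := a8 () (cc hn o.1.1 0) w (N w + s) hw hact' hf.w0 hf.w1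
      (fun t ht ht1 => (hf.ful t ht ht1).sub hsub) fun ε hε => by
        obtain ⟨W', r', b1, b2, b3⟩ := hN w hw ε hε
        exact ⟨W', r', b1, b3⟩
    rw [add_sub_cancel_right] at h3
    exact h3
  · refine ⟨Sa, a1, a2, haf, haf2, fun w hw _ _ => ?_⟩
    have hf := hfa w hw
    have e1 : img (cc hn o.1.1) (n - 1) = {cc hn o.1.1 0, cc hn o.1.1 1} := by
      exact img_e2 _ (by omega)
    rw [e1] at hN ⊢
    have h3 := a9 () (cc hn o.1.1 0) (cc hn o.1.1 1) w (N w + s) hw hact' (hne01 (by omega))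
      hf.w0 (hf.ct _ _) (hf.lo (by omega)) (hf.hi (by omega)) (hf.gr (by omega)) fun ε hε => by
        obtain ⟨W', r', b1, b2, b3⟩ := hN w hw ε hε
        exact ⟨W', r', b1, b3⟩
    rw [add_sub_cancel_right] at h3
    exact h3
  · have htma : TmC Sa 6 := fun τ J F A hτ hA => H.tmc τ J F A hτ (hsuba τ J F A hA)
    have hLa : LamW Sa Λ := H.lam.sub hsuba
    have hacta : ActF Sa (cc hn o.1.1 0) := ActF.subc hsuba (gs_act H o)
    have hLEa : LamW (exC Sa (cc hn o.1.1 (n - 1)) s) LE :=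
      hLE.sub (Pool.EXTC.exC_mono a2)
    obtain ⟨S₁, b1, b2, -, -, -, -, -, -, -, b10⟩ := hasA_dns a1 (C₀ := 6) (by norm_num) htma hLa
      hcn (fun _ : Unit => cc hn o.1.1 (n - 1)) (fun _ => s) (fun _ => hs) (fun _ => LE)
      (fun _ => hLEa)
    have hd := h.d0
    have hgrf := grf1_of H hTop hF hn4 h hv hvR hden hΔ hd.le
    have hΔ0 : 0 < Δ := by
      have hc := h.c0
      have h3 : 0 < c * (Δ - d) := by
        have : 0 < 17 / c ^ 2 * d := by positivity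
        linarith
      have := pos_of_mul_pos_right h3 hc.le
      linarith
    have hrep : ∀ l, 1 ≤ l → l < n - 1 → ∀ w, v₀ ≤ w → w + 2 * Δ ≤ v₀ + R →
        RepP Sa (cc hn o.1.1 0) (img (cc hn o.1.1) l) (cc hn o.1.1 l) w
          (Λ (img (cc hn o.1.1) l) (cc hn o.1.1 l) w 0) (d / 2) := by
      intro l h3 h4 w h5 h6
      have hl2 : (l : ℝ) ≤ 2 := by
        have : l ≤ 2 := by omega
        exact_mod_cast this
      refine rep_alF htma hLa haf (κ := d / 8) (by linarith) hgrf l h3 h4 w h5 ?_ hΔ0 (d / 2)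
        (by linarith) ?_
      · have : (l : ℝ) * Δ ≤ 2 * Δ := mul_le_mul_of_nonneg_right hl2 hΔ0.le
        linarith
      · have : (l : ℝ) * (d / 8) ≤ 2 * (d / 8) := mul_le_mul_of_nonneg_right hl2 (by linarith)
        linarith
    refine ⟨S₁, b1, fun τ J F A hA => a2 τ J F A (b2 τ J F A hA), ?_, fun h3 w hw =>
      HasA.subc b2 (haf2 h3 w hw), fun w hw h5 h6 => ?_⟩
    · exact haf.subc b2 (ActF.subc b2 hacta)
    have hf := hfa w hw
    have e1 : img (cc hn o.1.1) (n - 1) = {cc hn o.1.1 0, cc hn o.1.1 1, cc hn o.1.1 2} := by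
      exact img_e3 _ (by omega)
    have hA1 := hlab w hw 1 le_rfl (by omega)
    have hA2 := hlab w hw 2 (by omega) (by omega)
    have hR1 := hrep 1 le_rfl (by omega) w h5 h6
    have hR2 := hrep 2 (by omega) (by omega) w h5 h6
    obtain ⟨σ, hσ⟩ : ∃ σ : ℕ → ℝ, σ = fun l => Λ (img (cc hn o.1.1) l) (cc hn o.1.1 l) w 0 :=
      ⟨_, rfl⟩
    have hfc : FulC S (cc hn o.1.1) 1 (n - 1) w σ :=
      gs_fulC1 H hTop hF hn4 h (hWd hw).1 (hWd hw).2 (hball w hw) fun l _ _ => by rw [hσ]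
    have e3 : n - 1 = 3 := by omega
    have hfc3 : FulC S (cc hn o.1.1) 1 3 w σ := by
      have key : ∀ k : ℕ, k = 3 → FulC S (cc hn o.1.1) 1 k w σ →
        FulC S (cc hn o.1.1) 1 3 w σ := by
        rintro k rfl h
        exact h
      exact key _ e3 hfc
    have hs1 : σ 1 = Λ {cc hn o.1.1 0} (cc hn o.1.1 1) w 0 := by rw [hσ, ← img_one]
    have hs2 : σ 2 = Λ {cc hn o.1.1 0, cc hn o.1.1 1} (cc hn o.1.1 2) w 0 := by
      rw [hσ, ← img_two]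
    rw [img_one] at hA1 hR1
    rw [img_two] at hA2 hR2
    rw [e1] at hN ⊢
    have hinj : Set.InjOn (cc hn o.1.1) (Set.Iio 3) := (cc_inj3 (hn := hn) o).mono fun x hx => by
      rw [Set.mem_Iio] at hx ⊢
      omega
    have h3 := b10 () (cc hn o.1.1) w (N w + s) σ (d / 2) hw hinj hacta hf.w0 (hf.ct _ _)
      (hf.lo (by omega)) (hf.srt (by omega)) (hf.hi2 (by omega)) hs1 hs2
      (fun t ht ht1 => (hf.ful t ht ht1).sub hsuba) (hfc3.sub hsuba) hA1 hA2 (by linarith) hR1 hR2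
      (hN w hw)
    rw [add_sub_cancel_right] at h3
    exact h3

/-- **The number of the additional coordinate**, exact at a window where the threshold of the target
is continuous. -/
theorem tgt_exa (H : Pk hn S P rr P' Λ) {S' : PCl n} (hne : S'.Ne)
    (hsub : ∀ (τ : ℝ) (J : ℕ) (F : Fam n J) (A : F.Ω → Prop), S'.St τ J F A → S.St τ J F A)
    {b sg s : ℝ} (hsg : sg < 1)
    (hT : ∀ w : ℝ, 0 < w → w ≤ b → w ∈ Wgc P' o.2 →
      TgP S (cc hn o.1.1) (n - 1) (P w w) w w sg)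
    {LE : Finset (Fin (n + 1)) → Fin (n + 1) → ℝ → ℝ → ℝ}
    (hL : LamW (exC S' (cc hn o.1.1 (n - 1)) s) LE) {w : ℝ} (hw0 : 0 < w) (hw1 : w < 1)
    (hwb : w ≤ b) (hcont : ContinuousAt (dgP P) w) (hwP : w < P w w + s) (hs : sg < P w w + s)
    (hs1 : P w w + s ≤ 1) {ε : ℝ} (hε : 0 < ε) :
    ∃ W' r' : ℝ, W' < w ∧ r' < 1 ∧ P w w + s ≤
      LE (upI (img (cc hn o.1.1) (n - 1))) (Fin.last n) W' r' + ε := by
  obtain ⟨η, hη⟩ : ∃ η : ℝ, η = min ε (min (P w w + s - sg) (P w w + s - w)) := ⟨_, rfl⟩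
  have hη0 : 0 < η := by
    rw [hη]
    exact lt_min hε (lt_min (by linarith) (by linarith))
  have hη1 : η ≤ ε := by rw [hη]; exact min_le_left _ _
  have hη2 : η ≤ P w w + s - sg := by
    rw [hη]; exact (min_le_right _ _).trans (min_le_left _ _)
  have hη3 : η ≤ P w w + s - w := by
    rw [hη]; exact (min_le_right _ _).trans (min_le_right _ _)
  obtain ⟨w₀, h1, h2, h3⟩ := lc_of hw0 hcont η hη0
  obtain ⟨v, hv, hv1', hv2⟩ := H.wgc_den o.2 ((w₀ + w) / 2) w (by linarith) (by linarith) hw1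
  have hv1 : w₀ < v := by linarith
  have hv0 : 0 < v := by linarith
  have hvg : v < 1 := hv2.trans hw1
  have hmono := dgP_mono (H.tgs.law ())
  have e1 : dgP P w = P w w := dgP_eq P hw0.le hw1.le
  have e2 : dgP P v = P v v := dgP_eq P hv0.le hvg.le
  have h4 : P w w - η ≤ P v v := by
    have h5 := hmono hv1.le
    rw [← e1, ← e2]
    linarith
  have h5 : P v v ≤ P w w := by
    rw [← e1, ← e2]
    exact hmono hv2.le
  obtain ⟨r', hr'⟩ : ∃ r' : ℝ, r' = (1 + max sg v) / 2 := ⟨_, rfl⟩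
  have hm : max sg v < 1 := max_lt hsg hvg
  have hm1 : sg ≤ max sg v := le_max_left _ _
  have hm2 : v ≤ max sg v := le_max_right _ _
  have key := Pool.EXT96.num_tgr hne (C₀ := 6)
    (fun τ J F A hτ hA => H.tmc τ J F A hτ (hsub τ J F A hA)) (c := cc hn o.1.1) (r := n - 1)
    (P₀ := P v v) (w := v) (sg := sg) (s := s) (W := (v + w) / 2) (r' := r') (L := LE)
    (by
      intro x hx y hy hxy
      rw [Set.mem_Iio] at hx hy
      exact cc_inj' hn o.1.1 (i := x) (j := y) (by omega) (by omega) hxy)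
    (tgP_sub hsub (hT v hv0 (by linarith) hv)) hL hsg (by linarith) (by linarith) hv0.le
    (by linarith) (by linarith) (by linarith) (by linarith) (by linarith)
  refine ⟨(v + w) / 2, r', by linarith, by linarith, ?_⟩
  have key' : P v v + s ≤ LE (upI (img (cc hn o.1.1) (n - 1))) (Fin.last n) ((v + w) / 2) r' :=
    key
  linarith

end law

section four

variable {hn : 2 ≤ 4} {S : PCl 4} {P : ℝ → ℝ → ℝ} {rr : ℝ → ℝ}
  {P' : ℕ → List (Fin 4) × Fin 4 → ℝ → ℝ → ℝ} {Λ : Finset (Fin 4) → Fin 4 → ℝ → ℝ → ℝ}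
  {o : Od 4} {c g ρ d : ℝ}

/-- **All labels near a window, with their exact precisions**, in a subclass; four coordinates. -/
theorem lab1 (H : Pk hn S P rr P' Λ) (hTop : TopS 4) (hF : FZX 3) {S' : PCl 4} (hne : S'.Ne)
    (hsub : ∀ (τ : ℝ) (J : ℕ) (F : Fam 4 J) (A : F.Ω → Prop), S'.St τ J F A → S.St τ J F A)
    (h : Nea1 hn P P' (Gs P rr P' Λ o ∩ Ctw Λ) o c g ρ d) {Wd : Set ℝ}
    (hWd : Wd ⊆ Gs P rr P' Λ o ∩ Ctw Λ) (hcn : Wd.Countable)
    (hball : ∀ w ∈ Wd, |w - g| + 8 / c ^ 2 * d ≤ ρ) {v₀ R : ℝ}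
    (hv : |v₀ - g| + 8 / c ^ 2 * d ≤ ρ) (hvR : |v₀ + R - g| + 8 / c ^ 2 * d ≤ ρ)
    (hden : ∀ x y : ℝ, v₀ ≤ x → x + d ≤ y → y ≤ v₀ + R → ∃ a ∈ Wd, x < a ∧ a < y)
    {sg s Δ : ℝ} (hsg : sg < 1) (hs : 0 ≤ s)
    (hT : ∀ w : ℝ, 0 < w → w ≤ g + c → w ∈ Wgc P' o.2 →
      TgP S (cc hn o.1.1) 3 (P w w) w w sg)
    (hs1 : ∀ w ∈ Wd, sg < P w w + s) (hs2 : ∀ w ∈ Wd, P w w + s ≤ 1)
    (hΔ : d + 17 / c ^ 2 * d ≤ c * (Δ - d)) :
    ∃ S₁ : PCl 4, S₁.Ne ∧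
      (∀ (τ : ℝ) (J : ℕ) (F : Fam 4 J) (A : F.Ω → Prop), S₁.St τ J F A → S'.St τ J F A) ∧
      ∀ w ∈ Wd, dgN hn P P' o 1 w ≤ dgN hn P P' o 2 w ∧
        HasA S₁ {cc hn o.1.1 0} (cc hn o.1.1 1) w (dgN hn P P' o 1 w) ∧
        HasA S₁ {cc hn o.1.1 0, cc hn o.1.1 1} (cc hn o.1.1 2) w (dgN hn P P' o 2 w) ∧
        CfP S₁ {cc hn o.1.1 0} w 0 ∧
        CfP S₁ {cc hn o.1.1 0, cc hn o.1.1 1} w (dgN hn P P' o 1 w - w) ∧
        CfP S₁ {cc hn o.1.1 0, cc hn o.1.1 1, cc hn o.1.1 2} w (dgN hn P P' o 2 w - w) ∧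
        (v₀ ≤ w → w + 2 * Δ ≤ v₀ + R →
          HasB S₁ {cc hn o.1.1 0, cc hn o.1.1 1, cc hn o.1.1 2} (cc hn o.1.1 3) w (P w w) s) := by
  have h' : Nea1 hn P P' (Gs P rr P' Λ o) o c g ρ d := h.big Set.inter_subset_left
  have hd := h.d0
  have hc := h.c0
  obtain ⟨t1, t2, t3, t4, t5, t6⟩ := h'.two
  have hdc : 0 < d / c := by positivity
  have hd8 : d ≤ c / 8 := by
    have : 2 / c * d = 2 * (d / c) := by ring
    linarith
  have hκ0 : 0 < 8 / c ^ 2 * d := by positivity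
  have hρ := h.ρc
  have hc2 : c ^ 2 ≤ c := by nlinarith [h.c1]
  obtain ⟨S₀, LE, a1, a2, -, a4, -⟩ := Pool.EXTC.lamW_ex (cc hn o.1.1 3) s hne
    (H.lam.sub hsub)
  have hsub0 : ∀ (τ : ℝ) (J : ℕ) (F : Fam 4 J) (A : F.Ω → Prop), S₀.St τ J F A →
      S.St τ J F A := fun τ J F A hA => hsub τ J F A (a2 τ J F A hA)
  obtain ⟨S₁, b1, b2, b3, -, b5⟩ := lab1_ex H hTop hF le_rfl a1 hsub0 h' hWd hcn hball
    (v₀ := v₀) (R := R) hv hvR hden hs (N := fun w => P w w) a4 (fun w hw ε hε => by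
      have hb := hball w hw
      have hwg : |w - g| ≤ ρ := by linarith
      obtain ⟨g1, g2⟩ := abs_le.1 hwg
      have hG := (hWd hw).1
      have h1 := h.lin 3 le_rfl w hwg
      rw [show dgN hn P P' o 3 w = P w w from dgN_tar o w] at h1
      have h2 := abs_le.1 h1
      have h3 := h'.tl_lo (l := 3) (by norm_num) le_rfl hwg
      exact tgt_exa H a1 hsub0 (b := g + c) hsg hT a4 hG.1.1.1 hG.1.1.2.1 (by linarith) hG.2.2
        (by linarith) (hs1 w hw) (hs2 w hw) hε) hΔ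
  have htm : TmC S₁ 6 := fun τ J F A hτ hA => H.tmc τ J F A hτ (hsub0 τ J F A (b2 τ J F A hA))
  have hL : LamW S₁ Λ := H.lam.sub fun τ J F A hA => hsub0 τ J F A (b2 τ J F A hA)
  refine ⟨S₁, b1, fun τ J F A hA => a2 τ J F A (b2 τ J F A hA), fun w hw => ?_⟩
  have e1 := gs_eq H hTop hF le_rfl h' (hWd hw).1 (hWd hw).2 (hball w hw) (l := 1) le_rfl
    (by norm_num)
  have e2 := gs_eq H hTop hF le_rfl h' (hWd hw).1 (hWd hw).2 (hball w hw) (l := 2) (by norm_num)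
    (by norm_num)
  have l1 := b3.lab w hw 1 le_rfl (by norm_num)
  have l2 := b3.lab w hw 2 (by norm_num) (by norm_num)
  rw [e1, img_one] at l1
  rw [e2, img_two] at l2
  have c1 := cf_alE htm hL b3 hw 1 le_rfl (by norm_num)
  have c2 := cf_alE htm hL b3 hw 2 (by norm_num) (by norm_num)
  have c3 := cf_alE htm hL b3 hw 3 (by norm_num) (by norm_num)
  have x1 : Xc Λ (cc hn o.1.1) w 1 = 0 := by
    unfold Xc
    rw [if_pos le_rfl]
  have x2 : Xc Λ (cc hn o.1.1) w 2 = dgN hn P P' o 1 w - w := by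
    unfold Xc
    rw [if_neg (by norm_num), show 2 - 1 = 1 from rfl, e1]
  have x3 : Xc Λ (cc hn o.1.1) w 3 = dgN hn P P' o 2 w - w := by
    unfold Xc
    rw [if_neg (by norm_num), show 3 - 1 = 2 from rfl, e2]
  rw [x1, img_one] at c1
  rw [x2, img_two] at c2
  rw [x3, img_three] at c3
  refine ⟨gs_srt H hTop hF (hWd hw).1 (l := 1) (by norm_num), l1, l2, c1, c2, c3,
    fun h5 h6 => ?_⟩
  have h7 : HasB S₁ (img (cc hn o.1.1) 3) (cc hn o.1.1 3) w (P w w) s := b5 w hw h5 h6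
  rwa [img_three] at h7

end four

end Pool.ONE91
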