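import Pool.Agent.H91.ONE.Lad1
import Pool.Agent.H27.TOP.Rt

/-!
# The thresholds of the modified target from below

`BxN`: a chain with a target near a window: the diagonals are linear up to `e |w - g|`, the windows
with labels are dense. `ldr_ex`: ladders of windows. `v_lad`: the labels of `v` with the fixed slope
over `u`. `t_low`: the thresholds `N` of the modified target from below.
-/

set_option autoImplicit false

namespace Pool.ONE91

open Finset Real
open Pool.Agent.H49.Ent Pool.Agent.H32.Dense Pool.STK Pool.KA Pool.KSAT Pool.K2S Pool.PB Pool.S6C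
open Pool.GEN Pool.OWN72 Pool.ONE72

variable {m : ℕ}

/-- **A chain with a target near a window**; `u`, `v` have the same slope. -/
structure BxN (S : PCl m) (y u v t : Fin m) (Wd : Set ℝ) (d1 d2 d3 : ℝ → ℝ)
    (g ρ₀ e Sl σ E : ℝ) : Prop where
  lin1 : ∀ w, |w - g| ≤ ρ₀ → |d1 w - d1 g - Sl * (w - g)| ≤ e * |w - g|
  lin2 : ∀ w, |w - g| ≤ ρ₀ → |d2 w - d2 g - Sl * (w - g)| ≤ e * |w - g|
  lin3 : ∀ w, |w - g| ≤ ρ₀ → |d3 w - d3 g - σ * (w - g)| ≤ e * |w - g|
  den : ∀ x z, |x - g| ≤ ρ₀ → |z - g| ≤ ρ₀ → x < z → e * max |x - g| |z - g| ≤ z - x →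
    ∃ a ∈ Wd, x < a ∧ a < z
  labu : ∀ w ∈ Wd, |w - g| ≤ ρ₀ → HasA S {y} u w (d1 w)
  labv : ∀ w ∈ Wd, |w - g| ≤ ρ₀ → HasA S {y, u} v w (d2 w)
  labt : ∀ w ∈ Wd, |w - g| ≤ ρ₀ → HasB S {y, u, v} t w (d3 w) E
  cfu : ∀ w ∈ Wd, |w - g| ≤ ρ₀ → CfP S {y, u} w (d1 w - w)
  cfv : ∀ w ∈ Wd, |w - g| ≤ ρ₀ → CfP S {y, u, v} w (d2 w - w)
  low : ∀ w, |w - g| ≤ ρ₀ → w ≤ d1 w ∧ d1 w ≤ d2 w ∧ w < d3 w ∧ d3 w ≤ 1
  pos : 0 < g - ρ₀
  one : g + ρ₀ ≤ 1

theorem BxN.subc {S S' : PCl m} {y u v t : Fin m} {Wd : Set ℝ} {d1 d2 d3 : ℝ → ℝ}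
    {g ρ₀ e Sl σ E : ℝ} (h : BxN S y u v t Wd d1 d2 d3 g ρ₀ e Sl σ E)
    (hs : ∀ (τ : ℝ) (J : ℕ) (F : Fam m J) (A : F.Ω → Prop), S'.St τ J F A → S.St τ J F A) :
    BxN S' y u v t Wd d1 d2 d3 g ρ₀ e Sl σ E where
  lin1 := h.lin1
  lin2 := h.lin2
  lin3 := h.lin3
  den := h.den
  labu w hw hb := (h.labu w hw hb).subc hs
  labv w hw hb := (h.labv w hw hb).subc hs
  labt w hw hb := (h.labt w hw hb).subc hs
  cfu w hw hb := fun s h' hs' hh => (h.cfu w hw hb s h' hs' hh).sub hs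
  cfv w hw hb := fun s h' hs' hh => (h.cfv w hw hb s h' hs' hh).sub hs
  low := h.low
  pos := h.pos
  one := h.one

/-- **The small numbers.** -/
structure Cst (ε K₀ Sl σ e' e : ℝ) : Prop where
  he : 0 < e
  he' : 0 < e'
  h1 : e' ≤ 1 / 2
  k1 : 2 * Sl * e' + 8 * e ≤ (Sl - σ) / 2
  k2 : 2 * Sl * e' + 16 * K₀ * e ≤ ε / 2
  k3 : 8 * K₀ * e ≤ (σ - 1) * e'
  k4 : 4 * K₀ * e ≤ e'
  k5 : 3 * K₀ * Sl * e' + 8 * K₀ * e ≤ ε / 2

theorem Cst.antiK {ε K₀ K₁ Sl σ e' e : ℝ} (h : Cst ε K₁ Sl σ e' e) (hSl : 0 ≤ Sl)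
    (hK : K₀ ≤ K₁) : Cst ε K₀ Sl σ e' e := by
  obtain ⟨he, he', h1, k1, k2, k3, k4, k5⟩ := h
  have q1 : K₀ * e ≤ K₁ * e := mul_le_mul_of_nonneg_right hK he.le
  have q2 : K₀ * (Sl * e') ≤ K₁ * (Sl * e') := mul_le_mul_of_nonneg_right hK (by positivity)
  exact ⟨he, he', h1, k1, by nlinarith, by nlinarith, by nlinarith, by nlinarith⟩

/-- The small numbers exist; every smaller `e` will do. -/
theorem cst_ex {ε K₀ Sl σ : ℝ} (hε : 0 < ε) (hK₀ : 1 ≤ K₀) (hσ : 1 < σ) (hSl : σ < Sl) :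
    ∃ e' e₁ : ℝ, 0 < e₁ ∧ ∀ e : ℝ, 0 < e → e ≤ e₁ → Cst ε K₀ Sl σ e' e := by
  have hSl0 : 0 < Sl := by linarith
  have hK0 : 0 < K₀ := by linarith
  obtain ⟨e', he'⟩ : ∃ e', e' = min (1 / 2) (min ((Sl - σ) / (8 * Sl)) (ε / (16 * Sl * K₀))) :=
    ⟨_, rfl⟩
  have e0 : 0 < e' := by
    rw [he']
    refine lt_min (by norm_num) (lt_min (div_pos (by linarith) (by positivity)) (by positivity))
  have a1 : e' ≤ 1 / 2 := by rw [he']; exact min_le_left _ _
  have a2 : e' * (8 * Sl) ≤ Sl - σ := by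
    have : e' ≤ (Sl - σ) / (8 * Sl) := by
      rw [he']; exact (min_le_right _ _).trans (min_le_left _ _)
    rwa [le_div_iff₀ (by positivity)] at this
  have a3 : e' * (16 * Sl * K₀) ≤ ε := by
    have : e' ≤ ε / (16 * Sl * K₀) := by
      rw [he']; exact (min_le_right _ _).trans (min_le_right _ _)
    rwa [le_div_iff₀ (by positivity)] at this
  obtain ⟨e₁, he₁⟩ : ∃ e₁, e₁ = min (e' * (σ - 1) / (8 * K₀)) (min (e' / (4 * K₀))
    (min ((Sl - σ) / 64) (ε / (64 * K₀)))) := ⟨_, rfl⟩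
  have e10 : 0 < e₁ := by
    rw [he₁]
    refine lt_min (div_pos (mul_pos e0 (by linarith)) (by positivity)) (lt_min (by positivity)
      (lt_min (by linarith) (by positivity)))
  refine ⟨e', e₁, e10, fun e h0 h1 => ?_⟩
  have b1 : e * (8 * K₀) ≤ e' * (σ - 1) := by
    have : e ≤ e' * (σ - 1) / (8 * K₀) := h1.trans (by rw [he₁]; exact min_le_left _ _)
    rwa [le_div_iff₀ (by positivity)] at this
  have b2 : e * (4 * K₀) ≤ e' := by
    have : e ≤ e' / (4 * K₀) := h1.trans (by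
      rw [he₁]; exact (min_le_right _ _).trans (min_le_left _ _))
    rwa [le_div_iff₀ (by positivity)] at this
  have b3 : e ≤ (Sl - σ) / 64 := h1.trans (by
      rw [he₁]; exact (min_le_right _ _).trans ((min_le_right _ _).trans (min_le_left _ _)))
  have b4 : e * (64 * K₀) ≤ ε := by
    have : e ≤ ε / (64 * K₀) := h1.trans (by
      rw [he₁]; exact (min_le_right _ _).trans ((min_le_right _ _).trans (min_le_right _ _)))
    rwa [le_div_iff₀ (by positivity)] at this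
  have c1 : e' * Sl ≤ e' * (Sl * K₀) := by
    refine mul_le_mul_of_nonneg_left ?_ e0.le
    nlinarith
  refine ⟨h0, e0, a1, by nlinarith, by nlinarith, by nlinarith, by nlinarith, by nlinarith⟩

/-- **Ladders of windows.** -/
theorem ldr_ex {Wd : Set ℝ} {g ρ₀ e e' K₀ r b : ℝ}
    (hden : ∀ x z, |x - g| ≤ ρ₀ → |z - g| ≤ ρ₀ → x < z → e * max |x - g| |z - g| ≤ z - x →
      ∃ a ∈ Wd, x < a ∧ a < z)
    (he : 0 < e) (he' : 0 < e') (hK : 4 * K₀ * e ≤ e') (hK₀ : 1 ≤ K₀) (hr : 0 < r)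
    (hb : b ∈ Wd) (hbg : |b - g| ≤ K₀ * r) (hbρ : |b - g| ≤ ρ₀) :
    ∀ (n : ℕ) (a : ℝ), a ∈ Wd → a < b → |a - g| ≤ ρ₀ → b - a ≤ n * (e' * r / 4) →
      e' * (b - a + r) / 2 ≤ b - a → ∃ (K : ℕ) (x : ℕ → ℝ), 1 ≤ K ∧ x 0 = a ∧ x K = b ∧
        (∀ j ≤ K, x j ∈ Wd ∧ a ≤ x j ∧ x j ≤ b) ∧
        ∀ j < K, e' * (b - x j + r) / 4 ≤ x (j + 1) - x j ∧
          x (j + 1) - x j ≤ e' * (b - x j + r) := by
  intro n
  induction n with
  | zero =>
    intro a _ hab _ hn _
    rw [Nat.cast_zero, zero_mul] at hn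
    linarith
  | succ n ih =>
    intro a ha hab haρ hn hD
    obtain ⟨D, hDd⟩ : ∃ D, D = b - a := ⟨_, rfl⟩
    rw [← hDd] at hn hD
    have hD0 : 0 < D := by rw [hDd]; linarith
    have hDr : 0 < D + r := by linarith
    by_cases hj : D ≤ e' * (D + r)
    · refine ⟨1, fun j => if j = 0 then a else b, le_rfl, rfl, rfl, fun j hj1 => ?_,
        fun j hj1 => ?_⟩
      · rcases (by omega : j = 0 ∨ j = 1) with rfl | rfl
        · exact ⟨ha, le_rfl, hab.le⟩
        · exact ⟨hb, hab.le, le_rfl⟩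
      · have : j = 0 := by omega
        subst this
        show e' * (b - a + r) / 4 ≤ b - a ∧ b - a ≤ e' * (b - a + r)
        rw [← hDd]
        have : 0 < e' * (D + r) := by positivity
        exact ⟨by linarith, hj⟩
    · push Not at hj
      have hp : 0 < e' * (D + r) := by positivity
      have hpr : 0 < e' * r := by positivity
      have e1 : e' * (D + r) = e' * D + e' * r := by ring
      have he'D : 0 < e' * D := by positivity
      obtain ⟨x1, hx1, h1, h2⟩ : ∃ x1 ∈ Wd, a + e' * (D + r) / 4 < x1 ∧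
          x1 < a + e' * (D + r) / 2 := by
        have hcv : ∀ z, a ≤ z → z ≤ b → |z - g| ≤ ρ₀ := by
          intro z hz1 hz2
          obtain ⟨u1, u2⟩ := abs_le.1 haρ
          obtain ⟨u3, u4⟩ := abs_le.1 hbρ
          rw [abs_le]
          constructor <;> linarith
        have hcv2 : ∀ z, a ≤ z → z ≤ b → |z - g| ≤ K₀ * (D + r) := by
          intro z hz1 hz2
          obtain ⟨u3, u4⟩ := abs_le.1 hbg
          have hKD : D ≤ K₀ * D := by nlinarith
          have e2 : K₀ * (D + r) = K₀ * D + K₀ * r := by ring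
          rw [abs_le]
          constructor <;> linarith
        refine hden _ _ (hcv _ (by linarith) (by linarith)) (hcv _ (by linarith) (by linarith))
          (by linarith) ?_
        have h3 : max |a + e' * (D + r) / 4 - g| |a + e' * (D + r) / 2 - g| ≤ K₀ * (D + r) :=
          max_le (hcv2 _ (by linarith) (by linarith)) (hcv2 _ (by linarith) (by linarith))
        have h4 := mul_le_mul_of_nonneg_left h3 he.le
        have h5 := mul_le_mul_of_nonneg_right hK hDr.le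
        have e3 : 4 * K₀ * e * (D + r) = 4 * (e * (K₀ * (D + r))) := by ring
        linarith
      have hx1b : x1 < b := by linarith
      obtain ⟨K, x, q1, q2, q3, q4, q5⟩ := ih x1 hx1 hx1b (by
        obtain ⟨u1, u2⟩ := abs_le.1 haρ
        obtain ⟨u3, u4⟩ := abs_le.1 hbρ
        rw [abs_le]
        constructor <;> linarith) (by
        push_cast at hn
        linarith) (by
        have h3 : b - x1 + r ≤ D + r := by linarith
        have h4 := mul_le_mul_of_nonneg_left h3 he'.le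
        linarith)
      refine ⟨K + 1, fun j => Nat.casesOn j a x, by omega, rfl, q3, fun j hj1 => ?_,
        fun j hj1 => ?_⟩
      · rcases j with _ | j
        · exact ⟨ha, le_rfl, hab.le⟩
        · obtain ⟨r1, r2, r3⟩ := q4 j (by omega)
          exact ⟨r1, by show a ≤ x j; linarith, r3⟩
      · rcases j with _ | j
        · show e' * (b - a + r) / 4 ≤ x 0 - a ∧ x 0 - a ≤ e' * (b - a + r)
          rw [q2, ← hDd]
          constructor <;> linarith
        · exact q5 j (by omega)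

/-! ### Comparison of numbers -/

theorem ld_cmp {F H : ℝ → ℝ} {sF sH g e x x1 b : ℝ}
    (hx : |F x - F g - sF * (x - g)| ≤ e * |x - g|)
    (hb : |F b - F g - sF * (b - g)| ≤ e * |b - g|)
    (h1 : |H x1 - H g - sH * (x1 - g)| ≤ e * |x1 - g|)
    (hb' : |H b - H g - sH * (b - g)| ≤ e * |b - g|) :
    (F b - b) + (sH - sF) * (b - x) - (sH - 1) * (x1 - x) -
      (e * |x - g| + e * |x1 - g| + 2 * (e * |b - g|)) ≤
      (F x - x) - (H x1 - x1) + (H b - b) := by
  have a1 := (abs_le.1 hx).1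
  have a2 := (abs_le.1 hb).2
  have a3 := (abs_le.1 h1).2
  have a4 := (abs_le.1 hb').1
  have e1 : (sH - sF) * (b - x) - (sH - 1) * (x1 - x) =
    sF * (x - g) - sF * (b - g) - sH * (x1 - g) + sH * (b - g) + x1 - x := by ring
  linarith

theorem ld_mon {F : ℝ → ℝ} {s g e x x1 : ℝ} (hx : |F x - F g - s * (x - g)| ≤ e * |x - g|)
    (h1 : |F x1 - F g - s * (x1 - g)| ≤ e * |x1 - g|) :
    (F x - x) + (s - 1) * (x1 - x) - (e * |x - g| + e * |x1 - g|) ≤ F x1 - x1 := by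
  have a1 := (abs_le.1 hx).2
  have a3 := (abs_le.1 h1).1
  have e1 : (s - 1) * (x1 - x) = s * (x1 - g) - s * (x - g) - x1 + x := by ring
  linarith

/-- The numbers of a step. -/
theorem st_num {ε K₀ Sl σ e' e r D s X X1 B : ℝ} (hC : Cst ε K₀ Sl σ e' e) (hK₀ : 1 ≤ K₀)
    (hσ : 1 < σ) (hSl : σ < Sl) (hr : 0 < r) (hD : 0 ≤ D) (hs1 : e' * (D + r) / 4 ≤ s)
    (hs2 : s ≤ e' * (D + r)) (hX : X ≤ D + K₀ * r) (hX1 : X1 ≤ D + K₀ * r)
    (hB : B ≤ K₀ * r) :
    (Sl - 1) * s + (e * X + e * X1 + 2 * (e * B)) ≤ (Sl - σ) * D / 4 + ε / 4 * r ∧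
      e * X + e * X1 ≤ (σ - 1) * s ∧ e * X + e * X1 ≤ (Sl - 1) * s := by
  obtain ⟨he, he', h1, k1, k2, k3, k4, k5⟩ := hC
  have hSl0 : 0 < Sl := by linarith
  have hs0 : 0 ≤ s := by
    have : 0 ≤ e' * (D + r) / 4 := by positivity
    linarith
  have a1 : e * X ≤ e * (D + K₀ * r) := mul_le_mul_of_nonneg_left hX he.le
  have a2 : e * X1 ≤ e * (D + K₀ * r) := mul_le_mul_of_nonneg_left hX1 he.le
  have a3 : e * B ≤ e * (K₀ * r) := mul_le_mul_of_nonneg_left hB he.le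
  have a4 : (Sl - 1) * s ≤ Sl * (e' * (D + r)) := by
    have q1 : (Sl - 1) * s ≤ Sl * s := mul_le_mul_of_nonneg_right (by linarith) hs0
    exact q1.trans (mul_le_mul_of_nonneg_left hs2 hSl0.le)
  have b1 := mul_le_mul_of_nonneg_right k1 hD
  have b2 := mul_le_mul_of_nonneg_right k2 hr.le
  have e1 : Sl * (e' * (D + r)) = Sl * e' * D + Sl * e' * r := by ring
  have e2 : e * (D + K₀ * r) = e * D + K₀ * e * r := by ring
  have e3 : e * (K₀ * r) = K₀ * e * r := by ring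
  have e4 : (2 * Sl * e' + 8 * e) * D = 2 * (Sl * e' * D) + 8 * (e * D) := by ring
  have e5 : (2 * Sl * e' + 16 * K₀ * e) * r = 2 * (Sl * e' * r) + 16 * (K₀ * e * r) := by ring
  have e6 : (Sl - σ) / 2 * D = (Sl - σ) * D / 2 := by ring
  have p1 : 0 ≤ e * D := by positivity
  have p2 : 0 ≤ K₀ * e * r := by positivity
  have key : e * X + e * X1 ≤ (σ - 1) * s := by
    have c1 : (σ - 1) * (e' * (D + r) / 4) ≤ (σ - 1) * s :=
      mul_le_mul_of_nonneg_left hs1 (by linarith)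
    have c2 := mul_le_mul_of_nonneg_right k3 (show 0 ≤ D + r by linarith)
    have e7 : 8 * K₀ * e * (D + r) = 8 * (K₀ * e * D) + 8 * (K₀ * e * r) := by ring
    have e8 : (σ - 1) * (e' * (D + r) / 4) = (σ - 1) * e' * (D + r) / 4 := by ring
    have c3 : e * D ≤ K₀ * e * D := by
      have : 0 ≤ (K₀ - 1) * (e * D) := mul_nonneg (by linarith) p1
      nlinarith
    linarith
  refine ⟨by linarith, key, ?_⟩
  have c4 : (σ - 1) * s ≤ (Sl - 1) * s := mul_le_mul_of_nonneg_right (by linarith) hs0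
  linarith

/-! ### The threshold from below -/

/-- **A number from below**, from labels on large sub-events. -/
theorem num_lo91 {S : PCl m} (hS : S.Ne) {y : Fin m} {g : ∀ (J : ℕ) (F : Fam m J), F.Ω → ℝ}
    {A B : ℝ} {N : ℚ → ℝ} (hN : MNum S y g A B N) {w : ℚ} (hAw : A < w) (hwB : (w : ℝ) < B)
    (hw1 : (w : ℝ) ≤ 1) {M a : ℝ} (ha : a ≤ w) (hM : M ≤ 1)
    (h : ∀ e h' : ℝ, 0 < e → 0 < h' → Bas S (fun J F A' => ∃ B' : F.Ω → Prop, Sub B' A' ∧
      (1 - h') * Pe F.p A' ≤ Pe F.p B' ∧ ∃ γ γc : PtT F → ℝ,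
        MLb F B' y (g J F) ⌊a * J⌋₊ ⌊(M - e) * J⌋₊ γ γc)) : M ≤ N w := by
  by_contra hcon
  push Not at hcon
  obtain ⟨e, he⟩ : ∃ e, e = (M - N w) / 2 := ⟨_, rfl⟩
  have he0 : 0 < e := by rw [he]; linarith
  have h1 := h e (1 / 2) he0 (by norm_num)
  have h2 := Pool.CHT.bas_ev (hN.no w hAw hwB e he0 (by rw [he]; linarith)) (κ := 1 / 2)
    (by norm_num)
  refine Pool.TOP.bas_no hS (Bas.mono 0 (h1.and h2) ?_)
  rintro J - F A' ⟨⟨B', b1, b2, γ, γc, b3⟩, h3⟩
  refine h3 B' b1 (by linarith) ⟨γ, γc, (b3.win ?_ ?_).anti ?_⟩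
  · exact Nat.floor_le_floor (mul_le_mul_of_nonneg_right ha (Nat.cast_nonneg J))
  · refine Nat.floor_le_of_le ?_
    have : (0 : ℝ) ≤ J := Nat.cast_nonneg J
    nlinarith
  · refine Nat.floor_le_floor (mul_le_mul_of_nonneg_right ?_ (Nat.cast_nonneg J))
    rw [he]
    linarith

/-! ### The thresholds of the modified target -/

theorem ClA.anti91 {J : ℕ} {F : Fam m J} {A : F.Ω → Prop} {I : Finset (Fin m)} {v : Fin m}
    {w e M M' : ℕ} {a : PtT F → Fin m → ℝ} {c : PtT F → ℝ} (h : ClA F A I v w e M a c)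
    (hM : M' ≤ M) : ClA F A I v w e M' a c :=
  ⟨fun ω hω => ⟨(h.dp ω hω).1, (h.dp ω hω).2.1, (h.dp ω hω).2.2.trans
    (one_div_le_one_div_of_le (by positivity) (pow_le_pow_right₀ one_le_two hM))⟩, h.ca, h.cc⟩

/-- Comparison of two steps. -/
theorem ld_cmp2 {F H G : ℝ → ℝ} {sF sH g e x x1 z z1 b : ℝ}
    (hx : |F x - F g - sF * (x - g)| ≤ e * |x - g|)
    (hb : |F b - F g - sF * (b - g)| ≤ e * |b - g|)
    (h1 : |H x1 - H g - sH * (x1 - g)| ≤ e * |x1 - g|)
    (hz : |H z - H g - sH * (z - g)| ≤ e * |z - g|)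
    (hz1 : |G z1 - G g - sH * (z1 - g)| ≤ e * |z1 - g|)
    (hb' : |G b - G g - sH * (b - g)| ≤ e * |b - g|) :
    (F b - b) + (sH - sF) * (b - x) - (sH - 1) * (x1 - x) - (sH - 1) * (z1 - z) -
      (e * |x - g| + e * |x1 - g| + e * |z - g| + e * |z1 - g| + 2 * (e * |b - g|)) ≤
      (F x - x) - (H x1 - x1) + (H z - z) - (G z1 - z1) + (G b - b) := by
  have a1 := (abs_le.1 hx).1
  have a2 := (abs_le.1 hb).2
  have a3 := (abs_le.1 h1).2
  have a4 := (abs_le.1 hz).1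
  have a5 := (abs_le.1 hz1).2
  have a6 := (abs_le.1 hb').1
  have e1 : (sH - sF) * (b - x) - (sH - 1) * (x1 - x) - (sH - 1) * (z1 - z) =
    sF * (x - g) - sF * (b - g) - sH * (x1 - g) + sH * (z - g) - sH * (z1 - g) +
      sH * (b - g) + x1 - x - z + z1 := by ring
  linarith


section main

variable {S : PCl m} {y u v t : Fin m} {Wd : Set ℝ} {d1 d2 d3 : ℝ → ℝ}
  {g ρ₀ e Sl σ E ε K₀ e' : ℝ}

/-- **The labels of** `v` **with the fixed slope over** `u`. -/
theorem v_lad (hX : BxN S y u v t Wd d1 d2 d3 g ρ₀ e Sl σ E) (hC : Cst ε K₀ Sl σ e' e)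
    (hyu : y ≠ u) (hε : 0 < ε) (hK₀ : 1 ≤ K₀) (hσ : 1 < σ) (hSl : σ < Sl) {r : ℝ} (hr : 0 < r)
    (hrρ : K₀ * r ≤ ρ₀) {b₀ b : ℝ} (hb₀ : b₀ ∈ Wd) (hb : b ∈ Wd) (hbb : b₀ ≤ b)
    (hg₀ : |b₀ - g| ≤ K₀ * r) (hg : |b - g| ≤ K₀ * r) {e₁ h : ℝ} (he₁ : 0 < e₁) (hh : 0 < h) :
    ∃ e₀ : ℝ, 0 < e₀ ∧ Bas S (fun J F A => ∀ (n : ℕ) (a : PtT F → Fin m → ℝ) (c : PtT F → ℝ),
      ClA F A {y, u} v ⌊b₀ * J⌋₊ n ⌊(d2 b₀ - b₀ - e₀) * J⌋₊ a c →
      ∃ B : F.Ω → Prop, Sub B A ∧ (1 - h) * Pe F.p A ≤ Pe F.p B ∧ ∃ γ γc : PtT F → ℝ,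
        MLb F B y (fun ω => F.d ω v - a (ptr F J ω) u * F.d ω u) ⌊b * J⌋₊
          ⌊(d2 b - b - ε * r - e₁) * J⌋₊ γ γc) := by
  obtain ⟨he, he', h1, k1, k2, k3, k4, k5⟩ := id hC
  have hbρ := hg.trans hrρ
  have hb₀ρ := hg₀.trans hrρ
  have hSl0 : 0 < Sl := by linarith
  have hεr : 0 < ε * r := by positivity
  have hcv : ∀ z, b₀ ≤ z → z ≤ b → |z - g| ≤ K₀ * r := by
    intro z hz1 hz2
    obtain ⟨u1, u2⟩ := abs_le.1 hg₀
    obtain ⟨u3, u4⟩ := abs_le.1 hg
    rw [abs_le]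
    constructor <;> linarith
  have hb1 : b ≤ 1 := by
    have := (abs_le.1 hbρ).2
    have := hX.one
    linarith
  -- the trivial case
  have triv : (d2 b - b - ε * r - e₁ ≤ 0 ∨ d2 b - b - ε * r ≤ d2 b₀ - b₀) →
      ∃ e₀ : ℝ, 0 < e₀ ∧ Bas S (fun J F A => ∀ (n : ℕ) (a : PtT F → Fin m → ℝ)
      (c : PtT F → ℝ), ClA F A {y, u} v ⌊b₀ * J⌋₊ n ⌊(d2 b₀ - b₀ - e₀) * J⌋₊ a c →
      ∃ B : F.Ω → Prop, Sub B A ∧ (1 - h) * Pe F.p A ≤ Pe F.p B ∧ ∃ γ γc : PtT F → ℝ,
        MLb F B y (fun ω => F.d ω v - a (ptr F J ω) u * F.d ω u) ⌊b * J⌋₊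
          ⌊(d2 b - b - ε * r - e₁) * J⌋₊ γ γc) := by
    intro hcase
    refine ⟨e₁, he₁, 1, one_pos, 0, ?_⟩
    intro J _ F A _ n a c hl
    have hJ0 : (0 : ℝ) ≤ J := Nat.cast_nonneg J
    refine ⟨A, fun _ h => h, ?_, fun p => a p y, c, ?_⟩
    · have := Pe_nonneg F.isLaw A
      nlinarith
    · have hl1 := LbC.of hl
      have h2 : MLb F A y (fun ω => F.d ω v - a (ptr F J ω) u * F.d ω u) ⌊b₀ * J⌋₊
          ⌊(d2 b₀ - b₀ - e₁) * J⌋₊ (fun p => a p y) c := by
        refine ⟨hl1.ca y (by simp), hl1.cc, fun ω hω => ?_⟩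
        have h3 := hl1.rep ω hω
        rw [Finset.sum_pair hyu] at h3
        have h4 : ov F y (fun ω => F.d ω v - a (ptr F J ω) u * F.d ω u) (fun p => a p y) c ω =
            F.d ω v - c (ptr F J ω) - (a (ptr F J ω) y * F.d ω y +
              a (ptr F J ω) u * F.d ω u) := by
          unfold ov
          ring
        rw [h4]
        exact h3
      refine (h2.win (Nat.floor_le_floor (mul_le_mul_of_nonneg_right hbb hJ0))
        (Nat.floor_le_of_le (by nlinarith))).anti ?_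
      rcases hcase with h5 | h5
      · have : ⌊(d2 b - b - ε * r - e₁) * (J : ℝ)⌋₊ = 0 :=
          Nat.floor_of_nonpos (mul_nonpos_of_nonpos_of_nonneg h5 hJ0)
        rw [this]
        exact Nat.zero_le _
      · exact Nat.floor_le_floor (mul_le_mul_of_nonneg_right (by linarith) hJ0)
  by_cases hM : d2 b - b - ε * r ≤ 0
  · exact triv (Or.inl (by linarith))
  push Not at hM
  by_cases hsm : e' * (b - b₀ + r) / 2 ≤ b - b₀
  swap
  · -- the windows are near
    push Not at hsm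
    refine triv (Or.inr ?_)
    have l1 := hX.lin2 b hbρ
    have l2 := hX.lin2 b₀ hb₀ρ
    have a1 := (abs_le.1 l1).2
    have a2 := (abs_le.1 l2).1
    have h3 : b - b₀ ≤ 2 * (K₀ * r) := by
      have := (abs_le.1 hg).2
      have := (abs_le.1 hg₀).1
      linarith
    have h4 : e * |b - g| ≤ e * (K₀ * r) := mul_le_mul_of_nonneg_left hg he.le
    have h5 : e * |b₀ - g| ≤ e * (K₀ * r) := mul_le_mul_of_nonneg_left hg₀ he.le
    have h6 : b - b₀ ≤ e' * (3 * (K₀ * r)) / 2 := by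
      have : r ≤ K₀ * r := by nlinarith
      have h7 : e' * (b - b₀ + r) ≤ e' * (3 * (K₀ * r)) :=
        mul_le_mul_of_nonneg_left (by linarith) he'.le
      linarith
    have h8 : (Sl - 1) * (b - b₀) ≤ Sl * (e' * (3 * (K₀ * r)) / 2) := by
      have q1 : (Sl - 1) * (b - b₀) ≤ Sl * (b - b₀) :=
        mul_le_mul_of_nonneg_right (by linarith) (by linarith)
      exact q1.trans (mul_le_mul_of_nonneg_left h6 hSl0.le)
    have h9 := mul_le_mul_of_nonneg_right k5 hr.le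
    have e1 : (3 * K₀ * Sl * e' + 8 * K₀ * e) * r = 2 * (Sl * (e' * (3 * (K₀ * r)) / 2)) +
      8 * (e * (K₀ * r)) := by ring
    have e2 : ε / 2 * r = ε * r / 2 := by ring
    have e3 : (Sl - 1) * (b - b₀) = Sl * (b - g) - Sl * (b₀ - g) - b + b₀ := by ring
    have p1 : 0 ≤ Sl * (e' * (3 * (K₀ * r)) / 2) := by positivity
    have p2 : 0 ≤ e * (K₀ * r) := by positivity
    linarith
  · have hlt : b₀ < b := by
      have : 0 < e' * (b - b₀ + r) := mul_pos he' (by linarith)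
      linarith
    obtain ⟨n, hn⟩ := exists_nat_ge ((b - b₀) / (e' * r / 4))
    rw [div_le_iff₀ (by positivity)] at hn
    obtain ⟨K, x, -, x0, xK, hx, hst⟩ := ldr_ex hX.den he he' k4 hK₀ hr hb hg hbρ n b₀ hb₀ hlt
      hb₀ρ hn hsm
    have hball : ∀ j ≤ K, |x j - g| ≤ K₀ * r := fun j hj => hcv _ (hx j hj).2.1 (hx j hj).2.2
    have hballρ : ∀ j ≤ K, |x j - g| ≤ ρ₀ := fun j hj => (hball j hj).trans hrρ
    have hnum : ∀ j < K, (Sl - 1) * (x (j + 1) - x j) + (e * |x j - g| + e * |x (j + 1) - g| +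
        2 * (e * |b - g|)) ≤ ε * r ∧ e * |x j - g| + e * |x (j + 1) - g| ≤
          (Sl - 1) * (x (j + 1) - x j) := by
      intro j hj
      obtain ⟨s1, s2⟩ := hst j hj
      have hD : 0 ≤ b - x j := by have := (hx j hj.le).2.2; linarith
      have hX1 : |x j - g| ≤ (b - x j) + K₀ * r := (hball j hj.le).trans (by linarith)
      have hX2 : |x (j + 1) - g| ≤ (b - x j) + K₀ * r := (hball (j + 1) hj).trans (by linarith)
      obtain ⟨q1, q2, q3⟩ := st_num hC hK₀ hσ hSl hr hD s1 s2 hX1 hX2 hg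
      refine ⟨?_, q3⟩
      have hD2 : b - x j ≤ 2 * (K₀ * r) := by
        have := (abs_le.1 hg).2
        have := (abs_le.1 (hball j hj.le)).1
        linarith
      have h4 : e * |x j - g| ≤ e * (K₀ * r) := mul_le_mul_of_nonneg_left (hball j hj.le) he.le
      have h5 : e * |x (j + 1) - g| ≤ e * (K₀ * r) :=
        mul_le_mul_of_nonneg_left (hball (j + 1) hj) he.le
      have h6 : e * |b - g| ≤ e * (K₀ * r) := mul_le_mul_of_nonneg_left hg he.le
      have h7 : x (j + 1) - x j ≤ e' * (3 * (K₀ * r)) := by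
        have : r ≤ K₀ * r := by nlinarith
        exact s2.trans (mul_le_mul_of_nonneg_left (by linarith) he'.le)
      have h8 : (Sl - 1) * (x (j + 1) - x j) ≤ Sl * (e' * (3 * (K₀ * r))) := by
        have h9 : 0 ≤ x (j + 1) - x j := by
          have : 0 ≤ e' * (b - x j + r) / 4 := by positivity
          linarith
        have q1 : (Sl - 1) * (x (j + 1) - x j) ≤ Sl * (x (j + 1) - x j) :=
          mul_le_mul_of_nonneg_right (by linarith) h9
        exact q1.trans (mul_le_mul_of_nonneg_left h7 hSl0.le)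
      have h10 := mul_le_mul_of_nonneg_right k5 hr.le
      have e1 : (3 * K₀ * Sl * e' + 8 * K₀ * e) * r = Sl * (e' * (3 * (K₀ * r))) +
        8 * (e * (K₀ * r)) := by ring
      have e2 : ε / 2 * r = ε * r / 2 := by ring
      have p2 : 0 ≤ e * (K₀ * r) := by positivity
      linarith
    have key := lad_v (S := S) (y := y) (u := u) (v := v) hyu (K := K) (x := x)
      (Nu := fun j => d1 (x j) - x j) (Nv := fun j => d2 (x j) - x j)
      (fun j hj => by
        have : 0 ≤ e' * (b - x j + r) / 4 := by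
          have := (hx j hj.le).2.2
          have : 0 ≤ b - x j + r := by linarith
          positivity
        have := (hst j hj).1
        linarith)
      (by rw [xK]; exact hb1)
      (fun j hj => by have := (hX.low (x j) (hballρ j hj)).1; linarith)
      (fun j hj => by
        have := ld_mon (hX.lin2 (x j) (hballρ j hj.le)) (hX.lin2 (x (j + 1)) (hballρ (j + 1) hj))
        have := (hnum j hj).2
        linarith)
      (by
        rw [sub_add_cancel]
        exact hX.labu _ (hx K le_rfl).1 (hballρ K le_rfl))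
      (fun j h2 h3 => by
        rw [sub_add_cancel]
        exact hX.labv _ (hx j h3).1 (hballρ j h3))
      (fun j h2 h3 => hX.cfu _ (hx j h3).1 (hballρ j h3))
      (M := d2 b - b - ε * r) hM (by rw [xK]; linarith)
      (fun j hj => by
        have h3 := ld_cmp (hX.lin2 (x j) (hballρ j hj.le)) (hX.lin2 b hbρ)
          (hX.lin1 (x (j + 1)) (hballρ (j + 1) hj)) (hX.lin1 b hbρ)
        have h4 := (hnum j hj).1
        rw [xK]
        have e1 : (Sl - Sl) * (b - x j) = 0 := by ring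
        linarith)
      he₁ hh
    rw [x0, xK] at key
    exact key

/-- **The thresholds of the modified target from below**: the fixed label `κ` at the window `a₀`
misses the threshold by at most a quarter of the gap of the slopes. -/
theorem t_low (hX : BxN S y u v t Wd d1 d2 d3 g ρ₀ e Sl σ E) (hC : Cst ε (2 * K₀) Sl σ e' e)
    (hS : S.Ne) (hyu : y ≠ u) (hyv : y ≠ v) (huv : u ≠ v) (hε : 0 < ε) (hK₀ : 1 ≤ K₀)
    (hσ : 1 < σ) (hSl : σ < Sl) {a₀ : ℝ} (ha₀ : a₀ ∈ Wd) (haρ : |a₀ - g| ≤ ρ₀)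
    {E₀ M₀ : ℝ} (hM₀ : d3 a₀ - a₀ - (Sl - σ) * (g - a₀) / 4 ≤ M₀) (hM₁ : M₀ < d3 a₀ - a₀)
    {κ : ∀ (J : ℕ) (F : Fam m J), PtT F → Fin m → ℝ} {κc : ∀ (J : ℕ) (F : Fam m J), PtT F → ℝ}
    (hκ : Bas S (fun J F A => ClA F A {y, u, v} t ⌊a₀ * J⌋₊ ⌊E₀ * J⌋₊ ⌊M₀ * J⌋₊ (κ J F)
      (κc J F)))
    {A B : ℝ} {N : ℚ → ℝ} (hN : MNum S y (fun J F ω => F.d ω t -
      κ J F (ptr F J ω) u * F.d ω u - κ J F (ptr F J ω) v * F.d ω v) A B N)
    {r : ℝ} (hr : 0 < r) (hr1 : 8 * K₀ * r ≤ g - a₀) (hr2 : 2 * K₀ * r ≤ ρ₀) {w : ℚ}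
    (hw : |(w : ℝ) - g| ≤ K₀ * r) (hAw : A < w) (hwB : (w : ℝ) < B) :
    d3 w - w - ε * r ≤ N w := by
  obtain ⟨he, he', h1, k1, k2, k3, k4, k5⟩ := id hC
  have hSl0 : 0 < Sl := by linarith
  have hεr : 0 < ε * r := by positivity
  have hK0 : 0 < K₀ := by linarith
  have hKr : r ≤ K₀ * r := by nlinarith
  have hKr0 : 0 < K₀ * r := by positivity
  obtain ⟨w1, w2⟩ := abs_le.1 hw
  have hwρ : |(w : ℝ) - g| ≤ ρ₀ := hw.trans (by linarith)
  have hpe : e' * r ≤ r / 2 := by nlinarith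
  have hpe0 : 0 < e' * r := by positivity
  -- the window `b`
  obtain ⟨b, hb, hb1, hb2⟩ : ∃ b ∈ Wd, (w : ℝ) - e' * r / 2 < b ∧ b < w := by
    have q1 : |(w : ℝ) - e' * r / 2 - g| ≤ 2 * K₀ * r := by
      rw [abs_le]
      constructor <;> linarith
    refine hX.den _ _ (q1.trans hr2) hwρ (by linarith) ?_
    have q2 : max |(w : ℝ) - e' * r / 2 - g| |(w : ℝ) - g| ≤ 2 * K₀ * r :=
      max_le q1 (by linarith)
    have q3 := mul_le_mul_of_nonneg_left q2 he.le
    have q4 := mul_le_mul_of_nonneg_right k4 hr.le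
    have e1 : 4 * (2 * K₀) * e * r = 4 * (e * (2 * K₀ * r)) := by ring
    linarith
  have hbg : |b - g| ≤ 2 * K₀ * r := by
    rw [abs_le]
    constructor <;> linarith
  have hbρ : |b - g| ≤ ρ₀ := hbg.trans hr2
  obtain ⟨bg1, bg2⟩ := abs_le.1 hbg
  obtain ⟨bρ1, bρ2⟩ := abs_le.1 hbρ
  have hbone : b ≤ 1 := by
    have := hX.one
    linarith
  have hb0 : 0 < b := by
    have := hX.pos
    linarith
  have hlb := hX.low b hbρ
  -- the numbers at `w` and at `b`
  have hwb : d3 w - w ≤ d3 b - b + ε * r / 2 := by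
    have l1 := (abs_le.1 (hX.lin3 w hwρ)).2
    have l2 := (abs_le.1 (hX.lin3 b hbρ)).1
    have q1 : e * |(w : ℝ) - g| ≤ e * (2 * K₀ * r) :=
      mul_le_mul_of_nonneg_left (by linarith) he.le
    have q2 : e * |b - g| ≤ e * (2 * K₀ * r) := mul_le_mul_of_nonneg_left hbg he.le
    have q3 := mul_le_mul_of_nonneg_right k2 hr.le
    have e1 : (2 * Sl * e' + 16 * (2 * K₀) * e) * r = 2 * (Sl * (e' * r)) +
      16 * (e * (2 * K₀ * r)) := by ring
    have e2 : ε / 2 * r = ε * r / 2 := by ring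
    have q4 : (σ - 1) * (w - b) ≤ Sl * (e' * r) := by
      have q5 : (σ - 1) * (w - b) ≤ (σ - 1) * (e' * r) :=
        mul_le_mul_of_nonneg_left (by linarith) (by linarith)
      exact q5.trans (mul_le_mul_of_nonneg_right (by linarith) hpe0.le)
    have e3 : (σ - 1) * (w - b) = σ * (w - g) - σ * (b - g) - w + b := by ring
    have p1 : 0 ≤ Sl * (e' * r) := by positivity
    have p2 : 0 ≤ e * (2 * K₀ * r) := by positivity
    linarith
  by_cases hM : d3 b - b - ε * r / 2 ≤ 0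
  · have := hN.n0 w hAw hwB
    linarith
  push Not at hM
  -- the ladder
  have hD0 : 6 * K₀ * r ≤ b - a₀ := by linarith
  have hDg : (g - a₀) / 2 ≤ b - a₀ := by linarith
  have hlt : a₀ < b := by linarith
  obtain ⟨n, hn⟩ := exists_nat_ge ((b - a₀) / (e' * r / 4))
  rw [div_le_iff₀ (by positivity)] at hn
  obtain ⟨K, x, hK1, x0, xK, hx, hst⟩ := ldr_ex (K₀ := 2 * K₀) hX.den he he' k4 (by linarith) hr
    hb hbg hbρ n a₀ ha₀ hlt haρ hn (by
      have q1 : b - a₀ + r ≤ 2 * (b - a₀) := by linarith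
      have q2 : e' * (b - a₀ + r) ≤ e' * (2 * (b - a₀)) := mul_le_mul_of_nonneg_left q1 he'.le
      have q3 : e' * (2 * (b - a₀)) ≤ 1 / 2 * (2 * (b - a₀)) :=
        mul_le_mul_of_nonneg_right h1 (by linarith)
      linarith)
  have hballρ : ∀ j ≤ K, |x j - g| ≤ ρ₀ := by
    intro j hj
    obtain ⟨-, u1, u2⟩ := hx j hj
    obtain ⟨u3, u4⟩ := abs_le.1 haρ
    rw [abs_le]
    constructor <;> linarith
  have hball : ∀ j ≤ K, |x j - g| ≤ (b - x j) + 2 * K₀ * r := by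
    intro j hj
    obtain ⟨-, u1, u2⟩ := hx j hj
    rw [abs_le]
    constructor <;> linarith
  have hs0 : ∀ j < K, x j ≤ x (j + 1) := by
    intro j hj
    have q1 : 0 ≤ e' * (b - x j + r) / 4 := by
      have := (hx j hj.le).2.2
      have : 0 ≤ b - x j + r := by linarith
      positivity
    have := (hst j hj).1
    linarith
  have hnum : ∀ j < K, (Sl - 1) * (x (j + 1) - x j) + (e * |x j - g| + e * |x (j + 1) - g| +
      2 * (e * |b - g|)) ≤ (Sl - σ) * (b - x j) / 4 + ε / 4 * r ∧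
      e * |x j - g| + e * |x (j + 1) - g| ≤ (σ - 1) * (x (j + 1) - x j) ∧
      e * |x j - g| + e * |x (j + 1) - g| ≤ (Sl - 1) * (x (j + 1) - x j) := by
    intro j hj
    obtain ⟨s1, s2⟩ := hst j hj
    have hD : 0 ≤ b - x j := by have := (hx j hj.le).2.2; linarith
    have hX2 : |x (j + 1) - g| ≤ (b - x j) + 2 * K₀ * r := by
      have := hball (j + 1) hj
      have := hs0 j hj
      linarith
    exact st_num hC (by linarith) hσ hSl hr hD s1 s2 (hball j hj.le) hX2 hbg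
  have hDj : ∀ j ≤ K, 0 ≤ (Sl - σ) * (b - x j) := fun j hj =>
    mul_nonneg (by linarith) (by have := (hx j hj).2.2; linarith)
  have hxm : ∀ i ≤ K, ∀ j ≤ i, x j ≤ x i := by
    intro i
    induction i with
    | zero => intro _ j hj; rw [Nat.le_zero.1 hj]
    | succ i ih =>
      intro hi j hj
      rcases Nat.lt_or_ge j (i + 1) with h2 | h2
      · exact (ih (by omega) j (by omega)).trans (hs0 i (by omega))
      · rw [show j = i + 1 by omega]
  -- the loss of the fixed label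
  have hloss : ∀ j ≤ K, d3 (x j) - x j - (Sl - σ) * (b - x j) / 2 ≤
      (if j = 0 then M₀ else d3 (x j) - x j) := by
    intro j hj
    split_ifs with h2
    · subst h2
      have q1 : (Sl - σ) * ((g - a₀) / 2) ≤ (Sl - σ) * (b - a₀) :=
        mul_le_mul_of_nonneg_left hDg (by linarith)
      rw [x0]
      linarith
    · have := hDj j hj
      linarith
  have key : ∀ e₁ h : ℝ, 0 < e₁ → 0 < h → _ := fun e₁ h he₁ hh =>
    lad_t (S := S) (y := y) (u := u) (v := v) (t := t) hyu hyv huv (K := K) (x := x)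
    (Nu := fun j => d1 (x j) - x j) (Nv := fun j => d2 (x j) - x j)
    (Nt := fun j => if j = 0 then M₀ else d3 (x j) - x j) (E := E) hs0
    (by rw [xK]; exact hbone)
    (fun j hj => by have := (hX.low (x j) (hballρ j hj)).1; linarith)
    (fun j hj => by
      obtain ⟨q1, q2, -⟩ := hX.low (x j) (hballρ j hj)
      linarith)
    (fun j hj => by
      have := ld_mon (hX.lin2 (x j) (hballρ j hj.le)) (hX.lin2 (x (j + 1)) (hballρ (j + 1) hj))
      have := (hnum j hj).2.2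
      linarith)
    (fun j hj => by
      have q1 := ld_mon (hX.lin3 (x j) (hballρ j hj.le)) (hX.lin3 (x (j + 1)) (hballρ (j + 1) hj))
      have q2 := (hnum j hj).2.1
      have q3 : ¬ (j + 1 = 0) := by omega
      simp only [q3, if_false]
      split_ifs with h2
      · subst h2
        rw [x0] at q1 q2
        rw [Nat.zero_add] at q1 q2 ⊢
        linarith
      · linarith)
    (by
      rw [sub_add_cancel]
      exact hX.labu _ (hx K le_rfl).1 (hballρ K le_rfl))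
    (fun j h3 => by
      rw [sub_add_cancel]
      exact hX.labv _ (hx j h3).1 (hballρ j h3))
    (fun j h2 h3 => by
      have q3 : ¬ (j = 0) := by omega
      simp only [q3, if_false]
      rw [sub_add_cancel]
      exact hX.labt _ (hx j h3).1 (hballρ j h3))
    (fun j h2 h3 => hX.cfu _ (hx j h3).1 (hballρ j h3))
    (fun j h2 h3 => hX.cfv _ (hx j h3).1 (hballρ j h3))
    (M := d3 b - b - ε * r / 2) hM
    (by
      have q3 : ¬ (K = 0) := by omega
      simp only [q3, if_false]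
      rw [xK]
      linarith)
    (fun j hj => by
      have h3 := ld_cmp (hX.lin3 (x j) (hballρ j hj.le)) (hX.lin3 b hbρ)
        (hX.lin1 (x (j + 1)) (hballρ (j + 1) hj)) (hX.lin1 b hbρ)
      have h4 := (hnum j hj).1
      have h5 := hloss j hj.le
      have h6 := hDj j hj.le
      rw [xK]
      have e1 : (Sl - σ) * (b - x j) / 2 = (Sl - σ) * (b - x j) / 4 +
        (Sl - σ) * (b - x j) / 4 := by ring
      linarith)
    (fun j hj => by
      have h3 := ld_cmp (hX.lin3 (x j) (hballρ j hj.le)) (hX.lin3 b hbρ)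
        (hX.lin2 (x (j + 1)) (hballρ (j + 1) hj)) (hX.lin2 b hbρ)
      have h4 := (hnum j hj).1
      have h5 := hloss j hj.le
      have h6 := hDj j hj.le
      rw [xK]
      linarith)
    (fun j i hji hi => by
      have hj : j < K := by omega
      have h3 := ld_cmp2 (hX.lin3 (x j) (hballρ j hj.le)) (hX.lin3 b hbρ)
        (hX.lin2 (x (j + 1)) (hballρ (j + 1) hj)) (hX.lin2 (x i) (hballρ i hi.le))
        (hX.lin1 (x (i + 1)) (hballρ (i + 1) hi)) (hX.lin1 b hbρ)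
      have h4 := (hnum j hj).1
      have h4' := (hnum i hi).1
      have h5 := hloss j hj.le
      have h6 := hDj j hj.le
      have h7 : (Sl - σ) * (b - x i) ≤ (Sl - σ) * (b - x j) :=
        mul_le_mul_of_nonneg_left (by have := hxm i hi.le j hji.le; linarith) (by linarith)
      have p1 : 0 ≤ e * |b - g| := by positivity
      rw [xK]
      linarith)
    he₁ hh
  have hM' : d3 b - b - ε * r / 2 ≤ 1 := by linarith [hlb.2.2.2]
  refine le_trans ?_ (num_lo91 hS hN hAw hwB (by linarith [(abs_le.1 hwρ).2, hX.one])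
    (M := d3 b - b - ε * r / 2) (a := b) hb2.le hM' ?_)
  · linarith
  · intro e₁ h he₁ hh
    obtain ⟨e₀, he₀, hk⟩ := key e₁ h he₁ hh
    refine Bas.mono 0 (hk.and hκ) ?_
    rintro J - F A' ⟨q1, q2⟩
    have q3 := q1 ⌊E₀ * J⌋₊ (κ J F) (κc J F) (by
      rw [x0]
      refine ClA.anti91 q2 (Nat.floor_le_floor (mul_le_mul_of_nonneg_right ?_
        (Nat.cast_nonneg J)))
      simp only [if_true]
      linarith)
    rw [xK] at q3
    exact q3

end main

end Pool.ONE91
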