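import Pool.Agent.H56.ASM.Xb
import Pool.Agent.H91.ONE.Low
import Pool.Agent.H91.ONE.Lbt1

/-!
# The numbers at the windows `BtT`

`cnt_ex`: a countable dense set of good windows. `box_ae`: at almost all the thin windows `BtT` of
dimension four: in a subclass of every subclass the chain of the base and the target, with sharp
labels and linear diagonals (`BxN`).
-/

set_option autoImplicit false

namespace Pool.ONE91

open MeasureTheory Set Filter Topology
open Pool.Agent.H49.Ent Pool.Agent.H32.Dense Pool.STK Pool.KA Pool.KSAT Pool.K2S Pool.PB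
open Pool.GEN Pool.S6C Pool.STAT Pool.CHT Pool.GRW Pool.PKG Pool.OWN72 Pool.ONE72
open Pool.TOP (TopS)
open Pool.STR (NumI Rle)
open Pool.JTN (TgP)
open Pool.ISO (ChI)

/-- **A countable subset** which meets the same intervals. -/
theorem cnt_ex (A : Set ℝ) : ∃ W : Set ℝ, W ⊆ A ∧ W.Countable ∧
    ∀ x y : ℝ, x < y → (∃ a ∈ A, x < a ∧ a < y) → ∃ a ∈ W, x < a ∧ a < y := by
  classical
  obtain ⟨f, hf⟩ : ∃ f : ℚ × ℚ → ℝ, ∀ p : ℚ × ℚ, (∃ a ∈ A, (p.1 : ℝ) < a ∧ a < p.2) →
      f p ∈ A ∧ (p.1 : ℝ) < f p ∧ f p < p.2 := by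
    refine ⟨fun p => if h : ∃ a ∈ A, (p.1 : ℝ) < a ∧ a < p.2 then h.choose else 0, fun p h => ?_⟩
    simp only [h, dif_pos]
    exact h.choose_spec
  refine ⟨f '' {p | ∃ a ∈ A, (p.1 : ℝ) < a ∧ a < p.2}, ?_, (Set.to_countable _).image f, ?_⟩
  · rintro x ⟨p, hp, rfl⟩
    exact (hf p hp).1
  · rintro x y - ⟨a, ha, h1, h2⟩
    obtain ⟨p, hp1, hp2⟩ := exists_rat_btwn h1
    obtain ⟨q, hq1, hq2⟩ := exists_rat_btwn h2
    have h3 : ∃ a ∈ A, ((p, q).1 : ℝ) < a ∧ a < (p, q).2 := ⟨a, ha, hp2, hq1⟩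
    obtain ⟨k1, k2, k3⟩ := hf (p, q) h3
    exact ⟨f (p, q), ⟨(p, q), h3, rfl⟩, hp1.trans k2, k3.trans hq2⟩

/-- A linear approximation. -/
theorem lin_ex {f : ℝ → ℝ} {s g : ℝ} (hf : HasDerivAt f s g) {e : ℝ} (he : 0 < e) :
    ∃ δ : ℝ, 0 < δ ∧ ∀ w : ℝ, |w - g| ≤ δ → |f w - f g - s * (w - g)| ≤ e * |w - g| := by
  have h3 := (hasDerivAt_iff_isLittleO.1 hf).def (c := e) he
  obtain ⟨δ, hδ, h4⟩ := Metric.eventually_nhds_iff.1 h3
  refine ⟨δ / 2, by linarith, fun w hw => ?_⟩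
  have h5 := h4 (y := w) (by rw [Real.dist_eq]; linarith)
  rw [Real.norm_eq_abs, Real.norm_eq_abs, smul_eq_mul] at h5
  rwa [mul_comm s (w - g)]

variable {hn : 2 ≤ 4} {S : PCl 4} {P : ℝ → ℝ → ℝ} {rr : ℝ → ℝ}
  {P' : ℕ → List (Fin 4) × Fin 4 → ℝ → ℝ → ℝ} {Λ : Finset (Fin 4) → Fin 4 → ℝ → ℝ → ℝ}
  {PB : ℕ → List (Fin 4) × Fin 4 → ℝ → ℝ → ℝ}

/-- **The numbers at the windows** `BtT`. -/
theorem box_ae (H : PkT hn S P rr P' Λ PB) (hTop : TopS 4) (hF : FZX (4 - 1)) (h : ℝ) (o : Od 4)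
    {W : Set ℝ} (hW : W ⊆ Gs P rr P' Λ o ∩ Ctw Λ) (hWc : W.Countable)
    (hWd : ∀ x y : ℝ, x < y → (∃ a ∈ Gs P rr P' Λ o ∩ Ctw Λ, x < a ∧ a < y) →
      ∃ a ∈ W, x < a ∧ a < y) :
    ∀ᵐ g : ℝ, RwH H hTop hF h o g → ThW hn P P' PB o g → Pool.ASM.BtT 4 hn P P' PB o g →
      ∃ E : ℝ, 0 ≤ E ∧ P g g + E < 1 ∧ g < dgN hn P P' o 1 g ∧
        dgN hn P P' o 1 g ≤ dgN hn P P' o 2 g ∧ dgN hn P P' o 2 g < 1 ∧
        ∀ e : ℝ, 0 < e → ∃ ρ₀ : ℝ, 0 < ρ₀ ∧ ∃ d1 d2 : ℝ → ℝ, d1 g = dgN hn P P' o 1 g ∧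
          d2 g = dgN hn P P' o 2 g ∧
          (∀ w ∈ W, |w - g| ≤ ρ₀ → d1 w = dgN hn P P' o 1 w ∧ d2 w = dgN hn P P' o 2 w ∧
            dgN hn P P' o 0 w = w) ∧
          ∀ S' : PCl 4, S'.Ne →
            (∀ (τ : ℝ) (J : ℕ) (F : Fam 4 J) (A : F.Ω → Prop), S'.St τ J F A → S.St τ J F A) →
            ∃ S₁ : PCl 4, S₁.Ne ∧
              (∀ (τ : ℝ) (J : ℕ) (F : Fam 4 J) (A : F.Ω → Prop), S₁.St τ J F A →
                S'.St τ J F A) ∧
              BxN S₁ (cc hn o.1.1 0) (cc hn o.1.1 1) (cc hn o.1.1 2) (cc hn o.1.1 3) W d1 d2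
                (fun w => P w w) g ρ₀ e (slN hn P P' o 1 g) (slN hn P P' o 3 g) E := by
  classical
  have hct : ∀ᵐ g : ℝ, g ∈ Ctw Λ := by
    have h1 := (ctw_ae (Λ := Λ) H.lam).ae_notMem volume
    filter_upwards [h1] with g hg
    by_contra hcon
    exact hg hcon
  filter_upwards [hct, dns_pt (Gs P rr P' Λ o ∩ Ctw Λ), H.toPk.chI_ae hTop hF]
    with g kct kdn kch R hT hB
  obtain ⟨-, hBw, hB12⟩ := hB
  have hgm : g ∈ Gs P rr P' Λ o := R.rwd.mem
  have hds : Dsc (Gs P rr P' Λ o ∩ Ctw Λ) g := kdn ⟨hgm, kct⟩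
  obtain ⟨c₀, sg, hc₀, hc1, r₀, hr₀, kI⟩ := kch o hgm
  have hI := kI (r₀ / 2) (by linarith) (by linarith) c₀ hc₀ le_rfl
  have hg0 := R.rwd.g0
  have hg1 := R.rwd.g1
  have hdge : ∀ l ≤ 4 - 1, (H.nk hTop hF).dg o l = dgN hn P P' o l := by
    intro l hl
    rcases hl.lt_or_eq with h3 | h3
    · rw [(H.nk hTop hF).dg_lt o h3]
      unfold dgN
      rw [if_pos h3]
      rfl
    · have h4 : (H.nk hTop hF).dg o l = fun a => P a a := by
        rw [h3]
        exact (H.nk hTop hF).dg_m o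
      rw [h4]
      unfold dgN
      rw [if_neg (by omega)]
  have hdif : ∀ l ≤ 4 - 1, HasDerivAt (dgN hn P P' o l) (slN hn P P' o l g) g := by
    intro l hl
    have h1 := R.rwd.dif l hl
    rw [hdge l hl] at h1
    exact h1.hasDerivAt
  have hlt : ∀ l ≤ 4 - 1, dgN hn P P' o l g < 1 := by
    intro l hl
    have h1 := R.rwd.lt l hl
    rw [hdge l hl] at h1
    exact h1
  -- the slopes
  obtain ⟨Sl, hSl⟩ : ∃ Sl, Sl = slN hn P P' o 1 g := ⟨_, rfl⟩
  obtain ⟨σ, hσ⟩ : ∃ σ, σ = slN hn P P' o 3 g := ⟨_, rfl⟩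
  have hσ1 : 1 < σ := by
    rw [hσ]
    exact hT.1
  have hb1 := hBw 1 le_rfl (by norm_num)
  have hSσ : σ < Sl := by
    rw [hσ, hSl]
    exact hb1.1
  have hSl2 : Sl ≤ 2 := by
    rw [hSl]
    exact hb1.2
  have hs2 : slN hn P P' o 2 g = Sl := by rw [hSl, hB12]
  have hsl : ∀ l, 1 ≤ l → l ≤ 4 - 1 → 1 < slN hn P P' o l g ∧ slN hn P P' o l g ≤ 2 := by
    intro l h1 h2
    have h3 : l = 1 ∨ l = 2 ∨ l = 3 := by omega
    rcases h3 with rfl | rfl | rfl
    · rw [← hSl]
      constructor <;> linarith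
    · rw [hs2]
      constructor <;> linarith
    · rw [← hσ]
      constructor <;> linarith
  have hlo : ∀ l, 1 ≤ l → l ≤ 4 - 1 → 0 < dgN hn P P' o l g - g := by
    intro l h1 h2
    refine dsc_pos hds (f := fun a => dgN hn P P' o l a - a)
      ((hdif l h2).sub (hasDerivAt_id g)) (by linarith [(hsl l h1 h2).1]) (fun a ha => ?_) ?_
    · linarith [gs_dlo H hTop hF ha.1 h2]
    · show 0 ≤ dgN hn P P' o l g - g
      linarith [gs_dlo H hTop hF hgm h2]
  have h12 : dgN hn P P' o 1 g ≤ dgN hn P P' o 2 g :=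
    gs_srt H.toPk hTop hF hgm (l := 1) (by norm_num)
  have htar : ∀ w, dgN hn P P' o 3 w = P w w := fun w => dgN_tar o w
  have hPsg : P g g ≤ sg := hI.bdN g hg0 (by linarith)
  have hsg1 : sg < 1 := by linarith [hI.sg1]
  obtain ⟨q, hq⟩ : ∃ q, q = (1 - sg) / 2 := ⟨_, rfl⟩
  have hq0 : 0 < q := by rw [hq]; linarith
  obtain ⟨E, hE⟩ : ∃ E, E = (1 + sg) / 2 - P g g := ⟨_, rfl⟩
  -- the constant
  obtain ⟨c₁, hc₁, k1⟩ := pos_fin (Finset.Icc 1 3)
    (f := fun l => min (min (slN hn P P' o l g - 1) (1 - dgN hn P P' o l g))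
      (dgN hn P P' o l g - g)) fun l hl => by
      obtain ⟨h1, h2⟩ := Finset.mem_Icc.1 hl
      have h3 := (hsl l h1 h2).1
      exact lt_min (lt_min (by linarith) (by linarith [hlt l h2])) (hlo l h1 h2)
  obtain ⟨c, hc⟩ : ∃ c, c = min (min c₁ (1 / 2)) (min (min g (1 - g)) (min c₀ (4 * r₀))) :=
    ⟨_, rfl⟩
  have m1 : c ≤ c₁ := by rw [hc]; exact (min_le_left _ _).trans (min_le_left _ _)
  have m2 : c ≤ 1 / 2 := by rw [hc]; exact (min_le_left _ _).trans (min_le_right _ _)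
  have m3 : c ≤ g := by
    rw [hc]; exact (min_le_right _ _).trans ((min_le_left _ _).trans (min_le_left _ _))
  have m4 : c ≤ 1 - g := by
    rw [hc]; exact (min_le_right _ _).trans ((min_le_left _ _).trans (min_le_right _ _))
  have m5 : c ≤ c₀ := by
    rw [hc]; exact (min_le_right _ _).trans ((min_le_right _ _).trans (min_le_left _ _))
  have m6 : c ≤ 4 * r₀ := by
    rw [hc]; exact (min_le_right _ _).trans ((min_le_right _ _).trans (min_le_right _ _))
  have hc0 : 0 < c := by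
    rw [hc]
    exact lt_min (lt_min hc₁ (by norm_num)) (lt_min (lt_min hg0 (by linarith))
      (lt_min hc₀ (by linarith)))
  have hk1 : ∀ l, 1 ≤ l → l ≤ 4 - 1 → c ≤ slN hn P P' o l g - 1 ∧ c ≤ 1 - dgN hn P P' o l g ∧
      c ≤ dgN hn P P' o l g - g := by
    intro l h1 h2
    have h3 := k1 l (Finset.mem_Icc.2 ⟨h1, h2⟩)
    exact ⟨m1.trans (h3.trans ((min_le_left _ _).trans (min_le_left _ _))),
      m1.trans (h3.trans ((min_le_left _ _).trans (min_le_right _ _))),
      m1.trans (h3.trans (min_le_right _ _))⟩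
  have hc2 : 0 < c ^ 2 := by positivity
  have hc3 : 0 < c ^ 3 := by positivity
  refine ⟨E, by rw [hE]; linarith, by rw [hE]; linarith, by linarith [hlo 1 le_rfl (by norm_num)],
    h12, hlt 2 (by norm_num), fun e he => ?_⟩
  -- the scales
  obtain ⟨ε, hε⟩ : ∃ ε, ε = min e (c ^ 3 / 160) := ⟨_, rfl⟩
  have hε0 : 0 < ε := by rw [hε]; exact lt_min he (by positivity)
  have hεe : ε ≤ e := by rw [hε]; exact min_le_left _ _
  have hεc : ε ≤ c ^ 3 / 160 := by rw [hε]; exact min_le_right _ _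
  obtain ⟨r₁, hr₁, k3⟩ := hds ε hε0
  obtain ⟨δ₀, hδ₀, kl0⟩ := lin_ex (hdif 0 (by norm_num)) hε0
  obtain ⟨δ₁, hδ₁, kl1⟩ := lin_ex (hdif 1 (by norm_num)) hε0
  obtain ⟨δ₂, hδ₂, kl2⟩ := lin_ex (hdif 2 (by norm_num)) hε0
  obtain ⟨δ₃, hδ₃, kl3⟩ := lin_ex (hdif 3 (by norm_num)) hε0
  obtain ⟨ρ, hρ⟩ : ∃ ρ, ρ = min (min (min δ₀ δ₁) (min δ₂ δ₃)) (min (r₁ / 2)
    (min (c ^ 2 / 16) (q / 4))) := ⟨_, rfl⟩
  have n0 : ρ ≤ δ₀ := by
    rw [hρ]; exact (min_le_left _ _).trans ((min_le_left _ _).trans (min_le_left _ _))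
  have n1 : ρ ≤ δ₁ := by
    rw [hρ]; exact (min_le_left _ _).trans ((min_le_left _ _).trans (min_le_right _ _))
  have n2 : ρ ≤ δ₂ := by
    rw [hρ]; exact (min_le_left _ _).trans ((min_le_right _ _).trans (min_le_left _ _))
  have n3 : ρ ≤ δ₃ := by
    rw [hρ]; exact (min_le_left _ _).trans ((min_le_right _ _).trans (min_le_right _ _))
  have n4 : ρ ≤ r₁ / 2 := by
    rw [hρ]; exact (min_le_right _ _).trans (min_le_left _ _)
  have n5 : ρ ≤ c ^ 2 / 16 := by
    rw [hρ]; exact (min_le_right _ _).trans ((min_le_right _ _).trans (min_le_left _ _))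
  have n6 : ρ ≤ q / 4 := by
    rw [hρ]; exact (min_le_right _ _).trans ((min_le_right _ _).trans (min_le_right _ _))
  have hρ0 : 0 < ρ := by
    rw [hρ]
    exact lt_min (lt_min (lt_min hδ₀ hδ₁) (lt_min hδ₂ hδ₃))
      (lt_min (by linarith) (lt_min (by positivity) (by positivity)))
  have hcc : c ^ 2 ≤ c := by nlinarith
  have hcc3 : c ^ 3 ≤ c ^ 2 := by
    have : c ^ 3 = c * c ^ 2 := by ring
    nlinarith
  have hρc : ρ ≤ c / 16 := by linarith
  obtain ⟨d, hd⟩ : ∃ d, d = ε * ρ := ⟨_, rfl⟩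
  have hd0 : 0 < d := by rw [hd]; positivity
  have hdc3 : 160 * d ≤ c ^ 3 * ρ := by
    rw [hd]
    have := mul_le_mul_of_nonneg_right hεc hρ0.le
    linarith
  have hdc2 : 160 * d ≤ c ^ 2 * ρ := hdc3.trans (mul_le_mul_of_nonneg_right hcc3 hρ0.le)
  have hd8 : 8 / c ^ 2 * d ≤ ρ / 2 := by
    rw [div_mul_eq_mul_div, div_le_iff₀ hc2]
    linarith
  have hd17 : d + 17 / c ^ 2 * d ≤ c * (ρ / 8 - d) := by
    have h1 : 17 / c ^ 2 * d ≤ 17 / 160 * (c * ρ) := by
      rw [div_mul_eq_mul_div, div_le_iff₀ hc2]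
      have : c ^ 3 * ρ = c * ρ * c ^ 2 := by ring
      linarith
    have h2 : 160 * d ≤ c * ρ := hdc2.trans (mul_le_mul_of_nonneg_right hcc hρ0.le)
    have h3 : c * d ≤ 1 / 2 * d := mul_le_mul_of_nonneg_right m2 hd0.le
    have e1 : c * (ρ / 8 - d) = c * ρ / 8 - c * d := by ring
    rw [e1]
    have h4 : 0 < c * ρ := by positivity
    linarith
  -- the linear approximations
  have kl : ∀ l ≤ 4 - 1, ∀ w : ℝ, |w - g| ≤ ρ →
      |dgN hn P P' o l w - dgN hn P P' o l g - slN hn P P' o l g * (w - g)| ≤ ε * |w - g| := by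
    intro l hl w hw
    have h3 : l = 0 ∨ l = 1 ∨ l = 2 ∨ l = 3 := by omega
    rcases h3 with rfl | rfl | rfl | rfl
    · exact kl0 w (hw.trans n0)
    · exact kl1 w (hw.trans n1)
    · exact kl2 w (hw.trans n2)
    · exact kl3 w (hw.trans n3)
  have hdenr : ∀ r : ℝ, 0 < r → r ≤ ρ → ∀ x y : ℝ, |x - g| ≤ r → |y - g| ≤ r → x + ε * r ≤ y →
      ∃ a ∈ W, x < a ∧ a < y := by
    intro r hr hr' x y hx hy hxy
    have hx' := (abs_le.1 hx).1
    have hy' := (abs_le.1 hy).2
    have : 0 < ε * r := by positivity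
    exact hWd x y (by linarith) (k3 r hr (by linarith) x y (by linarith) hxy (by linarith))
  -- the facts near the window
  have hNea : Nea1 hn P P' (Gs P rr P' Λ o ∩ Ctw Λ) o c g ρ d :=
    { d0 := hd0
      c0 := hc0
      c1 := by linarith
      cg := m3
      g1 := by linarith
      slo := fun l h1 h2 => by
        have h3 := (hk1 l h1 h2).1
        have h4 := (hsl l h1 h2).2
        refine ⟨by linarith, ?_⟩
        have := mul_le_mul_of_nonneg_left h4 hc0.le
        linarith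
      dlo := fun l h1 h2 => by linarith [(hk1 l h1 h2).2.2]
      dhi := fun l h1 h2 => by linarith [(hk1 l h1 h2).2.1]
      den := fun x y hx hy hxy => by
        obtain ⟨a, ha, h1⟩ := hdenr ρ hρ0 le_rfl x y hx hy (by rw [← hd]; exact hxy)
        exact ⟨a, hW ha, h1⟩
      lin := fun l hl w hw => by
        have h1 := kl l hl w hw
        have h2 : ε * |w - g| ≤ ε * ρ := mul_le_mul_of_nonneg_left hw hε0.le
        have e1 : dgN hn P P' o l w - tl hn P P' o g l w =
            dgN hn P P' o l w - dgN hn P P' o l g - slN hn P P' o l g * (w - g) := by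
          unfold tl
          ring
        rw [e1, hd]
        exact h1.trans h2
      ρc := by linarith
      dρ := by linarith }
  -- the target near the window
  have hPw : ∀ w : ℝ, |w - g| ≤ ρ → |P w w - P g g| ≤ 3 / 4 * q := by
    intro w hw
    have h1 := kl 3 (by norm_num) w hw
    rw [htar, htar, ← hσ] at h1
    have h2 : ε * |w - g| ≤ 1 * ρ := by
      have : ε ≤ 1 := by
        have : c ^ 3 ≤ 1 := by nlinarith
        linarith
      exact mul_le_mul this hw (abs_nonneg _) (by norm_num)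
    have h3 : |σ * (w - g)| ≤ 2 * ρ := by
      rw [abs_mul, abs_of_pos (by linarith : 0 < σ)]
      exact mul_le_mul (by linarith) hw (abs_nonneg _) (by norm_num)
    have h4 := abs_le.1 h1
    have h5 := abs_le.1 h3
    rw [abs_le]
    constructor <;> linarith [h4.1, h4.2, h5.1, h5.2]
  -- the windows near `g`
  have hθ : 0 < tht o.2 := tht_pos o.2
  have hact : ∀ w : ℝ, 0 < w → w < g + 8 * (r₀ / 2) → w < 1 → dgN hn P P' o 0 w = w := by
    intro w h1 h2 h3
    rw [dgN_bas o (by norm_num)]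
    refine act_all H.toPk hF o (b := min (g + 8 * (r₀ / 2)) 1) (min_le_right _ _)
      (fun w h1 h2 => ?_) w h1 (lt_min h2 h3)
    have h3 := hI.bd 0 (by norm_num) w h1 (h2.trans_le (min_le_left _ _)).le
    have h4 := hI.sgθ
    have h5 : tht o.2 * w ≤ tht o.2 * 1 :=
      mul_le_mul_of_nonneg_left (h2.trans_le (min_le_right _ _)).le hθ.le
    linarith
  obtain ⟨d1, hd1⟩ : ∃ d1 : ℝ → ℝ, d1 = fun w => if w ∈ W ∨ w = g then dgN hn P P' o 1 w else
    dgN hn P P' o 1 g + Sl * (w - g) := ⟨_, rfl⟩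
  obtain ⟨d2, hd2⟩ : ∃ d2 : ℝ → ℝ, d2 = fun w => if w ∈ W ∨ w = g then dgN hn P P' o 2 w else
    dgN hn P P' o 2 g + Sl * (w - g) := ⟨_, rfl⟩
  have hd1g : d1 g = dgN hn P P' o 1 g := by rw [hd1]; simp
  have hd2g : d2 g = dgN hn P P' o 2 g := by rw [hd2]; simp
  have hd1W : ∀ w ∈ W, d1 w = dgN hn P P' o 1 w := fun w hw => by rw [hd1]; simp [hw]
  have hd2W : ∀ w ∈ W, d2 w = dgN hn P P' o 2 w := fun w hw => by rw [hd2]; simp [hw]
  have hnear : ∀ w : ℝ, |w - g| ≤ ρ → 0 < w ∧ w < 1 ∧ w < g + 8 * (r₀ / 2) := by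
    intro w hw
    obtain ⟨h1, h2⟩ := abs_le.1 hw
    refine ⟨by linarith, by linarith, by linarith⟩
  refine ⟨ρ / 4, by linarith, d1, d2, hd1g, hd2g, fun w hw hwr => ?_, fun S' hne hsub => ?_⟩
  · obtain ⟨h1, h2, h3⟩ := hnear w (hwr.trans (by linarith))
    exact ⟨hd1W w hw, hd2W w hw, hact w h1 h3 h2⟩
  -- the labels
  obtain ⟨S₁, g1, g2, g3⟩ := lab1 (P := P) (P' := P') (Λ := Λ) (o := o) H.toPk hTop hF hne hsub
    hNea (Wd := W ∩ {w | |w - g| ≤ ρ / 2}) (fun w hw => hW hw.1) (hWc.mono inter_subset_left)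
    (fun w hw => by
      have : |w - g| ≤ ρ / 2 := hw.2
      linarith) (v₀ := g - ρ / 2) (R := ρ)
    (by
      rw [show g - ρ / 2 - g = -(ρ / 2) by ring, abs_neg, abs_of_pos (by linarith)]
      linarith)
    (by
      rw [show g - ρ / 2 + ρ - g = ρ / 2 by ring, abs_of_pos (by linarith)]
      linarith)
    (fun x y hx hxy hy => by
      have hx2 : |x - g| ≤ ρ / 2 := by rw [abs_le]; constructor <;> linarith
      have hy2 : |y - g| ≤ ρ / 2 := by rw [abs_le]; constructor <;> linarith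
      obtain ⟨a, ha, h1, h2⟩ := hdenr ρ hρ0 le_rfl x y (hx2.trans (by linarith))
        (hy2.trans (by linarith)) (by rw [← hd]; exact hxy)
      refine ⟨a, ⟨ha, ?_⟩, h1, h2⟩
      show |a - g| ≤ ρ / 2
      rw [abs_le] at hx2 hy2 ⊢
      constructor <;> linarith [hx2.1, hx2.2, hy2.1, hy2.2])
    (sg := sg) (s := E) (Δ := ρ / 8) hsg1 (by rw [hE]; linarith)
    (fun w h1 h2 h3 => hI.tg w h3 h1 (by linarith))
    (fun w hw => by
      have h1 := hPw w (by
        have : |w - g| ≤ ρ / 2 := hw.2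
        linarith)
      rw [abs_le] at h1
      rw [hE]
      linarith [h1.1])
    (fun w hw => by
      have h1 := hPw w (by
        have : |w - g| ≤ ρ / 2 := hw.2
        linarith)
      rw [abs_le] at h1
      rw [hE]
      linarith [h1.2]) hd17
  have hW4 : ∀ w ∈ W, |w - g| ≤ ρ / 4 → w ∈ W ∩ {w | |w - g| ≤ ρ / 2} := fun w hw h1 =>
    ⟨hw, by
      show |w - g| ≤ ρ / 2
      linarith⟩
  refine ⟨S₁, g1, g2, ?_⟩
  exact
    { lin1 := fun w hw => by
        rw [hd1g]
        by_cases h1 : w ∈ W ∨ w = g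
        · have h2 := kl 1 (by norm_num) w (hw.trans (by linarith))
          have h3 : d1 w = dgN hn P P' o 1 w := by rw [hd1]; simp only [h1, if_true]
          rw [h3]
          exact h2.trans (mul_le_mul_of_nonneg_right hεe (abs_nonneg _))
        · have h3 : d1 w = dgN hn P P' o 1 g + Sl * (w - g) := by
            rw [hd1]; simp only [h1, if_false]
          rw [h3, ← hSl, show dgN hn P P' o 1 g + Sl * (w - g) - dgN hn P P' o 1 g -
            Sl * (w - g) = 0 by ring, abs_zero]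
          positivity
      lin2 := fun w hw => by
        rw [hd2g]
        by_cases h1 : w ∈ W ∨ w = g
        · have h2 := kl 2 (by norm_num) w (hw.trans (by linarith))
          have h3 : d2 w = dgN hn P P' o 2 w := by rw [hd2]; simp only [h1, if_true]
          rw [h3, hB12]
          exact h2.trans (mul_le_mul_of_nonneg_right hεe (abs_nonneg _))
        · have h3 : d2 w = dgN hn P P' o 2 g + Sl * (w - g) := by
            rw [hd2]; simp only [h1, if_false]
          rw [h3, ← hSl, show dgN hn P P' o 2 g + Sl * (w - g) - dgN hn P P' o 2 g -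
            Sl * (w - g) = 0 by ring, abs_zero]
          positivity
      lin3 := fun w hw => by
        have h2 := kl 3 (by norm_num) w (hw.trans (by linarith))
        rw [htar, htar] at h2
        exact h2.trans (mul_le_mul_of_nonneg_right hεe (abs_nonneg _))
      den := fun x z hx hz hxz hm => by
        obtain ⟨r, hr⟩ : ∃ r, r = max |x - g| |z - g| := ⟨_, rfl⟩
        rw [← hr] at hm
        have hr1 : |x - g| ≤ r := by rw [hr]; exact le_max_left _ _
        have hr2 : |z - g| ≤ r := by rw [hr]; exact le_max_right _ _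
        have hr3 : r ≤ ρ / 4 := by rw [hr]; exact max_le hx hz
        have hr0 : 0 < r := by
          by_contra hcon
          push Not at hcon
          have h1 := (abs_le.1 (hr1.trans hcon)).1
          have h2 := (abs_le.1 (hr2.trans hcon)).2
          linarith
        have h3 : ε * r ≤ e * r := mul_le_mul_of_nonneg_right hεe hr0.le
        exact hdenr r hr0 (by linarith) x z hr1 hr2 (by linarith)
      labu := fun w hw hwr => by
        rw [hd1W w hw]
        exact (g3 w (hW4 w hw hwr)).2.1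
      labv := fun w hw hwr => by
        rw [hd2W w hw]
        exact (g3 w (hW4 w hw hwr)).2.2.1
      labt := fun w hw hwr => by
        obtain ⟨h1, h2⟩ := abs_le.1 hwr
        exact (g3 w (hW4 w hw hwr)).2.2.2.2.2.2 (by linarith) (by linarith)
      cfu := fun w hw hwr => by
        rw [hd1W w hw]
        exact (g3 w (hW4 w hw hwr)).2.2.2.2.1
      cfv := fun w hw hwr => by
        rw [hd2W w hw]
        exact (g3 w (hW4 w hw hwr)).2.2.2.2.2.1
      low := fun w hw => by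
        obtain ⟨u1, u2⟩ := abs_le.1 hw
        have hP1 := kl 3 (by norm_num) w (hw.trans (by linarith))
        rw [htar, htar, ← hσ] at hP1
        have hP2 := abs_le.1 hP1
        have h3 := (hk1 3 (by norm_num) le_rfl).2.2
        have h4 := (hk1 3 (by norm_num) le_rfl).2.1
        rw [htar] at h3 h4
        have h5 : ε * |w - g| ≤ 1 * (ρ / 4) := by
          have : ε ≤ 1 := by
            have : c ^ 3 ≤ 1 := by nlinarith
            linarith
          exact mul_le_mul this hw (abs_nonneg _) (by norm_num)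
        have h6 : |σ * (w - g)| ≤ 2 * (ρ / 4) := by
          rw [abs_mul, abs_of_pos (by linarith : 0 < σ)]
          exact mul_le_mul (by linarith) hw (abs_nonneg _) (by norm_num)
        have h7 := abs_le.1 h6
        have hP3 : w < P w w ∧ P w w ≤ 1 := by
          constructor <;> linarith [hP2.1, hP2.2, h7.1, h7.2]
        by_cases h1 : w ∈ W ∨ w = g
        · have hG : w ∈ Gs P rr P' Λ o := by
            rcases h1 with h1 | h1
            · exact (hW h1).1
            · rw [h1]; exact hgm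
          have e1 : d1 w = dgN hn P P' o 1 w := by rw [hd1]; simp only [h1, if_true]
          have e2 : d2 w = dgN hn P P' o 2 w := by rw [hd2]; simp only [h1, if_true]
          rw [e1, e2]
          exact ⟨gs_dlo H hTop hF hG (by norm_num), gs_srt H.toPk hTop hF hG (l := 1)
            (by norm_num), hP3.1, hP3.2⟩
        · have e1 : d1 w = dgN hn P P' o 1 g + Sl * (w - g) := by
            rw [hd1]; simp only [h1, if_false]
          have e2 : d2 w = dgN hn P P' o 2 g + Sl * (w - g) := by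
            rw [hd2]; simp only [h1, if_false]
          rw [e1, e2]
          have h8 := (hk1 1 le_rfl (by norm_num)).2.2
          have h9 : |(Sl - 1) * (w - g)| ≤ 1 * (ρ / 4) := by
            rw [abs_mul, abs_of_pos (by linarith : 0 < Sl - 1)]
            exact mul_le_mul (by linarith) hw (abs_nonneg _) (by norm_num)
          have h10 := (abs_le.1 h9).1
          have e3 : (Sl - 1) * (w - g) = Sl * (w - g) - w + g := by ring
          exact ⟨by linarith, by linarith, hP3.1, hP3.2⟩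
      pos := by linarith
      one := by linarith }

end Pool.ONE91
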