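import Pool.Agent.H63.ONE.Asm
import Pool.Agent.H91.ONE.Box

/-!
# The windows `BtT` are void, from the local statement

`box_ae'`: the boxes, in the form of helper63. `lVoT_loc`: `LVoX BtT 4` from `OneLoc`.
-/

set_option autoImplicit false

namespace Pool.ONE91

/-- **The boxes at almost all windows.** -/
theorem box_ae' : Pool.ONE63.BoxAe := fun H hTop hF h o _ h1 h2 h3 =>
  box_ae H hTop hF h o h1 h2 h3

/-- **The windows** `BtT` **are void in dimension four**, from the statement at one window. -/
theorem lVoT_loc (hLoc : Pool.ONE63.OneLoc) : Pool.ASM.LVoX Pool.ASM.BtT 4 :=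
  Pool.ONE63.lVoT hLoc box_ae'

end Pool.ONE91
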