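import Pool.Agent.H72.ONE1.Mdf
import Pool.Agent.H72.OWN.Rep2
import Pool.Agent.H2.GEN.AttG

/-!
# Tools for the ladder of labels

`pw`: real powers of two. `LbC`: closed affine labels, without the sizes. `cf_pw`, `rel_two`: the
coefficients of a closed relation, over one set of coordinates and over one more coordinate.
-/

set_option autoImplicit false

namespace Pool.ONE91

open Finset Real
open Pool.Agent.H49.Ent Pool.Agent.H32.Dense Pool.STK Pool.KA Pool.KSAT Pool.K2S Pool.PB Pool.S6C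
open Pool.GEN Pool.OWN72 Pool.ONE72

variable {m J : ℕ}

/-! ### Powers of two -/

/-- `2 ^ (x J)`. -/
noncomputable def pw (J : ℕ) (x : ℝ) : ℝ := (2 : ℝ) ^ (x * J)

theorem pw_pos (J : ℕ) (x : ℝ) : 0 < pw J x := Real.rpow_pos_of_pos two_pos _

theorem pw_add (J : ℕ) (x y : ℝ) : pw J (x + y) = pw J x * pw J y := by
  unfold pw
  rw [add_mul, Real.rpow_add two_pos]

theorem pw_mono (J : ℕ) {x y : ℝ} (h : x ≤ y) : pw J x ≤ pw J y :=
  Real.rpow_le_rpow_of_exponent_le one_le_two (mul_le_mul_of_nonneg_right h (Nat.cast_nonneg J))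

theorem pw_le (J : ℕ) {a b c : ℝ} (h : a + b ≤ c) : pw J a * pw J b ≤ pw J c := by
  rw [← pw_add]
  exact pw_mono J h

theorem one_le_pw (J : ℕ) {x : ℝ} (h : 0 ≤ x) : 1 ≤ pw J x :=
  Real.one_le_rpow one_le_two (mul_nonneg h (Nat.cast_nonneg J))

/-- A floor in the denominator. -/
theorem fl_lo {x s : ℝ} (h : 1 ≤ s * J) : 1 / (2 : ℝ) ^ ⌊x * (J : ℝ)⌋₊ ≤ pw J (-x + s) := by
  have h1 : x * (J : ℝ) - 1 < ⌊x * (J : ℝ)⌋₊ := Nat.sub_one_lt_floor _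
  have h2 : (2 : ℝ) ^ (x * J - 1 : ℝ) ≤ (2 : ℝ) ^ ⌊x * (J : ℝ)⌋₊ := by
    rw [← Real.rpow_natCast]
    exact Real.rpow_le_rpow_of_exponent_le one_le_two h1.le
  have h3 : (0 : ℝ) < (2 : ℝ) ^ (x * J - 1 : ℝ) := Real.rpow_pos_of_pos two_pos _
  refine (one_div_le_one_div_of_le h3 h2).trans ?_
  rw [one_div, ← Real.rpow_neg two_pos.le]
  unfold pw
  exact Real.rpow_le_rpow_of_exponent_le one_le_two (by nlinarith)

/-- A floor in the numerator. -/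
theorem fl_up {x : ℝ} (h : 0 ≤ x) : (2 : ℝ) ^ ⌊x * (J : ℝ)⌋₊ ≤ pw J x := by
  have h1 : (⌊x * (J : ℝ)⌋₊ : ℝ) ≤ x * J := Nat.floor_le (mul_nonneg h (Nat.cast_nonneg J))
  rw [← Real.rpow_natCast]
  exact Real.rpow_le_rpow_of_exponent_le one_le_two h1

/-- The precision of a label. -/
theorem fl_out {x : ℝ} (h : 0 ≤ x) : pw J (-x) ≤ 1 / (2 : ℝ) ^ ⌊x * (J : ℝ)⌋₊ := by
  have h1 := fl_up (J := J) h
  have h2 : pw J (-x) = 1 / pw J x := by
    unfold pw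
    rw [neg_mul, Real.rpow_neg two_pos.le, one_div]
  rw [h2]
  exact one_div_le_one_div_of_le (by positivity) h1

/-- A constant is small. -/
theorem const_pw (c : ℝ) {s : ℝ} (hs : 0 < s) : ∃ J₀ : ℕ, ∀ J : ℕ, J₀ ≤ J → c ≤ pw J s := by
  obtain ⟨n, hn⟩ := exists_nat_ge c
  obtain ⟨J₀, hJ₀⟩ := Pool.CHT.big n hs
  refine ⟨J₀, fun J hJ => hn.trans ?_⟩
  have h1 : (n : ℝ) ≤ s * J := hJ₀ J hJ
  have h2 : (n : ℝ) ≤ 2 ^ n := by exact_mod_cast (Nat.lt_two_pow_self).le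
  refine h2.trans ?_
  unfold pw
  rw [← Real.rpow_natCast]
  exact Real.rpow_le_rpow_of_exponent_le one_le_two h1

/-! ### Events -/

/-- Finitely many large sub-events. -/
theorem pe_all {Ω : Type} [Fintype Ω] {p : Ω → ℝ} (hp : IsLaw p) {A : Ω → Prop} {h : ℝ} :
    ∀ (n : ℕ) {B : ℕ → Ω → Prop}, (∀ i < n, Sub (B i) A ∧ (1 - h) * Pe p A ≤ Pe p (B i)) →
    (1 - n * h) * Pe p A ≤ Pe p (fun ω => A ω ∧ ∀ i < n, B i ω)
  | 0, B, _ => by
    have e1 : Pe p (fun ω => A ω ∧ ∀ i < 0, B i ω) = Pe p A := by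
      congr 1
      funext ω
      exact propext ⟨fun h => h.1, fun h => ⟨h, fun i hi => absurd hi (Nat.not_lt_zero i)⟩⟩
    rw [e1]
    simp
  | n + 1, B, hB => by
    have h1 := pe_all hp n (B := B) fun i hi => hB i (by omega)
    obtain ⟨h2, h3⟩ := hB n (by omega)
    have h4 := Pe_parts (p := p) (B := A) (B' := B n) h2
    have h5 := Pe_parts (p := p) (B := fun ω => A ω ∧ ∀ i < n, B i ω)
      (B' := fun ω => A ω ∧ ∀ i < n + 1, B i ω)
      (fun ω hω => ⟨hω.1, fun i hi => hω.2 i (by omega)⟩)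
    have h6 : Pe p (fun ω => (A ω ∧ ∀ i < n, B i ω) ∧ ¬ (A ω ∧ ∀ i < n + 1, B i ω)) ≤
        Pe p (fun ω => A ω ∧ ¬ B n ω) := by
      refine Pe_mono hp fun ω hω => ⟨hω.1.1, fun h7 => hω.2 ⟨hω.1.1, fun i hi => ?_⟩⟩
      rcases Nat.lt_or_ge i n with h8 | h8
      · exact hω.1.2 i h8
      · have : i = n := by omega
        rw [this]
        exact h7
    push_cast
    nlinarith

/-! ### Labels -/

/-- **A closed affine label**, without the sizes of the slopes. -/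
structure LbC (F : Fam m J) (A : F.Ω → Prop) (I : Finset (Fin m)) (v : Fin m) (w M : ℕ)
    (a : PtT F → Fin m → ℝ) (c : PtT F → ℝ) : Prop where
  ca : ∀ k ∈ I, Cl1 F A w (fun p => a p k)
  cc : Cl1 F A w c
  rep : ∀ ω, A ω → |F.d ω v - c (ptr F J ω) - ∑ k ∈ I, a (ptr F J ω) k * F.d ω k| ≤ 1 / 2 ^ M

theorem LbC.of {F : Fam m J} {A : F.Ω → Prop} {I : Finset (Fin m)} {v : Fin m} {w e M : ℕ}
    {a : PtT F → Fin m → ℝ} {c : PtT F → ℝ} (h : ClA F A I v w e M a c) : LbC F A I v w M a c :=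
  ⟨h.ca, h.cc, fun ω hω => (h.dp ω hω).2.2⟩

theorem LbC.sub {F : Fam m J} {A B : F.Ω → Prop} {I : Finset (Fin m)} {v : Fin m} {w M : ℕ}
    {a : PtT F → Fin m → ℝ} {c : PtT F → ℝ} (h : LbC F A I v w M a c) (hB : Sub B A) :
    LbC F B I v w M a c :=
  ⟨fun k hk => (h.ca k hk).sub hB, h.cc.sub hB, fun ω hω => h.rep ω (hB ω hω)⟩

/-- **Closed labels exist**: the velocity precision is `N`. -/
def HasC (S : PCl m) (I : Finset (Fin m)) (v : Fin m) (w N : ℝ) : Prop :=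
  ∀ x : ℝ, 0 < x → Bas S (fun J F A => ∃ (a : PtT F → Fin m → ℝ) (c : PtT F → ℝ),
      LbC F A I v ⌊w * J⌋₊ ⌊(N - x) * J⌋₊ a c)

theorem HasC.ofB {S : PCl m} {I : Finset (Fin m)} {v : Fin m} {w N E : ℝ}
    (h : HasB S I v w (N + w) E) : HasC S I v w N := by
  intro x hx
  refine Bas.mono 0 (h x hx) ?_
  rintro J - F A ⟨a, c, h1⟩
  have e1 : N + w - w - x = N - x := by ring
  rw [e1] at h1
  exact ⟨a, c, LbC.of h1⟩

theorem HasC.ofA {S : PCl m} {I : Finset (Fin m)} {v : Fin m} {w N : ℝ}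
    (h : HasA S I v w (N + w)) : HasC S I v w N := HasC.ofB h.hasB

/-- The difference of two labels is a closed relation. -/
theorem LbC.dif {F : Fam m J} {A : F.Ω → Prop} {I : Finset (Fin m)} {v : Fin m} {w M M' : ℕ}
    {a a' : PtT F → Fin m → ℝ} {c c' : PtT F → ℝ} (h : LbC F A I v w M a c)
    (h' : LbC F A I v w M' a' c') (ω : F.Ω) (hω : A ω) :
    |(c' (ptr F J ω) - c (ptr F J ω)) +
      ∑ k ∈ I, (a' (ptr F J ω) k - a (ptr F J ω) k) * F.d ω k| ≤ 1 / 2 ^ M + 1 / 2 ^ M' := by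
  have h1 := h.rep ω hω
  have h2 := h'.rep ω hω
  have h3 : (c' (ptr F J ω) - c (ptr F J ω)) +
      ∑ k ∈ I, (a' (ptr F J ω) k - a (ptr F J ω) k) * F.d ω k =
      (F.d ω v - c (ptr F J ω) - ∑ k ∈ I, a (ptr F J ω) k * F.d ω k) -
      (F.d ω v - c' (ptr F J ω) - ∑ k ∈ I, a' (ptr F J ω) k * F.d ω k) := by
    have h5 : ∑ k ∈ I, (a' (ptr F J ω) k - a (ptr F J ω) k) * F.d ω k =
        ∑ k ∈ I, a' (ptr F J ω) k * F.d ω k - ∑ k ∈ I, a (ptr F J ω) k * F.d ω k := by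
      rw [← Finset.sum_sub_distrib]
      exact Finset.sum_congr rfl fun k _ => by ring
    rw [h5]
    ring
  rw [h3]
  exact (abs_sub _ _).trans (add_le_add h1 h2)

theorem LbC.win {F : Fam m J} {A : F.Ω → Prop} {I : Finset (Fin m)} {v : Fin m} {w w' M : ℕ}
    {a : PtT F → Fin m → ℝ} {c : PtT F → ℝ} (h : LbC F A I v w M a c) (hw : w ≤ w')
    (hw' : w' ≤ J) : LbC F A I v w' M a c :=
  ⟨fun k hk => (h.ca k hk).win hw hw', h.cc.win hw hw', h.rep⟩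

/-! ### Closed relations -/

/-- The coefficients of closed relations, in powers of two. -/
theorem cf_pw {S : PCl m} {I : Finset (Fin m)} {w X : ℝ} (hX : 0 ≤ X) (hI : CfP S I w X)
    {s h : ℝ} (hs : 0 < s) (hh : 0 < h) : Bas S (fun J F A =>
    ∀ (δ : PtT F → Fin m → ℝ) (δc : PtT F → ℝ) (η : ℝ), 0 < η →
    (∀ k ∈ I, Cl1 F A ⌊w * J⌋₊ (fun p => δ p k)) → Cl1 F A ⌊w * J⌋₊ δc →
    (∀ ω, A ω → |δc (ptr F J ω) + ∑ k ∈ I, δ (ptr F J ω) k * F.d ω k| ≤ η) →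
    ∃ B : F.Ω → Prop, Sub B A ∧ (1 - h) * Pe F.p A ≤ Pe F.p B ∧
      ∀ ω, B ω → ∀ k ∈ I, |δ (ptr F J ω) k| ≤ η * pw J (X + s)) := by
  refine Bas.mono 0 (hI s h hs hh) ?_
  rintro J - F A hA δ δc η hη h1 h2 h3
  obtain ⟨B, b1, b2, b3⟩ := hA δ δc η hη h1 h2 h3
  exact ⟨B, b1, b2, fun ω hω k hk => ((b3 ω hω).1 k hk).trans
    (mul_le_mul_of_nonneg_left (fl_up (by linarith)) hη.le)⟩

/-- **The coefficients of a closed relation over one more coordinate**, against a label of it. -/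
theorem rel_two {S : PCl m} {I : Finset (Fin m)} {v : Fin m} (hv : v ∉ I) {w Xu Nv : ℝ}
    (hXu : 0 ≤ Xu) (hNv : 0 ≤ Nv) (hI : CfP S I w Xu) (hI' : CfP S (insert v I) w Nv)
    {s h : ℝ} (hs : 0 < s) (hh : 0 < h) : Bas S (fun J F A =>
    ∀ (φ : PtT F → Fin m → ℝ) (φc : PtT F → ℝ), LbC F A I v ⌊w * J⌋₊ ⌊(Nv - s) * J⌋₊ φ φc →
    ∀ (δ : PtT F → Fin m → ℝ) (δc : PtT F → ℝ) (η : ℝ), 0 < η →
    (∀ k ∈ insert v I, Cl1 F A ⌊w * J⌋₊ (fun p => δ p k)) → Cl1 F A ⌊w * J⌋₊ δc →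
    (∀ ω, A ω → |δc (ptr F J ω) + ∑ k ∈ insert v I, δ (ptr F J ω) k * F.d ω k| ≤ η) →
    ∃ B : F.Ω → Prop, Sub B A ∧ (1 - h) * Pe F.p A ≤ Pe F.p B ∧
      ∀ ω, B ω → |δ (ptr F J ω) v| ≤ η * pw J (Nv + s) ∧
        ∀ k ∈ I, |δ (ptr F J ω) k + δ (ptr F J ω) v * φ (ptr F J ω) k| ≤
          η * pw J (Xu + 5 * s)) := by
  obtain ⟨h', hh'⟩ : ∃ h', h' = min (h / 2) (1 / 2) := ⟨_, rfl⟩
  have hh'0 : 0 < h' := by rw [hh']; exact lt_min (by linarith) (by norm_num)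
  have hh'1 : h' ≤ h / 2 := by rw [hh']; exact min_le_left _ _
  have hh'2 : h' ≤ 1 / 2 := by rw [hh']; exact min_le_right _ _
  obtain ⟨J₁, hJ₁⟩ := Pool.CHT.big 1 hs
  obtain ⟨J₂, hJ₂⟩ := const_pw 2 hs
  refine Bas.mono (max J₁ J₂) ((cf_pw hNv hI' hs hh'0).and
    (Pool.CHT.bas_ev (cf_pw hXu hI hs hh'0) (κ := 1 / 2) (by norm_num))) ?_
  rintro J hJ F A ⟨hA1, hA2⟩ φ φc hφ δ δc η hη hcl hcc hrel
  have hsJ : 1 ≤ s * J := hJ₁ J ((le_max_left _ _).trans hJ)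
  have h2J : 2 ≤ pw J s := hJ₂ J ((le_max_right _ _).trans hJ)
  have hPA : 0 ≤ Pe F.p A := Pe_nonneg F.isLaw A
  obtain ⟨B₁, b11, b12, b13⟩ := hA1 δ δc η hη hcl hcc hrel
  have hvin : v ∈ insert v I := Finset.mem_insert_self _ _
  have hkin : ∀ k ∈ I, k ∈ insert v I := fun k hk => Finset.mem_insert_of_mem hk
  have hcl2 := (hcl v hvin).sub b11
  have hr := fl_lo (J := J) (x := Nv - s) (s := s) hsJ
  have hη' : η + η * pw J (Nv + s) * (1 / 2 ^ ⌊(Nv - s) * (J : ℝ)⌋₊) ≤ η * pw J (4 * s) := by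
    have h1 : pw J (Nv + s) * (1 / 2 ^ ⌊(Nv - s) * (J : ℝ)⌋₊) ≤ pw J (3 * s) :=
      (mul_le_mul_of_nonneg_left hr (pw_pos _ _).le).trans (pw_le J (by linarith))
    have h2 : 1 ≤ pw J (3 * s) := one_le_pw J (by linarith)
    have h3 : 1 + pw J (Nv + s) * (1 / 2 ^ ⌊(Nv - s) * (J : ℝ)⌋₊) ≤ pw J (4 * s) := by
      have e1 : pw J (4 * s) = pw J (3 * s) * pw J s := by
        rw [← pw_add]
        congr 1
        ring
      rw [e1]
      have k1 : pw J (3 * s) * 2 ≤ pw J (3 * s) * pw J s :=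
        mul_le_mul_of_nonneg_left h2J (pw_pos _ _).le
      linarith
    calc η + η * pw J (Nv + s) * (1 / 2 ^ ⌊(Nv - s) * (J : ℝ)⌋₊) =
        η * (1 + pw J (Nv + s) * (1 / 2 ^ ⌊(Nv - s) * (J : ℝ)⌋₊)) := by ring
      _ ≤ _ := mul_le_mul_of_nonneg_left h3 hη.le
  obtain ⟨B₂, b21, b22, b23⟩ := hA2 B₁ b11 (by nlinarith)
    (fun p k => δ p k + δ p v * φ p k) (fun p => δc p + δ p v * φc p)
    (η * pw J (4 * s)) (mul_pos hη (pw_pos _ _))
    (fun k hk => Cl1.map2 (fun x y => x + y) ((hcl k (hkin k hk)).sub b11)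
      (Cl1.map2 (fun x y => x * y) hcl2 ((hφ.ca k hk).sub b11)))
    (Cl1.map2 (fun x y => x + y) (hcc.sub b11)
      (Cl1.map2 (fun x y => x * y) hcl2 (hφ.cc.sub b11))) (fun ω hω => by
        have h1 := hrel ω (b11 ω hω)
        have h2 := hφ.rep ω (b11 ω hω)
        have h3 := b13 ω hω v hvin
        rw [Finset.sum_insert hv] at h1
        have h4 : δc (ptr F J ω) + δ (ptr F J ω) v * φc (ptr F J ω) +
            ∑ k ∈ I, (δ (ptr F J ω) k + δ (ptr F J ω) v * φ (ptr F J ω) k) * F.d ω k =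
            (δc (ptr F J ω) + (δ (ptr F J ω) v * F.d ω v +
              ∑ k ∈ I, δ (ptr F J ω) k * F.d ω k)) -
            δ (ptr F J ω) v *
              (F.d ω v - φc (ptr F J ω) - ∑ k ∈ I, φ (ptr F J ω) k * F.d ω k) := by
          have h5 : ∑ k ∈ I, (δ (ptr F J ω) k + δ (ptr F J ω) v * φ (ptr F J ω) k) * F.d ω k =
              ∑ k ∈ I, δ (ptr F J ω) k * F.d ω k + δ (ptr F J ω) v *
                ∑ k ∈ I, φ (ptr F J ω) k * F.d ω k := by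
            rw [Finset.mul_sum, ← Finset.sum_add_distrib]
            exact Finset.sum_congr rfl fun k _ => by ring
          rw [h5]
          ring
        rw [h4]
        refine ((abs_sub _ _).trans (add_le_add h1 ?_)).trans hη'
        rw [abs_mul]
        exact mul_le_mul h3 h2 (abs_nonneg _) (mul_pos hη (pw_pos _ _)).le)
  have hmass : (1 - h) * Pe F.p A ≤ Pe F.p B₂ := by
    have k1 : (1 - h') * ((1 - h') * Pe F.p A) ≤ (1 - h') * Pe F.p B₁ :=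
      mul_le_mul_of_nonneg_left b12 (by linarith)
    have k2 : (1 - h) * Pe F.p A ≤ (1 - h') * ((1 - h') * Pe F.p A) := by
      rw [← mul_assoc]
      exact mul_le_mul_of_nonneg_right (by nlinarith) hPA
    linarith
  refine ⟨B₂, fun ω hω => b11 ω (b21 ω hω), hmass, fun ω hω => ⟨?_, fun k hk => ?_⟩⟩
  · exact b13 ω (b21 ω hω) v hvin
  · refine (b23 ω hω k hk).trans ?_
    rw [mul_assoc]
    exact mul_le_mul_of_nonneg_left (pw_le J (by linarith)) hη.le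

end Pool.ONE91
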