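import Pool.Agent.H91.ONE.Lad0

/-!
# The ladder of labels

Closed affine labels at the windows `x 0 ≤ … ≤ x K`, of the coordinates `u`, `v`, `t` over the
chain `y`, `u`, `v`. `lad_v`: with the slopes of a label of `v` at the window `x 0` the velocity
`d_v - a_u d_u` has a label over the velocity of `y` alone, closed at the window `x K`. `lad_t`: the
same for `d_t - a_u d_u - a_v d_v`.
-/

set_option autoImplicit false

namespace Pool.ONE91

open Finset Real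
open Pool.Agent.H49.Ent Pool.Agent.H32.Dense Pool.STK Pool.KA Pool.KSAT Pool.K2S Pool.PB Pool.S6C
open Pool.GEN Pool.OWN72 Pool.ONE72

variable {m J : ℕ}

/-! ### Numbers -/

/-- A telescope. -/
theorem tel_one (f : ℕ → ℝ) (b : ℝ) : ∀ n : ℕ, (∀ j < n, |f (j + 1) - f j| ≤ b) →
    |f n - f 0| ≤ n * b
  | 0, _ => by simp
  | n + 1, h => by
    have h1 := tel_one f b n fun j hj => h j (by omega)
    have h2 := h n (by omega)
    have e1 : f (n + 1) - f 0 = (f (n + 1) - f n) + (f n - f 0) := by ring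
    rw [e1]
    push_cast
    have h3 := abs_add_le (f (n + 1) - f n) (f n - f 0)
    linarith

/-- Two telescopes. -/
theorem tel_two (au av φ : ℕ → ℝ) {U : ℝ} (hU : 0 ≤ U) (K : ℕ)
    (h1 : ∀ j < K, |(au (j + 1) - au j) + (av (j + 1) - av j) * φ (j + 1)| ≤ U)
    (h2 : ∀ j i, j < i → i < K → |av (j + 1) - av j| * |φ (i + 1) - φ i| ≤ U) :
    ∀ n ≤ K, |(au n - au 0) + (av n - av 0) * φ n| ≤ n * ((1 + K) * U) := by
  intro n
  induction n with
  | zero => intro _; simp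
  | succ n ih =>
    intro hn
    have i1 := ih (by omega)
    have i2 := h1 n (by omega)
    have i3 : |(av n - av 0) * (φ (n + 1) - φ n)| ≤ K * U := by
      have j1 := tel_one (fun j => av j * (φ (n + 1) - φ n)) U n fun j hj => by
        have e1 : av (j + 1) * (φ (n + 1) - φ n) - av j * (φ (n + 1) - φ n) =
            (av (j + 1) - av j) * (φ (n + 1) - φ n) := by ring
        show |av (j + 1) * (φ (n + 1) - φ n) - av j * (φ (n + 1) - φ n)| ≤ U
        rw [e1, abs_mul]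
        exact h2 j n hj (by omega)
      have e2 : (av n - av 0) * (φ (n + 1) - φ n) =
          av n * (φ (n + 1) - φ n) - av 0 * (φ (n + 1) - φ n) := by ring
      rw [e2]
      refine j1.trans (mul_le_mul_of_nonneg_right ?_ hU)
      exact_mod_cast (by omega : n ≤ K)
    have e3 : (au (n + 1) - au 0) + (av (n + 1) - av 0) * φ (n + 1) =
        ((au n - au 0) + (av n - av 0) * φ n) +
        (((au (n + 1) - au n) + (av (n + 1) - av n) * φ (n + 1)) +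
          (av n - av 0) * (φ (n + 1) - φ n)) := by ring
    rw [e3]
    have k1 := abs_add_le ((au n - au 0) + (av n - av 0) * φ n)
      (((au (n + 1) - au n) + (av (n + 1) - av n) * φ (n + 1)) +
          (av n - av 0) * (φ (n + 1) - φ n))
    have k2 := abs_add_le ((au (n + 1) - au n) + (av (n + 1) - av n) * φ (n + 1))
      ((av n - av 0) * (φ (n + 1) - φ n))
    push_cast
    linarith

/-- The windows. -/
theorem lad_win {x : ℕ → ℝ} {K : ℕ} (hx : ∀ j < K, x j ≤ x (j + 1)) :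
    ∀ n ≤ K, ∀ j ≤ n, x j ≤ x n := by
  intro n
  induction n with
  | zero => intro _ j hj; rw [Nat.le_zero.1 hj]
  | succ n ih =>
    intro hn j hj
    rcases Nat.lt_or_ge n j with h1 | h1
    · have : j = n + 1 := by omega
      rw [this]
    · exact (ih (by omega) j h1).trans (hx n (by omega))

/-! ### One coordinate above `u` -/

/-- **The ladder of** `v` over `y`, `u`. -/
theorem lad_vC {S : PCl m} {y u v : Fin m} (hyu : y ≠ u) {K : ℕ} {x Nu Nv : ℕ → ℝ}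
    (hx : ∀ j < K, x j ≤ x (j + 1)) (hx1 : x K ≤ 1) (hNu : ∀ j ≤ K, 0 ≤ Nu j)
    (hNv : ∀ j < K, Nv j ≤ Nv (j + 1)) (hU : HasC S {y} u (x K) (Nu K))
    (hV : ∀ j, 1 ≤ j → j ≤ K → HasC S {y, u} v (x j) (Nv j))
    (hcu : ∀ j, 1 ≤ j → j ≤ K → CfP S {y, u} (x j) (Nu j))
    {M : ℝ} (hM0 : 0 < M) (hMK : M ≤ Nv K) (hM : ∀ j < K, M ≤ Nv j - Nu (j + 1) + Nu K)
    {e h : ℝ} (he : 0 < e) (hh : 0 < h) : ∃ e₀ : ℝ, 0 < e₀ ∧ Bas S (fun J F A =>
      ∀ (a : PtT F → Fin m → ℝ) (c : PtT F → ℝ),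
      LbC F A {y, u} v ⌊x 0 * J⌋₊ ⌊(Nv 0 - e₀) * J⌋₊ a c →
      ∃ B : F.Ω → Prop, Sub B A ∧ (1 - h) * Pe F.p A ≤ Pe F.p B ∧ ∃ γ γc : PtT F → ℝ,
        MLb F B y (fun ω => F.d ω v - a (ptr F J ω) u * F.d ω u) ⌊x K * J⌋₊ ⌊(M - e) * J⌋₊
          γ γc) := by
  obtain ⟨e', he'⟩ : ∃ e', e' = min e M := ⟨_, rfl⟩
  have he'0 : 0 < e' := by rw [he']; exact lt_min he hM0
  have he'1 : e' ≤ e := by rw [he']; exact min_le_left _ _
  have he'2 : e' ≤ M := by rw [he']; exact min_le_right _ _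
  obtain ⟨s, hs⟩ : ∃ s, s = e' / 7 := ⟨_, rfl⟩
  have hs0 : 0 < s := by rw [hs]; positivity
  obtain ⟨h', hh'⟩ : ∃ h', h' = h / (K + 1) := ⟨_, rfl⟩
  have hh'0 : 0 < h' := by rw [hh']; positivity
  have hh'1 : (K : ℝ) * h' ≤ h := by
    rw [hh', mul_div_assoc', div_le_iff₀ (by positivity)]
    nlinarith
  obtain ⟨J₁, hJ₁⟩ := Pool.CHT.big 1 hs0
  obtain ⟨J₂, hJ₂⟩ := const_pw 2 hs0
  obtain ⟨J₃, hJ₃⟩ := const_pw (K + 1 : ℝ) hs0
  have b1 := Bas.all K (S := S) (Φ := fun j J F A => ∃ (a : PtT F → Fin m → ℝ) (c : PtT F → ℝ),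
    LbC F A {y, u} v ⌊x (j + 1) * J⌋₊ ⌊(Nv (j + 1) - s) * J⌋₊ a c)
    fun j hj => hV (j + 1) (by omega) (by omega) s hs0
  have b2 := Bas.all K (S := S) fun j hj => cf_pw (hNu (j + 1) (by omega))
    (hcu (j + 1) (by omega) (by omega)) hs0 hh'0
  refine ⟨s, hs0, Bas.mono (max J₁ (max J₂ J₃)) ((b1.and b2).and (hU s hs0)) ?_⟩
  rintro J hJ F A ⟨⟨hA1, hA2⟩, b, bc, hb⟩ a c hl
  have hsJ : 1 ≤ s * J := hJ₁ J ((le_max_left _ _).trans hJ)
  have h2J : 2 ≤ pw J s := hJ₂ J (((le_max_left _ _).trans (le_max_right _ _)).trans hJ)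
  have hKJ : (K + 1 : ℝ) ≤ pw J s := hJ₃ J (((le_max_right _ _).trans (le_max_right _ _)).trans hJ)
  have hJ0 : (0 : ℝ) ≤ J := Nat.cast_nonneg J
  choose! al cl hal using hA1
  obtain ⟨a', ha0, has⟩ : ∃ a' : ℕ → PtT F → Fin m → ℝ, a' 0 = a ∧ ∀ j, a' (j + 1) = al j :=
    ⟨fun j => Nat.casesOn j a al, rfl, fun _ => rfl⟩
  obtain ⟨c', hc0, hcs⟩ : ∃ c' : ℕ → PtT F → ℝ, c' 0 = c ∧ ∀ j, c' (j + 1) = cl j :=
    ⟨fun j => Nat.casesOn j c cl, rfl, fun _ => rfl⟩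
  have hlab : ∀ j ≤ K, LbC F A {y, u} v ⌊x j * J⌋₊ ⌊(Nv j - s) * J⌋₊ (a' j) (c' j) := by
    intro j hj
    rcases j with _ | j
    · rw [ha0, hc0]
      exact hl
    · rw [has, hcs]
      exact hal j (by omega)
  have hwK : ∀ j ≤ K, ⌊x j * (J : ℝ)⌋₊ ≤ J := fun j hj =>
    Nat.floor_le_of_le (by
      have h1 : x j ≤ 1 := (lad_win hx K le_rfl j hj).trans hx1
      nlinarith)
  have hww : ∀ j ≤ K, ∀ i ≤ j, ⌊x i * (J : ℝ)⌋₊ ≤ ⌊x j * (J : ℝ)⌋₊ := fun j hj i hi =>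
    Nat.floor_le_floor (mul_le_mul_of_nonneg_right (lad_win hx j hj i hi) hJ0)
  -- the differences
  have hdif : ∀ j < K, ∃ B : F.Ω → Prop, Sub B A ∧ (1 - h') * Pe F.p A ≤ Pe F.p B ∧
      ∀ ω, B ω → |a' (j + 1) (ptr F J ω) u - a' j (ptr F J ω) u| ≤
        pw J (-(M - Nu K) + 4 * s) := by
    intro j hj
    have l1 := (hlab j (by omega)).win (hww (j + 1) (by omega) j (by omega)) (hwK (j + 1) (by omega))
    have l2 := hlab (j + 1) (by omega)
    obtain ⟨B, c1, c2, c3⟩ := hA2 j hj (fun p k => a' (j + 1) p k - a' j p k)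
      (fun p => c' (j + 1) p - c' j p) (pw J (-(Nv j) + 3 * s)) (pw_pos _ _)
      (fun k hk => Cl1.map2 (fun x y => x - y) (l2.ca k hk) (l1.ca k hk))
      (Cl1.map2 (fun x y => x - y) l2.cc l1.cc) (fun ω hω => by
        refine (l1.dif l2 ω hω).trans ?_
        have k1 := fl_lo (J := J) (x := Nv j - s) (s := s) hsJ
        have k2 := fl_lo (J := J) (x := Nv (j + 1) - s) (s := s) hsJ
        have k3 : pw J (-(Nv j - s) + s) ≤ pw J (-(Nv j) + 2 * s) := pw_mono J (by linarith)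
        have k4 : pw J (-(Nv (j + 1) - s) + s) ≤ pw J (-(Nv j) + 2 * s) :=
          pw_mono J (by have := hNv j hj; linarith)
        have k5 : pw J (-(Nv j) + 2 * s) * pw J s ≤ pw J (-(Nv j) + 3 * s) :=
          pw_le J (by linarith)
        have k6 : pw J (-(Nv j) + 2 * s) * 2 ≤ pw J (-(Nv j) + 2 * s) * pw J s :=
          mul_le_mul_of_nonneg_left h2J (pw_pos _ _).le
        linarith)
    refine ⟨B, c1, c2, fun ω hω => ?_⟩
    have k1 := c3 ω hω u (by simp)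
    refine k1.trans ((pw_le J ?_))
    have := hM j hj
    linarith
  choose! Bj hBj1 hBj2 hBj3 using hdif
  have hmass := pe_all F.isLaw (A := A) (h := h') K (B := Bj)
    fun j hj => ⟨hBj1 j hj, hBj2 j hj⟩
  refine ⟨fun ω => A ω ∧ ∀ j < K, Bj j ω, fun ω hω => hω.1, ?_,
    fun p => a' K p y + (a' K p u - a p u) * b p y,
    fun p => c' K p + (a' K p u - a p u) * bc p, ?_⟩
  · have hPA : 0 ≤ Pe F.p A := Pe_nonneg F.isLaw A
    have k1 : (1 - h) * Pe F.p A ≤ (1 - K * h') * Pe F.p A :=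
      mul_le_mul_of_nonneg_right (by linarith) hPA
    exact k1.trans hmass
  · have lK := hlab K le_rfl
    have l0 := (hlab 0 (Nat.zero_le K)).win (hww K le_rfl 0 (Nat.zero_le K)) (hwK K le_rfl)
    rw [ha0] at l0
    have hyI : y ∈ ({y, u} : Finset (Fin m)) := by simp
    have huI : u ∈ ({y, u} : Finset (Fin m)) := by simp
    have hyI' : y ∈ ({y} : Finset (Fin m)) := by simp
    have hsub : Sub (fun ω => A ω ∧ ∀ j < K, Bj j ω) A := fun ω hω => hω.1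
    refine ⟨?_, ?_, fun ω hω => ?_⟩
    · exact (Cl1.map2 (fun x y => x + y) (lK.ca y hyI) (Cl1.map2 (fun x y => x * y)
        (Cl1.map2 (fun x y => x - y) (lK.ca u huI) (l0.ca u huI)) (hb.ca y hyI'))).sub hsub
    · exact (Cl1.map2 (fun x y => x + y) lK.cc (Cl1.map2 (fun x y => x * y)
        (Cl1.map2 (fun x y => x - y) (lK.ca u huI) (l0.ca u huI)) hb.cc)).sub hsub
    · have hωA := hω.1
      have r1 := lK.rep ω hωA
      have r2 := hb.rep ω hωA
      rw [Finset.sum_pair hyu] at r1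
      rw [Finset.sum_singleton] at r2
      have r3 := tel_one (fun j => a' j (ptr F J ω) u) _ K fun j hj => hBj3 j hj ω (hω.2 j hj)
      have r3' : |a' K (ptr F J ω) u - a (ptr F J ω) u| ≤ K * pw J (-(M - Nu K) + 4 * s) := by
        have e1 : a (ptr F J ω) u = a' 0 (ptr F J ω) u := by rw [ha0]
        rw [e1]
        exact r3
      have e2 : ov F y (fun ω => F.d ω v - a (ptr F J ω) u * F.d ω u)
          (fun p => a' K p y + (a' K p u - a p u) * b p y)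
          (fun p => c' K p + (a' K p u - a p u) * bc p) ω =
          (F.d ω v - c' K (ptr F J ω) - (a' K (ptr F J ω) y * F.d ω y +
            a' K (ptr F J ω) u * F.d ω u)) +
          (a' K (ptr F J ω) u - a (ptr F J ω) u) *
            (F.d ω u - bc (ptr F J ω) - b (ptr F J ω) y * F.d ω y) := by
        unfold ov
        ring
      rw [e2]
      have k1 := fl_lo (J := J) (x := Nv K - s) (s := s) hsJ
      have k2 := fl_lo (J := J) (x := Nu K - s) (s := s) hsJ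
      have q1 : |F.d ω v - c' K (ptr F J ω) - (a' K (ptr F J ω) y * F.d ω y +
            a' K (ptr F J ω) u * F.d ω u)| ≤ pw J (-M + 6 * s) :=
        (r1.trans k1).trans (pw_mono J (by linarith))
      have q2 : |(a' K (ptr F J ω) u - a (ptr F J ω) u) *
            (F.d ω u - bc (ptr F J ω) - b (ptr F J ω) y * F.d ω y)| ≤
            K * pw J (-M + 6 * s) := by
        rw [abs_mul]
        calc |a' K (ptr F J ω) u - a (ptr F J ω) u| *
            |F.d ω u - bc (ptr F J ω) - b (ptr F J ω) y * F.d ω y| ≤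
            (K * pw J (-(M - Nu K) + 4 * s)) * pw J (-(Nu K - s) + s) :=
              mul_le_mul r3' (r2.trans k2) (abs_nonneg _)
                (mul_nonneg (Nat.cast_nonneg K) (pw_pos _ _).le)
          _ = K * (pw J (-(M - Nu K) + 4 * s) * pw J (-(Nu K - s) + s)) := by ring
          _ ≤ K * pw J (-M + 6 * s) :=
              mul_le_mul_of_nonneg_left (pw_le J (by linarith)) (Nat.cast_nonneg K)
      have q3 : (K + 1 : ℝ) * pw J (-M + 6 * s) ≤ pw J (-(M - e')) := by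
        calc (K + 1 : ℝ) * pw J (-M + 6 * s) ≤ pw J s * pw J (-M + 6 * s) :=
              mul_le_mul_of_nonneg_right hKJ (pw_pos _ _).le
          _ ≤ pw J (-(M - e')) := pw_le J (by rw [hs]; linarith)
      have q4 := fl_out (J := J) (x := M - e') (by linarith)
      have q5 : (1 : ℝ) / 2 ^ ⌊(M - e') * (J : ℝ)⌋₊ ≤ 1 / 2 ^ ⌊(M - e) * (J : ℝ)⌋₊ :=
        one_div_le_one_div_of_le (by positivity) (pow_le_pow_right₀ (by norm_num)
          (Nat.floor_le_floor (mul_le_mul_of_nonneg_right (by linarith) hJ0)))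
      refine (abs_add_le _ _).trans (((add_le_add q1 q2).trans ?_).trans (q4.trans q5))
      refine le_trans (le_of_eq ?_) q3
      ring

/-- **The ladder of** `v` over `y`, `u`. -/
theorem lad_v {S : PCl m} {y u v : Fin m} (hyu : y ≠ u) {K : ℕ} {x Nu Nv : ℕ → ℝ}
    (hx : ∀ j < K, x j ≤ x (j + 1)) (hx1 : x K ≤ 1) (hNu : ∀ j ≤ K, 0 ≤ Nu j)
    (hNv : ∀ j < K, Nv j ≤ Nv (j + 1)) (hU : HasA S {y} u (x K) (Nu K + x K))
    (hV : ∀ j, 1 ≤ j → j ≤ K → HasA S {y, u} v (x j) (Nv j + x j))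
    (hcu : ∀ j, 1 ≤ j → j ≤ K → CfP S {y, u} (x j) (Nu j))
    {M : ℝ} (hM0 : 0 < M) (hMK : M ≤ Nv K) (hM : ∀ j < K, M ≤ Nv j - Nu (j + 1) + Nu K)
    {e h : ℝ} (he : 0 < e) (hh : 0 < h) : ∃ e₀ : ℝ, 0 < e₀ ∧ Bas S (fun J F A =>
      ∀ (n : ℕ) (a : PtT F → Fin m → ℝ) (c : PtT F → ℝ),
      ClA F A {y, u} v ⌊x 0 * J⌋₊ n ⌊(Nv 0 - e₀) * J⌋₊ a c →
      ∃ B : F.Ω → Prop, Sub B A ∧ (1 - h) * Pe F.p A ≤ Pe F.p B ∧ ∃ γ γc : PtT F → ℝ,
        MLb F B y (fun ω => F.d ω v - a (ptr F J ω) u * F.d ω u) ⌊x K * J⌋₊ ⌊(M - e) * J⌋₊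
          γ γc) := by
  obtain ⟨e₀, he₀, hb⟩ := lad_vC (e := e) (h := h) hyu hx hx1 hNu hNv (HasC.ofA hU)
    (fun j h1 h2 => HasC.ofA (hV j h1 h2)) hcu hM0 hMK hM he hh
  exact ⟨e₀, he₀, Bas.mono 0 hb fun J _ F A hA n a c hl => hA a c (LbC.of hl)⟩

/-! ### A target above `u`, `v` -/

/-- **The ladder of** `t` over `y`, `u`, `v`. -/
theorem lad_tC {S : PCl m} {y u v t : Fin m} (hyu : y ≠ u) (hyv : y ≠ v) (huv : u ≠ v) {K : ℕ}
    {x Nu Nv Nt : ℕ → ℝ} (hx : ∀ j < K, x j ≤ x (j + 1)) (hx1 : x K ≤ 1)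
    (hNu : ∀ j ≤ K, 0 ≤ Nu j) (hNv0 : ∀ j ≤ K, 0 ≤ Nv j) (hNv : ∀ j < K, Nv j ≤ Nv (j + 1))
    (hNt : ∀ j < K, Nt j ≤ Nt (j + 1)) (hU : HasC S {y} u (x K) (Nu K))
    (hV : ∀ j ≤ K, HasC S {y, u} v (x j) (Nv j))
    (hT : ∀ j, 1 ≤ j → j ≤ K → HasC S {y, u, v} t (x j) (Nt j))
    (hcu : ∀ j, 1 ≤ j → j ≤ K → CfP S {y, u} (x j) (Nu j))
    (hcv : ∀ j, 1 ≤ j → j ≤ K → CfP S {y, u, v} (x j) (Nv j))
    {M : ℝ} (hM0 : 0 < M) (hMK : M ≤ Nt K) (hMu : ∀ j < K, M ≤ Nt j - Nu (j + 1) + Nu K)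
    (hMv : ∀ j < K, M ≤ Nt j - Nv (j + 1) + Nv K)
    (hMM : ∀ j i, j < i → i < K → M ≤ Nt j - Nv (j + 1) + Nv i - Nu (i + 1) + Nu K)
    {e h : ℝ} (he : 0 < e) (hh : 0 < h) : ∃ e₀ : ℝ, 0 < e₀ ∧ Bas S (fun J F A =>
      ∀ (a : PtT F → Fin m → ℝ) (c : PtT F → ℝ),
      LbC F A {y, u, v} t ⌊x 0 * J⌋₊ ⌊(Nt 0 - e₀) * J⌋₊ a c →
      ∃ B : F.Ω → Prop, Sub B A ∧ (1 - h) * Pe F.p A ≤ Pe F.p B ∧ ∃ γ γc : PtT F → ℝ,
        MLb F B y (fun ω => F.d ω t - a (ptr F J ω) u * F.d ω u - a (ptr F J ω) v * F.d ω v)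
          ⌊x K * J⌋₊ ⌊(M - e) * J⌋₊ γ γc) := by
  have hI3 : ({y, u, v} : Finset (Fin m)) = insert v {y, u} := by
    ext k
    simp only [Finset.mem_insert, Finset.mem_singleton]
    tauto
  have hv : v ∉ ({y, u} : Finset (Fin m)) := by
    simp only [Finset.mem_insert, Finset.mem_singleton, not_or]
    exact ⟨fun h1 => hyv h1.symm, fun h1 => huv h1.symm⟩
  rw [hI3] at hT hcv ⊢
  obtain ⟨e', he'⟩ : ∃ e', e' = min e M := ⟨_, rfl⟩
  have he'0 : 0 < e' := by rw [he']; exact lt_min he hM0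
  have he'1 : e' ≤ e := by rw [he']; exact min_le_left _ _
  have he'2 : e' ≤ M := by rw [he']; exact min_le_right _ _
  obtain ⟨s, hs⟩ : ∃ s, s = e' / 11 := ⟨_, rfl⟩
  have hs0 : 0 < s := by rw [hs]; positivity
  obtain ⟨h', hh'⟩ : ∃ h', h' = h / (2 * K + 1) := ⟨_, rfl⟩
  have hh'0 : 0 < h' := by rw [hh']; positivity
  have hh'1 : 2 * (K : ℝ) * h' ≤ h := by
    rw [hh', mul_div_assoc', div_le_iff₀ (by positivity)]
    nlinarith
  obtain ⟨J₁, hJ₁⟩ := Pool.CHT.big 1 hs0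
  obtain ⟨J₂, hJ₂⟩ := const_pw 2 hs0
  obtain ⟨J₃, hJ₃⟩ := const_pw (1 + K + K * (1 + K) : ℝ) hs0
  have b0 := Bas.all (K + 1) (S := S) (Φ := fun j J F A => ∃ (a : PtT F → Fin m → ℝ)
    (c : PtT F → ℝ), LbC F A {y, u} v ⌊x j * J⌋₊ ⌊(Nv j - s) * J⌋₊ a c)
    fun j hj => hV j (by omega) s hs0
  have b1 := Bas.all K (S := S) (Φ := fun j J F A => ∃ (a : PtT F → Fin m → ℝ) (c : PtT F → ℝ),
    LbC F A (insert v {y, u}) t ⌊x (j + 1) * J⌋₊ ⌊(Nt (j + 1) - s) * J⌋₊ a c)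
    fun j hj => hT (j + 1) (by omega) (by omega) s hs0
  have b2 := Bas.all K (S := S) fun j hj => cf_pw (hNu (j + 1) (by omega))
    (hcu (j + 1) (by omega) (by omega)) hs0 hh'0
  have b3 := Bas.all K (S := S) fun j hj => rel_two hv (hNu (j + 1) (by omega))
    (hNv0 (j + 1) (by omega)) (hcu (j + 1) (by omega) (by omega))
    (hcv (j + 1) (by omega) (by omega)) hs0 hh'0
  refine ⟨s, hs0, Bas.mono (max J₁ (max J₂ J₃))
    (((b0.and b1).and (b2.and b3)).and (hU s hs0)) ?_⟩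
  rintro J hJ F A ⟨⟨⟨hA0, hA1⟩, hA2, hA3⟩, b, bc, hb⟩ a c hl
  have hsJ : 1 ≤ s * J := hJ₁ J ((le_max_left _ _).trans hJ)
  have h2J : 2 ≤ pw J s := hJ₂ J (((le_max_left _ _).trans (le_max_right _ _)).trans hJ)
  have hKJ : (1 + K + K * (1 + K) : ℝ) ≤ pw J s :=
    hJ₃ J (((le_max_right _ _).trans (le_max_right _ _)).trans hJ)
  have hJ0 : (0 : ℝ) ≤ J := Nat.cast_nonneg J
  choose! φ φc hφ using hA0
  choose! al cl hal using hA1
  obtain ⟨a', ha0, has⟩ : ∃ a' : ℕ → PtT F → Fin m → ℝ, a' 0 = a ∧ ∀ j, a' (j + 1) = al j :=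
    ⟨fun j => Nat.casesOn j a al, rfl, fun _ => rfl⟩
  obtain ⟨c', hc0, hcs⟩ : ∃ c' : ℕ → PtT F → ℝ, c' 0 = c ∧ ∀ j, c' (j + 1) = cl j :=
    ⟨fun j => Nat.casesOn j c cl, rfl, fun _ => rfl⟩
  have hlab : ∀ j ≤ K, LbC F A (insert v {y, u}) t ⌊x j * J⌋₊ ⌊(Nt j - s) * J⌋₊ (a' j)
      (c' j) := by
    intro j hj
    rcases j with _ | j
    · rw [ha0, hc0]
      exact hl
    · rw [has, hcs]
      exact hal j (by omega)
  have hwK : ∀ j ≤ K, ⌊x j * (J : ℝ)⌋₊ ≤ J := fun j hj =>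
    Nat.floor_le_of_le (by
      have h1 : x j ≤ 1 := (lad_win hx K le_rfl j hj).trans hx1
      nlinarith)
  have hww : ∀ j ≤ K, ∀ i ≤ j, ⌊x i * (J : ℝ)⌋₊ ≤ ⌊x j * (J : ℝ)⌋₊ := fun j hj i hi =>
    Nat.floor_le_floor (mul_le_mul_of_nonneg_right (lad_win hx j hj i hi) hJ0)
  have hprec : ∀ N N' : ℝ, N ≤ N' → (1 : ℝ) / 2 ^ ⌊(N - s) * (J : ℝ)⌋₊ +
      1 / 2 ^ ⌊(N' - s) * (J : ℝ)⌋₊ ≤ pw J (-N + 3 * s) := by
    intro N N' hN
    have k1 := fl_lo (J := J) (x := N - s) (s := s) hsJ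
    have k2 := fl_lo (J := J) (x := N' - s) (s := s) hsJ
    have k3 : pw J (-(N - s) + s) ≤ pw J (-N + 2 * s) := pw_mono J (by linarith)
    have k4 : pw J (-(N' - s) + s) ≤ pw J (-N + 2 * s) := pw_mono J (by linarith)
    have k5 : pw J (-N + 2 * s) * pw J s ≤ pw J (-N + 3 * s) := pw_le J (by linarith)
    have k6 : pw J (-N + 2 * s) * 2 ≤ pw J (-N + 2 * s) * pw J s :=
      mul_le_mul_of_nonneg_left h2J (pw_pos _ _).le
    linarith
  have huI : u ∈ ({y, u} : Finset (Fin m)) := by simp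
  have hyI : y ∈ ({y, u} : Finset (Fin m)) := by simp
  -- the slopes of `v`
  have hdv : ∀ j < K, ∃ B : F.Ω → Prop, Sub B A ∧ (1 - h') * Pe F.p A ≤ Pe F.p B ∧
      ∀ ω, B ω → |φ (j + 1) (ptr F J ω) u - φ j (ptr F J ω) u| ≤
        pw J (-(Nv j - Nu (j + 1)) + 4 * s) := by
    intro j hj
    have l1 := (hφ j (by omega)).win (hww (j + 1) (by omega) j (by omega))
      (hwK (j + 1) (by omega))
    have l2 := hφ (j + 1) (by omega)
    obtain ⟨B, c1, c2, c3⟩ := hA2 j hj (fun p k => φ (j + 1) p k - φ j p k)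
      (fun p => φc (j + 1) p - φc j p) (pw J (-(Nv j) + 3 * s)) (pw_pos _ _)
      (fun k hk => Cl1.map2 (fun x y => x - y) (l2.ca k hk) (l1.ca k hk))
      (Cl1.map2 (fun x y => x - y) l2.cc l1.cc) (fun ω hω =>
        (l1.dif l2 ω hω).trans (hprec _ _ (hNv j hj)))
    exact ⟨B, c1, c2, fun ω hω => (c3 ω hω u huI).trans (pw_le J (by linarith))⟩
  choose! Bv hBv1 hBv2 hBv3 using hdv
  -- the slopes of `t`
  have hdt : ∀ j < K, ∃ B : F.Ω → Prop, Sub B A ∧ (1 - h') * Pe F.p A ≤ Pe F.p B ∧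
      ∀ ω, B ω → |a' (j + 1) (ptr F J ω) v - a' j (ptr F J ω) v| ≤
        pw J (-(Nt j - Nv (j + 1)) + 4 * s) ∧
        |(a' (j + 1) (ptr F J ω) u - a' j (ptr F J ω) u) + (a' (j + 1) (ptr F J ω) v -
          a' j (ptr F J ω) v) * φ (j + 1) (ptr F J ω) u| ≤
          pw J (-(Nt j - Nu (j + 1)) + 8 * s) := by
    intro j hj
    have l1 := (hlab j (by omega)).win (hww (j + 1) (by omega) j (by omega))
      (hwK (j + 1) (by omega))
    have l2 := hlab (j + 1) (by omega)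
    obtain ⟨B, c1, c2, c3⟩ := hA3 j hj (φ (j + 1)) (φc (j + 1)) (hφ (j + 1) (by omega))
      (fun p k => a' (j + 1) p k - a' j p k)
      (fun p => c' (j + 1) p - c' j p) (pw J (-(Nt j) + 3 * s)) (pw_pos _ _)
      (fun k hk => Cl1.map2 (fun x y => x - y) (l2.ca k hk) (l1.ca k hk))
      (Cl1.map2 (fun x y => x - y) l2.cc l1.cc) (fun ω hω =>
        (l1.dif l2 ω hω).trans (hprec _ _ (hNt j hj)))
    refine ⟨B, c1, c2, fun ω hω => ⟨(c3 ω hω).1.trans (pw_le J (by linarith)), ?_⟩⟩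
    exact ((c3 ω hω).2 u huI).trans (pw_le J (by linarith))
  choose! Bt hBt1 hBt2 hBt3 using hdt
  have hPA : 0 ≤ Pe F.p A := Pe_nonneg F.isLaw A
  have hmv := pe_all F.isLaw (A := A) (h := h') K (B := Bv) fun j hj => ⟨hBv1 j hj, hBv2 j hj⟩
  have hmt := pe_all F.isLaw (A := A) (h := h') K (B := Bt) fun j hj => ⟨hBt1 j hj, hBt2 j hj⟩
  have hmass := pe_all F.isLaw (A := A) (h := K * h') 2
    (B := fun i ω => if i = 0 then (A ω ∧ ∀ j < K, Bv j ω) else (A ω ∧ ∀ j < K, Bt j ω))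
    (fun i hi => by
      rcases (by omega : i = 0 ∨ i = 1) with rfl | rfl
      · exact ⟨fun ω hω => hω.1, hmv⟩
      · exact ⟨fun ω hω => hω.1, hmt⟩)
  obtain ⟨B, hB⟩ : ∃ B : F.Ω → Prop, B = fun ω => A ω ∧ ∀ i < 2,
    (fun (i : ℕ) ω => if i = 0 then (A ω ∧ ∀ j < K, Bv j ω) else (A ω ∧ ∀ j < K, Bt j ω)) i ω :=
    ⟨_, rfl⟩
  rw [← hB] at hmass
  have hBA : Sub B A := fun ω hω => by
    rw [hB] at hω
    exact hω.1
  have hBv : ∀ ω, B ω → ∀ j < K, Bv j ω := fun ω hω => by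
    rw [hB] at hω
    exact (hω.2 0 (by norm_num)).2
  have hBt : ∀ ω, B ω → ∀ j < K, Bt j ω := fun ω hω => by
    rw [hB] at hω
    exact (hω.2 1 (by norm_num)).2
  have lK := hlab K le_rfl
  have l0 := (hlab 0 (Nat.zero_le K)).win (hww K le_rfl 0 (Nat.zero_le K)) (hwK K le_rfl)
  have fK := hφ K (by omega)
  rw [ha0] at l0
  have hyI3 : y ∈ insert v ({y, u} : Finset (Fin m)) := Finset.mem_insert_of_mem hyI
  have huI3 : u ∈ insert v ({y, u} : Finset (Fin m)) := Finset.mem_insert_of_mem huI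
  have hvI3 : v ∈ insert v ({y, u} : Finset (Fin m)) := Finset.mem_insert_self _ _
  have hyI' : y ∈ ({y} : Finset (Fin m)) := by simp
  have cβ := Cl1.map2 (fun x y => x - y) (lK.ca v hvI3) (l0.ca v hvI3)
  have cα := Cl1.map2 (fun x y => x + y)
    (Cl1.map2 (fun x y => x - y) (lK.ca u huI3) (l0.ca u huI3))
    (Cl1.map2 (fun x y => x * y) cβ (fK.ca u huI))
  refine ⟨B, hBA, ?_,
    fun p => (a' K p y + (a' K p v - a p v) * φ K p y) +
      ((a' K p u - a p u) + (a' K p v - a p v) * φ K p u) * b p y,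
    fun p => (c' K p + (a' K p v - a p v) * φc K p) +
      ((a' K p u - a p u) + (a' K p v - a p v) * φ K p u) * bc p, ?_⟩
  · have k1 : (1 - h) * Pe F.p A ≤ (1 - 2 * (K * h')) * Pe F.p A :=
      mul_le_mul_of_nonneg_right (by linarith) hPA
    refine k1.trans ?_
    simpa using hmass
  · refine ⟨?_, ?_, fun ω hω => ?_⟩
    · exact (Cl1.map2 (fun x y => x + y) (Cl1.map2 (fun x y => x + y) (lK.ca y hyI3)
        (Cl1.map2 (fun x y => x * y) cβ (fK.ca y hyI)))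
        (Cl1.map2 (fun x y => x * y) cα (hb.ca y hyI'))).sub hBA
    · exact (Cl1.map2 (fun x y => x + y) (Cl1.map2 (fun x y => x + y) lK.cc
        (Cl1.map2 (fun x y => x * y) cβ fK.cc))
        (Cl1.map2 (fun x y => x * y) cα hb.cc)).sub hBA
    · have hωA := hBA ω hω
      have r1 := lK.rep ω hωA
      have r2 := fK.rep ω hωA
      have r3 := hb.rep ω hωA
      rw [Finset.sum_insert hv, Finset.sum_pair hyu] at r1
      rw [Finset.sum_pair hyu] at r2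
      rw [Finset.sum_singleton] at r3
      have ea : ∀ k, a (ptr F J ω) k = a' 0 (ptr F J ω) k := fun k => by rw [ha0]
      obtain ⟨V, hVd⟩ : ∃ V, V = pw J (-(M - Nv K) + 4 * s) := ⟨_, rfl⟩
      obtain ⟨U, hUd⟩ : ∃ U, U = pw J (-(M - Nu K) + 8 * s) := ⟨_, rfl⟩
      have hV0 : 0 < V := by rw [hVd]; exact pw_pos _ _
      have hU0 : 0 < U := by rw [hUd]; exact pw_pos _ _
      have t1 : |a' K (ptr F J ω) v - a (ptr F J ω) v| ≤ K * V := by
        rw [ea]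
        refine tel_one (fun j => a' j (ptr F J ω) v) V K fun j hj => ?_
        refine (hBt3 j hj ω (hBt ω hω j hj)).1.trans ?_
        rw [hVd]
        have := hMv j hj
        exact pw_mono J (by linarith)
      have t2 : |(a' K (ptr F J ω) u - a (ptr F J ω) u) + (a' K (ptr F J ω) v -
          a (ptr F J ω) v) * φ K (ptr F J ω) u| ≤ K * ((1 + K) * U) := by
        rw [ea, ea]
        refine tel_two (fun j => a' j (ptr F J ω) u) (fun j => a' j (ptr F J ω) v)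
          (fun j => φ j (ptr F J ω) u) hU0.le K (fun j hj => ?_) (fun j i hji hi => ?_) K le_rfl
        · refine (hBt3 j hj ω (hBt ω hω j hj)).2.trans ?_
          rw [hUd]
          have := hMu j hj
          exact pw_mono J (by linarith)
        · have g1 := (hBt3 j (by omega) ω (hBt ω hω j (by omega))).1
          have g2 := hBv3 i hi ω (hBv ω hω i hi)
          refine (mul_le_mul g1 g2 (abs_nonneg _) (pw_pos _ _).le).trans ?_
          rw [hUd]
          have := hMM j i hji hi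
          exact pw_le J (by linarith)
      have e2 : ov F y (fun ω => F.d ω t - a (ptr F J ω) u * F.d ω u -
            a (ptr F J ω) v * F.d ω v)
          (fun p => (a' K p y + (a' K p v - a p v) * φ K p y) +
            ((a' K p u - a p u) + (a' K p v - a p v) * φ K p u) * b p y)
          (fun p => (c' K p + (a' K p v - a p v) * φc K p) +
            ((a' K p u - a p u) + (a' K p v - a p v) * φ K p u) * bc p) ω =
          (F.d ω t - c' K (ptr F J ω) - (a' K (ptr F J ω) v * F.d ω v +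
            (a' K (ptr F J ω) y * F.d ω y + a' K (ptr F J ω) u * F.d ω u))) +
          ((a' K (ptr F J ω) v - a (ptr F J ω) v) *
            (F.d ω v - φc K (ptr F J ω) - (φ K (ptr F J ω) y * F.d ω y +
              φ K (ptr F J ω) u * F.d ω u)) +
          ((a' K (ptr F J ω) u - a (ptr F J ω) u) + (a' K (ptr F J ω) v -
            a (ptr F J ω) v) * φ K (ptr F J ω) u) *
            (F.d ω u - bc (ptr F J ω) - b (ptr F J ω) y * F.d ω y)) := by
        unfold ov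
        ring
      rw [e2]
      have k1 := fl_lo (J := J) (x := Nt K - s) (s := s) hsJ
      have k2 := fl_lo (J := J) (x := Nv K - s) (s := s) hsJ
      have k3 := fl_lo (J := J) (x := Nu K - s) (s := s) hsJ
      have hK0 : (0 : ℝ) ≤ K := Nat.cast_nonneg K
      have q1 := (r1.trans k1).trans
        (pw_mono J (show -(Nt K - s) + s ≤ -M + 10 * s by linarith))
      have q2 : |(a' K (ptr F J ω) v - a (ptr F J ω) v) *
            (F.d ω v - φc K (ptr F J ω) - (φ K (ptr F J ω) y * F.d ω y +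
              φ K (ptr F J ω) u * F.d ω u))| ≤ K * pw J (-M + 10 * s) := by
        rw [abs_mul]
        refine (mul_le_mul t1 (r2.trans k2) (abs_nonneg _) (by positivity)).trans ?_
        rw [mul_assoc, hVd]
        exact mul_le_mul_of_nonneg_left (pw_le J (by linarith)) hK0
      have q3 : |((a' K (ptr F J ω) u - a (ptr F J ω) u) + (a' K (ptr F J ω) v -
            a (ptr F J ω) v) * φ K (ptr F J ω) u) *
            (F.d ω u - bc (ptr F J ω) - b (ptr F J ω) y * F.d ω y)| ≤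
            K * (1 + K) * pw J (-M + 10 * s) := by
        rw [abs_mul]
        refine (mul_le_mul t2 (r3.trans k3) (abs_nonneg _) (by positivity)).trans ?_
        rw [← mul_assoc, mul_assoc, hUd]
        exact mul_le_mul_of_nonneg_left (pw_le J (by linarith)) (by positivity)
      have q4 : (1 + K + K * (1 + K) : ℝ) * pw J (-M + 10 * s) ≤ pw J (-(M - e')) := by
        calc (1 + K + K * (1 + K) : ℝ) * pw J (-M + 10 * s) ≤ pw J s * pw J (-M + 10 * s) :=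
              mul_le_mul_of_nonneg_right hKJ (pw_pos _ _).le
          _ ≤ pw J (-(M - e')) := pw_le J (by rw [hs]; linarith)
      have q5 := fl_out (J := J) (x := M - e') (by linarith)
      have q6 : (1 : ℝ) / 2 ^ ⌊(M - e') * (J : ℝ)⌋₊ ≤ 1 / 2 ^ ⌊(M - e) * (J : ℝ)⌋₊ :=
        one_div_le_one_div_of_le (by positivity) (pow_le_pow_right₀ (by norm_num)
          (Nat.floor_le_floor (mul_le_mul_of_nonneg_right (by linarith) hJ0)))
      refine (abs_add_le _ _).trans (((add_le_add q1 ((abs_add_le _ _).trans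
        (add_le_add q2 q3))).trans ?_).trans (q5.trans q6))
      refine le_trans (le_of_eq ?_) q4
      ring

/-- **The ladder of** `t` over `y`, `u`, `v`. -/
theorem lad_t {S : PCl m} {y u v t : Fin m} (hyu : y ≠ u) (hyv : y ≠ v) (huv : u ≠ v) {K : ℕ}
    {x Nu Nv Nt : ℕ → ℝ} {E : ℝ} (hx : ∀ j < K, x j ≤ x (j + 1)) (hx1 : x K ≤ 1)
    (hNu : ∀ j ≤ K, 0 ≤ Nu j) (hNv0 : ∀ j ≤ K, 0 ≤ Nv j) (hNv : ∀ j < K, Nv j ≤ Nv (j + 1))
    (hNt : ∀ j < K, Nt j ≤ Nt (j + 1)) (hU : HasA S {y} u (x K) (Nu K + x K))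
    (hV : ∀ j ≤ K, HasA S {y, u} v (x j) (Nv j + x j))
    (hT : ∀ j, 1 ≤ j → j ≤ K → HasB S {y, u, v} t (x j) (Nt j + x j) E)
    (hcu : ∀ j, 1 ≤ j → j ≤ K → CfP S {y, u} (x j) (Nu j))
    (hcv : ∀ j, 1 ≤ j → j ≤ K → CfP S {y, u, v} (x j) (Nv j))
    {M : ℝ} (hM0 : 0 < M) (hMK : M ≤ Nt K) (hMu : ∀ j < K, M ≤ Nt j - Nu (j + 1) + Nu K)
    (hMv : ∀ j < K, M ≤ Nt j - Nv (j + 1) + Nv K)
    (hMM : ∀ j i, j < i → i < K → M ≤ Nt j - Nv (j + 1) + Nv i - Nu (i + 1) + Nu K)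
    {e h : ℝ} (he : 0 < e) (hh : 0 < h) : ∃ e₀ : ℝ, 0 < e₀ ∧ Bas S (fun J F A =>
      ∀ (n : ℕ) (a : PtT F → Fin m → ℝ) (c : PtT F → ℝ),
      ClA F A {y, u, v} t ⌊x 0 * J⌋₊ n ⌊(Nt 0 - e₀) * J⌋₊ a c →
      ∃ B : F.Ω → Prop, Sub B A ∧ (1 - h) * Pe F.p A ≤ Pe F.p B ∧ ∃ γ γc : PtT F → ℝ,
        MLb F B y (fun ω => F.d ω t - a (ptr F J ω) u * F.d ω u - a (ptr F J ω) v * F.d ω v)
          ⌊x K * J⌋₊ ⌊(M - e) * J⌋₊ γ γc) := by
  obtain ⟨e₀, he₀, hb⟩ := lad_tC (e := e) (h := h) (t := t) hyu hyv huv hx hx1 hNu hNv0 hNv hNt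
    (HasC.ofA hU) (fun j h1 => HasC.ofA (hV j h1)) (fun j h1 h2 => HasC.ofB (hT j h1 h2)) hcu hcv
    hM0 hMK hMu hMv hMM he hh
  exact ⟨e₀, he₀, Bas.mono 0 hb fun J _ F A hA n a c hl => hA a c (LbC.of hl)⟩

end Pool.ONE91
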