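import Pool.Agent.H91.ONE.Nea1
import Pool.Agent.H72.KE.Lbs

/-!
# The labels of the base near a window, also for equal slopes

`gs_eq`: at a good window the number of the unit ball is the diagonal. `gs_srt`: the diagonals of
the base are sorted at a good window. The other proofs are those of helper72 (H72/KE/Lbs).
-/

set_option autoImplicit false

namespace Pool.ONE91

open Finset
open Pool.Agent.H49.Ent Pool.Agent.H32.Dense Pool.STK Pool.KA Pool.KSAT Pool.K2S Pool.PB Pool.GEN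
open Pool.S6C Pool.GRW Pool.PKG Pool.OWN72
open Pool.TOP (TopS)
open Pool.CHT
open Pool.MIC6 (ActF)
open Pool.LA91 (Ful FulC)

variable {n : ℕ} {hn : 2 ≤ n} {S : PCl n} {P : ℝ → ℝ → ℝ} {rr : ℝ → ℝ}
  {P' : ℕ → List (Fin n) × Fin n → ℝ → ℝ → ℝ} {Λ : Finset (Fin n) → Fin n → ℝ → ℝ → ℝ}

theorem Nea1.big {G G' : Set ℝ} {o : Od n} {c g ρ d : ℝ} (h : Nea1 hn P P' G o c g ρ d)
    (hG : G ⊆ G') : Nea1 hn P P' G' o c g ρ d :=
  ⟨h.d0, h.c0, h.c1, h.cg, h.g1, h.slo, h.dlo, h.dhi, fun x y h1 h2 h3 => by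
    obtain ⟨a, ha, h4⟩ := h.den x y h1 h2 h3
    exact ⟨a, hG ha, h4⟩, h.lin, h.ρc, h.dρ⟩

section law

variable {o : Od n} {c g ρ d : ℝ}

/-- **The numbers of the base near a window.** -/
theorem nea1_law (H : Pk hn S P rr P' Λ) (hTop : TopS n) (hF : FZX (n - 1)) (hn4 : n ≤ 4)
    (h : Nea1 hn P P' (Gs P rr P' Λ o) o c g ρ d) {l : ℕ} (h1 : 1 ≤ l) (h2 : l < n - 1) {w : ℝ}
    (hw : |w - g| + 8 / c ^ 2 * d ≤ ρ) :
    |Λ (img (cc hn o.1.1) l) (cc hn o.1.1 l) w 0 - tl hn P P' o g l w| ≤ 8 / c ^ 2 * d := by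
  have hd := h.d0
  have hc := h.c0
  obtain ⟨t1, t2, t3, t4, t5, t6⟩ := h.two
  have hκ0 : 0 < 2 / c * d * 3 / c := by positivity
  have e8 : 4 / c * d = 2 * (2 / c * d) := by ring
  have hκ1 : 0 < 2 / c * d := by positivity
  have hup := nea1_up H hTop hF h h1 h2 (w := w) (by linarith)
  have hlo : tl hn P P' o g l w - 4 / c * d ≤
      Λ (img (cc hn o.1.1) l) (cc hn o.1.1 l) w 0 := by
    have h3 : l = 1 ∨ l = 2 := by omega
    rcases h3 with rfl | rfl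
    · have := nea1_lo1 H hTop hF h h2 (w := w) (by linarith)
      rw [img_one]
      linarith
    · have := nea1_lo2 H hTop hF h h2 hw
      rw [img_two]
      exact this
  rw [abs_le]
  constructor <;> linarith

/-- **The growth of the numbers of the base.** -/
theorem grf1_of (H : Pk hn S P rr P' Λ) (hTop : TopS n) (hF : FZX (n - 1)) (hn4 : n ≤ 4)
    (h : Nea1 hn P P' (Gs P rr P' Λ o) o c g ρ d) {Wd : Set ℝ} {v R Δ Pm : ℝ}
    (hv : |v - g| + 8 / c ^ 2 * d ≤ ρ) (hvR : |v + R - g| + 8 / c ^ 2 * d ≤ ρ)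
    (hden : ∀ x y : ℝ, v ≤ x → x + d ≤ y → y ≤ v + R → ∃ a ∈ Wd, x < a ∧ a < y)
    (hΔ : Pm + 17 / c ^ 2 * d ≤ c * (Δ - d)) (hP0 : 0 ≤ Pm) :
    GrF Λ (cc hn o.1.1) (n - 1) Wd v R Pm Δ where
  hlw w h1 h2 l a1 a2 := by
    have hd := h.d0
    have hc := h.c0
    obtain ⟨t1, t2, t3, t4, t5, t6⟩ := h.two
    have hw : |w - g| + 8 / c ^ 2 * d ≤ ρ := by
      have h3 := (abs_le.1 (show |v - g| ≤ ρ - 8 / c ^ 2 * d by linarith)).1
      have h4 := (abs_le.1 (show |v + R - g| ≤ ρ - 8 / c ^ 2 * d by linarith)).2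
      have : |w - g| ≤ ρ - 8 / c ^ 2 * d := by rw [abs_le]; constructor <;> linarith
      linarith
    have h5 : 0 < 8 / c ^ 2 * d := by positivity
    have h6 := (abs_le.1 (nea1_law H hTop hF hn4 h a1 a2 hw)).1
    have h7 := h.tl_lo a1 a2.le (w := w) (by linarith)
    linarith
  nx l a1 a2 w h1 h2 := by
    have hd := h.d0
    have hc := h.c0
    have hκ : 0 < 1 / c ^ 2 * d := by positivity
    have hcd : c * (Δ - d) > 0 := by
      have : 0 < 17 / c ^ 2 * d := by positivity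
      linarith
    have hΔ0 : 0 < Δ - d := pos_of_mul_pos_right hcd hc.le
    obtain ⟨a, ha, ha1, ha2⟩ := hden (w + Δ - d) (w + Δ) (by linarith) (by linarith) h2
    refine ⟨a, ha, by linarith, ha2, ?_⟩
    have hball : ∀ x, v ≤ x → x ≤ v + R → |x - g| + 8 / c ^ 2 * d ≤ ρ := by
      intro x hx1 hx2
      have h3 := (abs_le.1 (show |v - g| ≤ ρ - 8 / c ^ 2 * d by linarith)).1
      have h4 := (abs_le.1 (show |v + R - g| ≤ ρ - 8 / c ^ 2 * d by linarith)).2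
      have : |x - g| ≤ ρ - 8 / c ^ 2 * d := by rw [abs_le]; constructor <;> linarith
      linarith
    have h6 := (abs_le.1 (nea1_law H hTop hF hn4 h a1 a2 (hball w h1 (by linarith)))).2
    have h7 := (abs_le.1 (nea1_law H hTop hF hn4 h a1 a2 (hball a (by linarith)
      (by linarith)))).1
    have h8 := (h.tl_step a1 a2.le (show w ≤ a by linarith)).1
    have h9 : c * (Δ - d) ≤ c * (a - w) := mul_le_mul_of_nonneg_left (by linarith) hc.le
    have e1 : (1 + c) * (a - w) = (a - w) + c * (a - w) := by ring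
    have e2 : 17 / c ^ 2 * d = 17 * (1 / c ^ 2 * d) := by ring
    have e3 : 8 / c ^ 2 * d = 8 * (1 / c ^ 2 * d) := by ring
    linarith

/-- At the good windows where the numbers are continuous the numbers of the unit balls are those of
the order. -/
theorem gs_num1 (H : Pk hn S P rr P' Λ) (hTop : TopS n) (hF : FZX (n - 1)) (hn4 : n ≤ 4)
    (h : Nea1 hn P P' (Gs P rr P' Λ o) o c g ρ d) {w : ℝ} (hG : w ∈ Gs P rr P' Λ o)
    (hC : w ∈ Ctw Λ) (hw : |w - g| + 8 / c ^ 2 * d ≤ ρ) {l : ℕ} (h1 : 1 ≤ l)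
    (h2 : l < n - 1) : vs Λ (epo hn o) w (l + 1) ≤
      Λ (img (cc hn o.1.1) l) (cc hn o.1.1 l) w 0 := by
  have hd := h.d0
  have hc := h.c0
  obtain ⟨t1, t2, t3, t4, t5, t6⟩ := h.two
  have hκ0 : 0 < 2 / c * d * 3 / c := by positivity
  have e8 : 4 / c * d = 2 * (2 / c * d) := by ring
  have hκ1 : 0 < 2 / c * d := by positivity
  have hw1 := hG.1.1.2.1
  have hw0 := hG.1.1.1
  -- the number of the order is continuous
  have hcont : ContinuousAt (fun v => vs Λ (epo hn o) v (l + 1)) w := by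
    have h3 := hG.1.1.2.2.2 (⟨l, h2⟩ : Fin (n - 1)) (epo hn o ⟨l, h2⟩)
    refine h3.congr (Filter.Eventually.of_forall fun v => ?_)
    exact (vs_succ Λ (epo hn o) v ⟨l, h2⟩).symm
  refine le_of_forall_pos_le_add fun ε hε => ?_
  obtain ⟨W', hW0, hW1, hW2⟩ := Pool.PRV.lc_of hw0 hcont ε hε
  refine hW2.trans (add_le_add ?_ le_rfl)
  rw [vs_img o W' h2]
  have h3 : l = 1 ∨ l = 2 := by omega
  rcases h3 with rfl | rfl
  · rw [vse_one H o hW0 (hW1.trans hw1), img_one]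
    exact Pool.MIC6.ng_diag H.ne (by norm_num) H.tmc H.lam (gs_act H o) hW0 hW1
  · obtain ⟨a₀, a₁, c1, c2, c3, c4⟩ := nea1_gro H hTop hF h (W := w) (by omega) (by linarith)
    have hlo := nea1_lo1 H hTop hF h (by omega) (w := w) (by linarith)
    have hup := nea1_up H hTop hF h (l := 1) le_rfl (by omega) (w := w) (by linarith)
    rw [img_one] at hup
    have k1 := h.tl_lo (l := 1) le_rfl (by omega) (w := w) (by linarith)
    have k2 := h.tl_hi (l := 1) le_rfl (by omega) (w := w) (by linarith)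
    rw [img_two]
    exact Pool.MIC6.ng_id2 H.ne (by norm_num) H.tmc H.lam (fun h => by
      have := cc_inj' hn o.1.1 (i := 0) (j := 1) (by omega) (by omega) h
      omega) (gs_act H o) hW1 hw0 (hC _ _) (by linarith) (by linarith) c1 c2 c4

/-- **The number of the unit ball is the diagonal**, at a good window. -/
theorem gs_eq (H : Pk hn S P rr P' Λ) (hTop : TopS n) (hF : FZX (n - 1)) (hn4 : n ≤ 4)
    (h : Nea1 hn P P' (Gs P rr P' Λ o) o c g ρ d) {w : ℝ} (hG : w ∈ Gs P rr P' Λ o)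
    (hC : w ∈ Ctw Λ) (hw : |w - g| + 8 / c ^ 2 * d ≤ ρ) {l : ℕ} (h1 : 1 ≤ l)
    (h2 : l < n - 1) : Λ (img (cc hn o.1.1) l) (cc hn o.1.1 l) w 0 = dgN hn P P' o l w := by
  refine le_antisymm (nlw_up H hTop hF hG le_rfl h2) ?_
  rw [gs_vs H hTop hF hG h2]
  exact gs_num1 H hTop hF hn4 h hG hC hw h1 h2

/-- **The precisions of the closed labels are sorted**, at a good window. -/
theorem vs_srt (H : Pk hn S P rr P' Λ) {w : ℝ} (hG : w ∈ Gs P rr P' Λ o) :
    ∀ l : ℕ, l < n - 1 → vs Λ (epo hn o) w l ≤ vs Λ (epo hn o) w (l + 1)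
  | 0, _ => le_vs H.lam (epo hn o) hG.1.1.2.1.le 1
  | l + 1, h2 => by
    have ih := vs_srt H hG l (by omega)
    have h0 := hG.1.1.2.2.1 (⟨l, by omega⟩ : Fin (n - 1)) ⟨l + 1, h2⟩ (by
      show l ≤ l + 1
      omega)
    have h3 : vs Λ (epo hn o) w (l + 1) ≤
        vn Λ (epo hn o) ⟨l, by omega⟩ (epo hn o ⟨l + 1, h2⟩) w := h0
    rw [vn_img] at h3
    refine h3.trans ?_
    rw [vs_img o w h2]
    refine H.lam.mono _ _ _ _ _ _ _ ?_ le_rfl ih
    unfold img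
    exact Finset.image_subset_image (by
      intro x hx
      rw [Finset.mem_range] at hx ⊢
      omega)

/-- **The diagonals are sorted**, at a good window. -/
theorem gs_srt (H : Pk hn S P rr P' Λ) (hTop : TopS n) (hF : FZX (n - 1)) {w : ℝ}
    (hG : w ∈ Gs P rr P' Λ o) {l : ℕ} (h2 : l + 1 < n - 1) :
    dgN hn P P' o l w ≤ dgN hn P P' o (l + 1) w := by
  rw [gs_vs H hTop hF hG (by omega), gs_vs H hTop hF hG h2]
  exact vs_srt H hG (l + 1) h2

/-- **The chain of the base.** -/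
theorem afe1_of (H : Pk hn S P rr P' Λ) (hTop : TopS n) (hF : FZX (n - 1)) (hn4 : n ≤ 4)
    (h : Nea1 hn P P' (Gs P rr P' Λ o) o c g ρ d) {S₁ : PCl n}
    (hsub : ∀ (τ : ℝ) (J : ℕ) (F : Fam n J) (A : F.Ω → Prop), S₁.St τ J F A → S.St τ J F A)
    {Wd : Set ℝ} (hGC : Wd ⊆ Gs P rr P' Λ o ∩ Ctw Λ)
    (hW : ∀ w ∈ Wd, |w - g| + 8 / c ^ 2 * d ≤ ρ)
    (hlab : ∀ w ∈ Wd, ∀ l, 1 ≤ l → l < n - 1 → HasA S₁ (img (cc hn o.1.1) l) (cc hn o.1.1 l) w
      (Λ (img (cc hn o.1.1) l) (cc hn o.1.1 l) w 0)) :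
    AfE S₁ Λ (cc hn o.1.1) (n - 1) Wd where
  inj := cc_inj3 o
  act := ActF.subc hsub (gs_act H o)
  win w hw := ⟨(hGC hw).1.1.1.1.le, (hGC hw).1.1.1.2.1⟩
  low w hw l _ _ := H.lam.low _ _ _ _ (hGC hw).1.1.1.2.1.le
  up w hw l h1 h2 := by
    have h3 := (abs_le.1 (nea1_law H hTop hF hn4 h h1 h2 (hW w hw))).2
    obtain ⟨t1, t2, t3, t4, t5, t6⟩ := h.two
    have hd := h.d0
    have hc := h.c0
    have h5 : 0 < 8 / c ^ 2 * d := by positivity
    have h4 := h.tl_hi h1 h2.le (w := w) (by linarith [hW w hw])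
    linarith
  srt w hw l h1 h2 := by
    rw [gs_eq H hTop hF hn4 h (hGC hw).1 (hGC hw).2 (hW w hw) h1 (by omega),
      gs_eq H hTop hF hn4 h (hGC hw).1 (hGC hw).2 (hW w hw) (by omega) h2]
    exact gs_srt H hTop hF (hGC hw).1 h2
  lab := hlab

/-- **Fullness of the other coordinates** at the good windows. -/
theorem gs_fulC1 (H : Pk hn S P rr P' Λ) (hTop : TopS n) (hF : FZX (n - 1)) (hn4 : n ≤ 4)
    (h : Nea1 hn P P' (Gs P rr P' Λ o) o c g ρ d) {w : ℝ} (hG : w ∈ Gs P rr P' Λ o)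
    (hC : w ∈ Ctw Λ) (hw : |w - g| + 8 / c ^ 2 * d ≤ ρ) {σ : ℕ → ℝ}
    (hσ : ∀ l, 1 ≤ l → l < n - 1 → σ l = Λ (img (cc hn o.1.1) l) (cc hn o.1.1 l) w 0) :
    FulC S (cc hn o.1.1) 1 (n - 1) w σ := by
  intro ρ' hρ'
  have hl2 : 0 < Real.log 2 := Real.log_pos one_lt_two
  refine Bas.mono 0 (vst_crd H.pos H.lam (cc_epo (hn := hn) o) hG.1.1.1 hG.1.1.2.1
    hG.1.1.2.2.1 hG.1.1.2.2.2 (gs_exa H hF hG) hρ') fun J _ F A hf V z z' hz i h1 h2 => ?_
  refine le_trans ?_ (hf V z z' hz i h2)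
  have h3 := gs_num1 H hTop hF hn4 h hG hC hw h1 h2
  rw [hσ i h1 h2]
  refine mul_le_mul_of_nonneg_right (mul_le_mul_of_nonneg_right ?_ hl2.le) (Nat.cast_nonneg J)
  linarith

end law

end Pool.ONE91
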