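import Pool.Agent.H72.KE.Nea

/-!
# The numbers near a window with linear diagonals, also for equal slopes

`Nea1`: `Nea` (helper72) without the gap between the diagonals and without different slopes. The
proofs are those of helper72 (H72/KE/Nea).
-/

set_option autoImplicit false

namespace Pool.ONE91

open Finset
open Pool.Agent.H49.Ent Pool.Agent.H32.Dense Pool.STK Pool.KA Pool.KSAT Pool.K2S Pool.PB Pool.GEN
open Pool.S6C Pool.GRW Pool.PKG Pool.OWN72
open Pool.TOP (TopS)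
open Pool.CHT
open Pool.MIC6 (ActF)

variable {n : ℕ} {hn : 2 ≤ n} {S : PCl n} {P : ℝ → ℝ → ℝ} {rr : ℝ → ℝ}
  {P' : ℕ → List (Fin n) × Fin n → ℝ → ℝ → ℝ} {Λ : Finset (Fin n) → Fin n → ℝ → ℝ → ℝ}

/-- **The facts near a window.** -/
structure Nea1 (hn : 2 ≤ n) (P : ℝ → ℝ → ℝ) (P' : ℕ → List (Fin n) × Fin n → ℝ → ℝ → ℝ)
    (G : Set ℝ) (o : Od n) (c g ρ d : ℝ) : Prop where
  d0 : 0 < d
  c0 : 0 < c
  c1 : c ≤ 1
  cg : c ≤ g
  g1 : g + c ≤ 1
  slo : ∀ l, 1 ≤ l → l ≤ n - 1 → 1 + c ≤ slN hn P P' o l g ∧ c * slN hn P P' o l g ≤ 1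
  dlo : ∀ l, 1 ≤ l → l ≤ n - 1 → g + c ≤ dgN hn P P' o l g
  dhi : ∀ l, 1 ≤ l → l ≤ n - 1 → dgN hn P P' o l g + c ≤ 1
  den : ∀ x y : ℝ, |x - g| ≤ ρ → |y - g| ≤ ρ → x + d ≤ y → ∃ a ∈ G, x < a ∧ a < y
  lin : ∀ l ≤ n - 1, ∀ w : ℝ, |w - g| ≤ ρ → |dgN hn P P' o l w - tl hn P P' o g l w| ≤ d
  ρc : 8 * ρ ≤ c ^ 2
  dρ : 16 * d ≤ c ^ 2 * ρ

section

variable {G : Set ℝ} {o : Od n} {c g ρ d : ℝ}

/-- A slope is at most `1 / c`. -/
theorem Nea1.slc (h : Nea1 hn P P' G o c g ρ d) {l : ℕ} (h1 : 1 ≤ l) (h2 : l ≤ n - 1) :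
    slN hn P P' o l g ≤ 1 / c := by
  rw [le_div_iff₀ h.c0]
  linarith [(h.slo l h1 h2).2, mul_comm (slN hn P P' o l g) c]

/-- The lines. -/
theorem Nea1.tl_step (h : Nea1 hn P P' G o c g ρ d) {l : ℕ} (h1 : 1 ≤ l) (h2 : l ≤ n - 1)
    {x y : ℝ} (hxy : x ≤ y) : tl hn P P' o g l x + (1 + c) * (y - x) ≤ tl hn P P' o g l y ∧
      tl hn P P' o g l y ≤ tl hn P P' o g l x + (y - x) / c := by
  have h3 := (h.slo l h1 h2).1
  have h4 := h.slc h1 h2
  have h5 : 0 ≤ y - x := by linarith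
  unfold tl
  constructor
  · have := mul_le_mul_of_nonneg_right h3 h5
    linarith
  · have := mul_le_mul_of_nonneg_right h4 h5
    have e : 1 / c * (y - x) = (y - x) / c := by ring
    linarith

theorem Nea1.tl_lo (h : Nea1 hn P P' G o c g ρ d) {l : ℕ} (h1 : 1 ≤ l) (h2 : l ≤ n - 1)
    {w : ℝ} (hw : |w - g| ≤ ρ) : w + 3 * c / 4 ≤ tl hn P P' o g l w := by
  have h3 := h.dlo l h1 h2
  have h6 := (h.slo l h1 h2).1
  have hc := h.c0
  have h7 := h.slc h1 h2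
  have h8 := h.ρc
  obtain ⟨h9, h10⟩ := abs_le.1 hw
  have hρ : 0 ≤ ρ := (abs_nonneg _).trans hw
  have key : -(c / 8) ≤ (slN hn P P' o l g - 1) * (w - g) := by
    have h11 : (slN hn P P' o l g - 1) * (-ρ) ≤ (slN hn P P' o l g - 1) * (w - g) :=
      mul_le_mul_of_nonneg_left h9 (by linarith)
    have h12 : (slN hn P P' o l g - 1) * ρ ≤ 1 / c * ρ :=
      mul_le_mul_of_nonneg_right (by linarith) hρ
    have h13 : 1 / c * ρ ≤ c / 8 := by
      rw [div_mul_eq_mul_div, one_mul, div_le_iff₀ hc]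
      have : c ^ 2 = c * c := by ring
      linarith
    have e : (slN hn P P' o l g - 1) * (-ρ) = -((slN hn P P' o l g - 1) * ρ) := by ring
    linarith
  have e : (slN hn P P' o l g - 1) * (w - g) = slN hn P P' o l g * (w - g) - (w - g) := by ring
  unfold tl
  linarith

theorem Nea1.tl_hi (h : Nea1 hn P P' G o c g ρ d) {l : ℕ} (h1 : 1 ≤ l) (h2 : l ≤ n - 1)
    {w : ℝ} (hw : |w - g| ≤ ρ) : tl hn P P' o g l w + 3 * c / 4 ≤ 1 := by
  have h3 := h.dhi l h1 h2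
  have h6 := (h.slo l h1 h2).1
  have hc := h.c0
  have h7 := h.slc h1 h2
  have h8 := h.ρc
  obtain ⟨h9, h10⟩ := abs_le.1 hw
  have hρ : 0 ≤ ρ := (abs_nonneg _).trans hw
  have key : slN hn P P' o l g * (w - g) ≤ c / 8 := by
    have h11 : slN hn P P' o l g * (w - g) ≤ slN hn P P' o l g * ρ :=
      mul_le_mul_of_nonneg_left h10 (by linarith)
    have h12 : slN hn P P' o l g * ρ ≤ 1 / c * ρ := mul_le_mul_of_nonneg_right h7 hρ
    have h13 : 1 / c * ρ ≤ c / 8 := by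
      rw [div_mul_eq_mul_div, one_mul, div_le_iff₀ hc]
      have : c ^ 2 = c * c := by ring
      linarith
    linarith
  unfold tl
  linarith

/-- The error. -/
theorem Nea1.two (h : Nea1 hn P P' G o c g ρ d) : d / c + d ≤ 2 / c * d ∧ 2 / c * d ≤ c / 8 ∧
    4 / c * d ≤ 8 / c ^ 2 * d ∧ 2 / c * d * 3 / c + 2 * d ≤ 8 / c ^ 2 * d ∧
    8 / c ^ 2 * d ≤ ρ / 2 ∧ 8 / c ^ 2 * d ≤ c / 16 := by
  have hc := h.c0
  have hc1 := h.c1
  have hd := h.d0
  have h1 := h.ρc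
  have h2 := h.dρ
  have hcc : c ^ 2 ≤ c := by
    have : c * c ≤ c * 1 := mul_le_mul_of_nonneg_left hc1 hc.le
    nlinarith
  have hρ : 0 < ρ := by
    have : 0 < c ^ 2 * ρ := by linarith
    exact pos_of_mul_pos_right this (by positivity)
  have a5 : 8 / c ^ 2 * d ≤ ρ / 2 := by
    rw [div_mul_eq_mul_div, div_le_iff₀ (by positivity)]
    linarith
  have a6 : ρ / 2 ≤ c / 16 := by linarith
  have e1 : 2 / c * d = d / c + d / c := by ring
  have e2 : d ≤ d / c := by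
    rw [le_div_iff₀ hc]
    have : d * c ≤ d * 1 := mul_le_mul_of_nonneg_left hc1 hd.le
    linarith
  have e3 : d / c ≤ d / c ^ 2 := by
    rw [div_le_div_iff₀ hc (by positivity)]
    exact mul_le_mul_of_nonneg_left hcc hd.le
  have e4 : 8 / c ^ 2 * d = 8 * (d / c ^ 2) := by ring
  have e5 : 4 / c * d = 4 * (d / c) := by ring
  have e6 : 2 / c * d * 3 / c = 6 * (d / c ^ 2) := by
    field_simp
    ring
  have e7 : 0 < d / c ^ 2 := by positivity
  have e8 : 0 < d / c := by positivity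
  refine ⟨by linarith, ?_, by linarith, by linarith, a5, by linarith⟩
  linarith

end

section law

variable {o : Od n} {c g ρ d : ℝ}

/-- **The numbers from above.** -/
theorem nea1_up (H : Pk hn S P rr P' Λ) (hTop : TopS n) (hF : FZX (n - 1))
    (h : Nea1 hn P P' (Gs P rr P' Λ o) o c g ρ d) {l : ℕ} (h1 : 1 ≤ l) (h2 : l < n - 1) {w : ℝ}
    (hw : |w - g| + d ≤ ρ) : Λ (img (cc hn o.1.1) l) (cc hn o.1.1 l) w 0 ≤
      tl hn P P' o g l w + 2 / c * d := by
  have hd := h.d0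
  have hw1 : |w - g| ≤ ρ := by linarith
  have hw2 : |w + d - g| ≤ ρ := by
    have e : w + d - g = (w - g) + d := by ring
    rw [e]
    refine (abs_add_le _ _).trans ?_
    rw [abs_of_pos hd]
    exact hw
  obtain ⟨a, ha, ha1, ha2⟩ := h.den w (w + d) hw1 hw2 le_rfl
  have h3 := nlw_up H hTop hF ha ha1.le h2
  have ha3 : |a - g| ≤ ρ := by
    obtain ⟨b1, b2⟩ := abs_le.1 hw1
    obtain ⟨b3, b4⟩ := abs_le.1 hw2
    rw [abs_le]
    constructor <;> linarith
  have h4 := (abs_le.1 (h.lin l h2.le a ha3)).2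
  have h5 := (h.tl_step h1 h2.le ha1.le).2
  have h6 : (a - w) / c ≤ d / c := div_le_div_of_nonneg_right (by linarith) h.c0.le
  have h7 := h.two.1
  linarith

/-- **The number of the second coordinate from below.** -/
theorem nea1_lo1 (H : Pk hn S P rr P' Λ) (hTop : TopS n) (hF : FZX (n - 1))
    (h : Nea1 hn P P' (Gs P rr P' Λ o) o c g ρ d) (h2 : 1 < n - 1) {w : ℝ}
    (hw : |w - g| + d ≤ ρ) : tl hn P P' o g 1 w - 2 / c * d ≤
      Λ {cc hn o.1.1 0} (cc hn o.1.1 1) w 0 := by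
  have hd := h.d0
  have hw1 : |w - g| ≤ ρ := by linarith
  have hw2 : |w - d - g| ≤ ρ := by
    have e : w - d - g = (w - g) + (-d) := by ring
    rw [e]
    refine (abs_add_le _ _).trans ?_
    rw [abs_neg, abs_of_pos hd]
    exact hw
  obtain ⟨a, ha, ha1, ha2⟩ := h.den (w - d) w hw2 hw1 (by linarith)
  have h3 := nlw_lo1 H hTop hF ha ha2 h2
  have ha3 : |a - g| ≤ ρ := by
    obtain ⟨b1, b2⟩ := abs_le.1 hw1
    obtain ⟨b3, b4⟩ := abs_le.1 hw2
    rw [abs_le]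
    constructor <;> linarith
  have h4 := (abs_le.1 (h.lin 1 h2.le a ha3)).1
  have h5 := (h.tl_step le_rfl h2.le ha2.le).2
  have h6 : (w - a) / c ≤ d / c := div_le_div_of_nonneg_right (by linarith) h.c0.le
  have h7 := h.two.1
  linarith

/-- **The growth of the number of the second coordinate.** -/
theorem nea1_gro (H : Pk hn S P rr P' Λ) (hTop : TopS n) (hF : FZX (n - 1))
    (h : Nea1 hn P P' (Gs P rr P' Λ o) o c g ρ d) (h2 : 1 < n - 1) {W : ℝ}
    (hW : |W - g| + (2 / c * d * 3 / c + d) ≤ ρ) : ∃ a₀ a₁ : ℝ, 0 ≤ a₀ ∧ a₀ < a₁ ∧ a₁ < 1 ∧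
      Λ {cc hn o.1.1 0} (cc hn o.1.1 1) W 0 - W <
        Λ {cc hn o.1.1 0} (cc hn o.1.1 1) a₀ a₀ - a₁ := by
  have hd := h.d0
  have hc := h.c0
  have hc1 := h.c1
  have hcg := h.cg
  have hg1 := h.g1
  have hρc := h.ρc
  have hcc : c ^ 2 ≤ c := by
    have : c * c ≤ c * 1 := mul_le_mul_of_nonneg_left hc1 hc.le
    nlinarith
  obtain ⟨κ, hκ⟩ : ∃ κ, κ = 2 / c * d := ⟨_, rfl⟩
  have hκ0 : 0 < κ := by rw [hκ]; positivity
  have hκ1 : κ ≤ c / 8 := by rw [hκ]; exact h.two.2.1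
  rw [← hκ] at hW
  have hh0 : 0 < κ * 3 / c := by positivity
  have hch : c * (κ * 3 / c) = 3 * κ := by field_simp
  obtain ⟨y, hy⟩ : ∃ y, y = κ * 3 / c := ⟨_, rfl⟩
  rw [← hy] at hW hh0 hch
  have hW1 : |W - g| ≤ ρ := by linarith
  obtain ⟨b1, b2⟩ := abs_le.1 hW1
  have b3 : |W - g| + y ≤ ρ - d := by linarith
  have b4 : |W + y - g| + d ≤ ρ := by
    have e : W + y - g = (W - g) + y := by ring
    have := abs_add_le (W - g) y
    rw [abs_of_pos hh0] at this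
    rw [e]
    linarith
  have h3 := nea1_lo1 H hTop hF h h2 b4
  have h4 := nea1_up H hTop hF h (l := 1) le_rfl h2 (w := W) (by linarith)
  rw [img_one, ← hκ] at h4
  rw [← hκ] at h3
  have h5 := (h.tl_step (l := 1) le_rfl h2.le (show W ≤ W + y by linarith)).1
  have e5 : (1 + c) * (W + y - W) = y + c * y := by ring
  have b5 : 0 ≤ W + y := by linarith
  have b6 : |W + y - g| ≤ ρ := by linarith
  have b7 := (abs_le.1 b6).2
  have h6 : Λ {cc hn o.1.1 0} (cc hn o.1.1 1) (W + y) 0 ≤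
      Λ {cc hn o.1.1 0} (cc hn o.1.1 1) (W + y) (W + y) :=
    H.lam.mono _ _ _ _ _ _ _ (Finset.Subset.refl _) le_rfl b5
  exact ⟨W + y, W + y + κ / 2, b5, by linarith, by linarith, by linarith⟩

/-- **The number of the third coordinate from below.** -/
theorem nea1_lo2 (H : Pk hn S P rr P' Λ) (hTop : TopS n) (hF : FZX (n - 1))
    (h : Nea1 hn P P' (Gs P rr P' Λ o) o c g ρ d) (h2 : 2 < n - 1) {w : ℝ}
    (hw : |w - g| + 8 / c ^ 2 * d ≤ ρ) : tl hn P P' o g 2 w - 4 / c * d ≤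
      Λ {cc hn o.1.1 0, cc hn o.1.1 1} (cc hn o.1.1 2) w 0 := by
  have hd := h.d0
  have hc := h.c0
  have hc1 := h.c1
  obtain ⟨t1, t2, t3, t4, t5, t6⟩ := h.two
  have hκ0 : 0 < 2 / c * d * 3 / c := by positivity
  have hw1 : |w - g| ≤ ρ := by linarith
  have hw2 : |w - 2 * d - g| ≤ ρ := by
    have e : w - 2 * d - g = (w - g) + (-(2 * d)) := by ring
    rw [e]
    refine (abs_add_le _ _).trans ?_
    rw [abs_neg, abs_of_pos (show 0 < 2 * d by linarith)]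
    linarith
  have hw3 : |w - d - g| ≤ ρ := by
    have e : w - d - g = (w - g) + (-d) := by ring
    rw [e]
    refine (abs_add_le _ _).trans ?_
    rw [abs_neg, abs_of_pos hd]
    linarith
  obtain ⟨a, ha, ha1, ha2⟩ := h.den (w - 2 * d) (w - d) hw2 hw3 (by linarith)
  -- a window where the number is continuous
  have hmono : Monotone fun v => Λ {cc hn o.1.1 0} (cc hn o.1.1 1) v 0 := fun x y hxy =>
    H.lam.mono _ _ _ _ _ _ _ (Finset.Subset.refl _) hxy le_rfl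
  have hcnt := hmono.countable_not_continuousAt
  obtain ⟨W, hW1, hW2, hW3⟩ : ∃ W, ContinuousAt (fun v => Λ {cc hn o.1.1 0} (cc hn o.1.1 1) v 0) W ∧
      w - d < W ∧ W < w := by
    obtain ⟨W, h3, h4⟩ := (hcnt.dense_compl ℝ).exists_between (show w - d < w by linarith)
    refine ⟨W, ?_, h4.1, h4.2⟩
    by_contra hcon
    exact h3 hcon
  have hWg : |W - g| ≤ |w - g| + d := by
    have e : W - g = (w - g) + (W - w) := by ring
    rw [e]
    refine (abs_add_le _ _).trans ?_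
    have : |W - w| ≤ d := by rw [abs_le]; constructor <;> linarith
    linarith
  have hW4 : |W - g| + (2 / c * d * 3 / c + d) ≤ ρ := by linarith
  obtain ⟨a₀, a₁, c1, c2, c3, c4⟩ := nea1_gro H hTop hF h (by omega) hW4
  have hW5 : |W - g| ≤ ρ := by linarith
  have hlo := nea1_lo1 H hTop hF h (by omega) (w := W) (by linarith)
  have hup := nea1_up H hTop hF h (l := 1) le_rfl (by omega) (w := W) (by linarith)
  rw [img_one] at hup
  have k1 := h.tl_lo (l := 1) le_rfl (by omega) hW5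
  have k2 := h.tl_hi (l := 1) le_rfl (by omega) hW5
  have h3 := nlw_lo2 H hTop hF ha (ha2.trans hW2) h2 hW1 (by linarith) (by linarith) c1 c2 c4
  have ha3 : |a - g| ≤ ρ := by
    obtain ⟨b1, b2⟩ := abs_le.1 hw2
    obtain ⟨b3, b4⟩ := abs_le.1 hw3
    rw [abs_le]
    constructor <;> linarith
  have h4 := (abs_le.1 (h.lin 2 h2.le a ha3)).1
  have h5 := (h.tl_step (l := 2) (by omega) h2.le (show a ≤ w by linarith)).2
  have h6 : (w - a) / c ≤ 2 * (d / c) := by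
    have e : 2 * (d / c) = 2 * d / c := by ring
    rw [e]
    exact div_le_div_of_nonneg_right (by linarith) hc.le
  have h7 : Λ {cc hn o.1.1 0, cc hn o.1.1 1} (cc hn o.1.1 2) W 0 ≤
      Λ {cc hn o.1.1 0, cc hn o.1.1 1} (cc hn o.1.1 2) w 0 :=
    H.lam.mono _ _ _ _ _ _ _ (Finset.Subset.refl _) hW3.le le_rfl
  have e8 : 4 / c * d = 2 * (2 / c * d) := by ring
  have e9 : 2 / c * d = d / c + d / c := by ring
  linarith

end law

end Pool.ONE91
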